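import Pool.Agent.Lib.Pbbea99T.Outer

/-!
# MP_bbea99_co: soundness of the outer check
-/

namespace MPbbea99T

open Finset MPbbea99S

/-- the facts behind the data of the outer check -/
structure OHyp (Q : OP) (X : ℕ → ℕ → ℕ) (Φ : ℕ → ℤ) (d : ℤ) (h K : ℕ) (lO : ℕ → ℕ)
    (rO : ℕ → ℕ → ℕ → ℕ → ℕ) (bo C3 br BR : ℕ) : Prop where
  hn : 2 ≤ Q.n
  hB : 0 < Q.B
  hF : 1 ≤ Q.F
  hMF : Q.MF = 2 ^ Q.F
  hK1 : Q.K1 + h = K
  hLO : Q.LO = pk Q.F lO Q.n
  hlO : ∀ k, k < Q.n → (lO k : ℤ) = bo + d * ∑ j ∈ range (k + 1), Φ j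
  hlOlt : ∀ k, k < Q.n → lO k < 2 ^ Q.F
  hz : ∑ j ∈ range Q.n, Φ j = 0
  hCO : Q.CO + h * ∑ k ∈ range Q.n, lO k = C3
  hR : ∀ ro, ro < 2 → ∀ s, s < 2 → ∀ κ, κ < Q.n → nthL Q.rT ((2 * ro + s) * Q.n + κ) =
    pk Q.F (rO ro s κ) Q.m
  hrO : ∀ ro, ro < 2 → ∀ s, s < 2 → ∀ κ, κ < Q.n → ∀ r, r < Q.m →
    (rO ro s κ r : ℤ) = br + sg ro * RS Q.n X Φ s κ r
  hRm : ∀ s, s < 2 → ∀ κ, κ < Q.n → RS Q.n X Φ s κ Q.m = sg s * (d * Φ κ)
  hBR : ∀ ro, ro < 2 → ∀ s, s < 2 → ∀ κ, κ < Q.n → ∀ r, r < Q.m → rO ro s κ r ≤ BR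
  hBR2 : 2 * BR < 2 ^ (Q.F - 1)
  hTO : Q.TO = C3 + 4 * br
  hTOlt : Q.TO < 2 ^ (Q.F - 1)
  hON : Q.ON = pk Q.F (fun _ => 1) Q.m
  hKO : Q.KO = pk Q.F (fun _ => 2 ^ (Q.F - 1) - 1) Q.m
  hGO : Q.GO = pk Q.F (fun _ => 2 ^ (Q.F - 1)) Q.m

lemma maxN2_eq (a b : ℕ) : maxN2 a b = max a b := by
  unfold maxN2
  cases hb : Nat.ble a b with
  | true =>
    have := Nat.le_of_ble_eq_true hb
    show b = max a b
    omega
  | false =>
    have h2 : ¬ a ≤ b := by
      intro hc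
      rw [Nat.ble_eq_true_of_le hc] at hb
      exact absurd hb (by simp)
    show a = max a b
    omega

/-- fields of a shifted array -/
lemma shr_field {F : ℕ} {g : ℕ → ℕ} {m s i : ℕ} (hg : ∀ i, i < m → g i < 2 ^ F) :
    (pk F g m >>> (F * s)) / 2 ^ (F * i) % 2 ^ F = if i + s < m then g (i + s) else 0 := by
  rw [Nat.shiftRight_eq_div_pow, Nat.div_div_eq_div_mul, ← pow_add]
  have e : F * s + F * i = F * (i + s) := by ring
  rw [e]
  split_ifs with h
  · exact pk_field hg h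
  · have h1 := pk_lt hg
    have h2 : 2 ^ (F * m) ≤ 2 ^ (F * (i + s)) :=
      Nat.pow_le_pow_right (by norm_num) (Nat.mul_le_mul le_rfl (by omega))
    rw [Nat.div_eq_of_lt (by omega), Nat.zero_mod]

/-- a shifted array is an array -/
lemma shr_pk {F : ℕ} (hF : 0 < F) {g : ℕ → ℕ} {m s : ℕ} (hg : ∀ i, i < m → g i < 2 ^ F) :
    pk F g m >>> (F * s) = pk F (fun i => if i + s < m then g (i + s) else 0) m := by
  have hlt : ∀ i, i < m → (if i + s < m then g (i + s) else 0) < 2 ^ F := by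
    intro i _
    split_ifs with h
    · exact hg _ h
    · positivity
  apply Nat.eq_of_testBit_eq
  intro j
  rw [Nat.testBit_shiftRight, testBit_pk hF hg, testBit_pk hF hlt]
  have e1 : (F * s + j) / F = j / F + s := by
    rw [Nat.mul_add_div hF, Nat.add_comm]
  have e2 : (F * s + j) % F = j % F := by rw [Nat.mul_add_mod]
  rw [e1, e2]
  by_cases h1 : j / F + s < m
  · have h2 : F * s + j < F * m := by
      have := (Nat.div_lt_iff_lt_mul hF).1 (by rw [e1]; exact h1 : (F * s + j) / F < m)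
      rw [Nat.mul_comm m F] at this
      exact this
    have h3 : j < F * m := by omega
    simp [h1, h2, h3]
  · have h2 : ¬ F * s + j < F * m := by
      intro hc
      apply h1
      rw [← e1]
      exact Nat.div_lt_of_lt_mul hc
    simp [h1, h2]

lemma shr_const {F c m cnt : ℕ} (hc : c < 2 ^ F) (hcnt : cnt ≤ m) :
    pk F (fun _ => c) m >>> (F * (m - cnt)) = pk F (fun _ => c) cnt := by
  rw [Nat.shiftRight_eq_div_pow]
  have e : pk F (fun _ => c) m = pk F (fun _ => c) ((m - cnt) + cnt) := by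
    congr 1
    omega
  rw [e, pk_div (m - cnt) cnt (fun _ _ => hc)]

section

variable {Q : OP} {X : ℕ → ℕ → ℕ} {Φ : ℕ → ℤ} {d : ℤ} {h K : ℕ} {lO : ℕ → ℕ}
    {rO : ℕ → ℕ → ℕ → ℕ → ℕ} {bo C3 br BR : ℕ}

lemma OHyp.rlt (H : OHyp Q X Φ d h K lO rO bo C3 br BR) {ro s κ r : ℕ} (hro : ro < 2)
    (hs : s < 2) (hκ : κ < Q.n) (hr : r < Q.m) : rO ro s κ r < 2 ^ (Q.F - 1) := by
  have h1 := H.hBR ro hro s hs κ hκ r hr
  have h2 := H.hBR2
  omega

lemma pow_pred {F : ℕ} (hF : 1 ≤ F) : (2 : ℕ) ^ F = 2 * 2 ^ (F - 1) := by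
  conv_lhs => rw [show F = (F - 1) + 1 by omega]
  rw [pow_succ]
  ring

/-- the comparison excludes equality of totals -/
lemma OHyp.cmp (H : OHyp Q X Φ d h K lO rO bo C3 br BR) {s s' κ κ' X2 lo lo' cnt j : ℕ}
    (hs : s < 2) (hs' : s' < 2) (hκ : κ < Q.n) (hκ' : κ' < Q.n) (hcnt : cnt ≤ Q.m)
    (hj : j < cnt) (h1 : lo + j < Q.m) (h2 : lo' + j < Q.m)
    (hc : cmpO Q X2 (nthL Q.rT (ixO Q 0 s κ)) (nthL Q.rT (ixO Q 1 s' κ')) lo lo' cnt = true) :
    X2 + rO 0 s κ (lo + j) + rO 1 s' κ' (lo' + j) ≠ Q.TO := by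
  intro heq
  have hF := H.hF
  have hpp := pow_pred hF
  have hlt : ∀ i, i < Q.m → rO 0 s κ i < 2 ^ Q.F := by
    intro i hi
    have := H.rlt (ro := 0) (by norm_num) hs hκ hi
    omega
  have hlt' : ∀ i, i < Q.m → rO 1 s' κ' i < 2 ^ Q.F := by
    intro i hi
    have := H.rlt (ro := 1) (by norm_num) hs' hκ' hi
    omega
  have e1 : nthL Q.rT (ixO Q 0 s κ) = pk Q.F (rO 0 s κ) Q.m := H.hR 0 (by norm_num) s hs κ hκ
  have e2 : nthL Q.rT (ixO Q 1 s' κ') = pk Q.F (rO 1 s' κ') Q.m :=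
    H.hR 1 (by norm_num) s' hs' κ' hκ'
  unfold cmpO at hc
  rw [e1, e2, H.hON, H.hKO, H.hGO] at hc
  have hc' : nz ((pk Q.F (rO 0 s κ) Q.m >>> (Q.F * lo) + pk Q.F (rO 1 s' κ') Q.m >>> (Q.F * lo')) ^^^
    ((Q.TO - X2) * pk Q.F (fun _ => 1) Q.m))
    (pk Q.F (fun _ => 2 ^ (Q.F - 1) - 1) Q.m >>> (Q.F * (Q.m - cnt)))
    (pk Q.F (fun _ => 2 ^ (Q.F - 1)) Q.m >>> (Q.F * (Q.m - cnt))) = true := hc
  have hp0 : 0 < 2 ^ (Q.F - 1) := by positivity
  rw [shr_pk hF hlt, shr_pk hF hlt', ← pk_add, ← pk_smul,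
    shr_const (c := 2 ^ (Q.F - 1) - 1) (by omega) hcnt,
    shr_const (c := 2 ^ (Q.F - 1)) (by omega) hcnt] at hc'
  have hS : ∀ i, i < Q.m → (if i + lo < Q.m then rO 0 s κ (i + lo) else 0) +
      (if i + lo' < Q.m then rO 1 s' κ' (i + lo') else 0) < 2 ^ (Q.F - 1) := by
    intro i _
    have h3 := H.hBR2
    split_ifs with g1 g2 g2
    · have := H.hBR 0 (by norm_num) s hs κ hκ _ g1
      have := H.hBR 1 (by norm_num) s' hs' κ' hκ' _ g2
      omega
    · have := H.hBR 0 (by norm_num) s hs κ hκ _ g1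
      omega
    · have := H.hBR 1 (by norm_num) s' hs' κ' hκ' _ g2
      omega
    · positivity
  have hT : (Q.TO - X2) * 1 < 2 ^ (Q.F - 1) := by
    have := H.hTOlt
    omega
  have hfS : ∀ i, i < Q.m → (pk Q.F (fun i => (if i + lo < Q.m then rO 0 s κ (i + lo) else 0) +
      (if i + lo' < Q.m then rO 1 s' κ' (i + lo') else 0)) Q.m) / 2 ^ (Q.F * i) % 2 ^ Q.F =
      (if i + lo < Q.m then rO 0 s κ (i + lo) else 0) +
      (if i + lo' < Q.m then rO 1 s' κ' (i + lo') else 0) := by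
    intro i hi
    apply pk_field _ hi
    intro i' hi'
    have := hS i' hi'
    omega
  have hfT : ∀ i, i < Q.m → (pk Q.F (fun _ => (Q.TO - X2) * 1) Q.m) / 2 ^ (Q.F * i) % 2 ^ Q.F =
      (Q.TO - X2) * 1 := by
    intro i hi
    apply pk_field _ hi
    intro i' _
    omega
  have hne := nz_sound (Cnt := cnt) hF rfl rfl (by
    intro i hi
    rw [xor_field, hfS i (by omega), hfT i (by omega)]
    exact Nat.xor_lt_two_pow (hS i (by omega)) hT) hc' hj
  apply hne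
  rw [xor_field, hfS j (by omega), hfT j (by omega), if_pos (by omega), if_pos (by omega),
    Nat.add_comm j lo, Nat.add_comm j lo']
  have : rO 0 s κ (lo + j) + rO 1 s' κ' (lo' + j) = (Q.TO - X2) * 1 := by omega
  rw [this, Nat.xor_self]

/-- windows with a short gap are excluded -/
theorem OHyp.sound (H : OHyp Q X Φ d h K lO rO bo C3 br BR) {M : ℕ} {w y : ℕ → ℕ}
    (hs : IsSeq 2 M w y) {t a b c e ra rb rc re : ℕ} (ha : ra < Q.m) (hb : rb < Q.m)
    (hc : rc < Q.m) (he : re < Q.m)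
    (hK : ∀ k, k < Q.n → Q.K1 ≤ dg t k)
    (hsum : ∑ k ∈ range Q.n, (dg t k - Q.K1) = Q.n * h)
    (hm : Match Q.n Q.A Q.B K y t a b c e) (hchk : chkO Q t = true)
    (hab : Q.m * a + ra < Q.m * b + rb) (hbc : Q.m * b + rb ≤ Q.m * c + rc)
    (hdl : (Q.m * b + rb) + (Q.m * c + rc) = (Q.m * e + re) + (Q.m * a + ra))
    (hg : Q.B * (Q.m * c + rc) + Q.A * (Q.m * a + ra) < (Q.A + Q.B) * (Q.m * b + rb))
    (hz : ∀ ω ρ, VV (GS Q.n (Wd Q.n Q.m X y) ω ρ) (Q.m * a + ra) (Q.m * b + rb)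
      (Q.m * c + rc) (Q.m * e + re) = 0) : False := by
  have hn := H.hn
  have hn0 : 0 < Q.n := by omega
  obtain ⟨kb, hkb⟩ : ∃ kb, kb = (b + (Q.n - 1) * a) % Q.n := ⟨_, rfl⟩
  obtain ⟨kc, hkc⟩ : ∃ kc, kc = (c + (Q.n - 1) * a) % Q.n := ⟨_, rfl⟩
  obtain ⟨ke, hke⟩ : ∃ ke, ke = (e + (Q.n - 1) * a) % Q.n := ⟨_, rfl⟩
  obtain ⟨dl, hdl0⟩ : ∃ dl, dl = dg t (Q.n + 3) := ⟨_, rfl⟩
  obtain ⟨gt, hgt⟩ : ∃ gt, gt = (Q.B * c + Q.A * a + (Q.A + Q.B)) - (Q.A + Q.B) * b := ⟨_, rfl⟩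
  obtain ⟨zl, hzl⟩ : ∃ zl, zl = if b = a then 1 else 0 := ⟨_, rfl⟩
  obtain ⟨zv, hzv⟩ : ∃ zv, zv = if c = b then 1 else 0 := ⟨_, rfl⟩
  obtain ⟨ze, hze⟩ : ∃ ze, ze = if e = c then 1 else 0 := ⟨_, rfl⟩
  have e0 : dg t Q.n = kb := hm.hb.trans hkb.symm
  have e1 : dg t (Nat.add Q.n 1) = kc := hm.hc.trans hkc.symm
  have e2 : dg t (Nat.add Q.n 2) = ke := hm.he.trans hke.symm
  have e3 : dg t (Nat.add Q.n 3) = dl := hdl0.symm
  have e4 : dg t (Nat.add Q.n 4) = gt := hm.hg.trans hgt.symm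
  have e5 : dg t (Nat.add Q.n 5) = zl := hm.h5.trans hzl.symm
  have e6 : dg t (Nat.add Q.n 6) = zv := hm.h6.trans hzv.symm
  have e7 : dg t (Nat.add Q.n 7) = ze := hm.h7.trans hze.symm
  have e8 : dg t (Nat.add Q.n 8) = y a := hm.h8
  have e9 : dg t (Nat.add Q.n 9) = y b := hm.h9
  have e10 : dg t (Nat.add Q.n 10) = y c := hm.h10
  have e11 : dg t (Nat.add Q.n 11) = y e := hm.h11
  unfold chkO at hchk
  rw [e0, e1, e2, e3, e4, e5, e6, e7, e8, e9, e10, e11] at hchk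
  have hdl' : dl + (e + a) = b + c + 1 := by rw [hdl0]; exact hm.hd
  have lb : kb < Q.n := by rw [hkb]; exact Nat.mod_lt _ hn0
  have lc : kc < Q.n := by rw [hkc]; exact Nat.mod_lt _ hn0
  have le : ke < Q.n := by rw [hke]; exact Nat.mod_lt _ hn0
  have ya := hs.lt a
  have yb := hs.lt b
  have yc := hs.lt c
  have ye := hs.lt e
  have hF := H.hF
  have hpp := pow_pred hF
  -- the loops
  unfold oA at hchk
  have l1 := allN_spec (allN_spec hchk ra ha) rb hb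
  unfold oB at l1
  have s1 : bc (Nat.beq zl 1) (Nat.ble rb ra) false = false := by
    cases hb1 : Nat.beq zl 1 with
    | false => rfl
    | true =>
      have hz1 := Nat.eq_of_beq_eq_true hb1
      rw [bc_true]
      cases hb2 : Nat.ble rb ra with
      | false => rfl
      | true =>
        exfalso
        have h2 := Nat.le_of_ble_eq_true hb2
        have h3 : b = a := by
          by_contra hne
          rw [if_neg hne] at hzl
          omega
        rw [h3] at hab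
        omega
  have l2 := bc_pass l1 s1
  have hexp : re + (Q.m + ra) = Q.m * dl + rb + rc := by
    have g2 : Q.m * dl + Q.m * (e + a) = Q.m * (b + c) + Q.m := by
      rw [← Nat.mul_add, hdl']
      ring
    rw [Nat.mul_add, Nat.mul_add] at g2
    omega
  have l3 := bc_skip l2 (Nat.ble_eq_true_of_le (by
    show ra ≤ Q.m * dl + rb
    omega))
  obtain ⟨ob, hob⟩ : ∃ ob, ob = Q.m * dl + rb - ra := ⟨_, rfl⟩
  have hob' : Nat.sub (Nat.add (Nat.mul Q.m dl) rb) ra = ob := hob.symm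
  rw [hob'] at l3
  have s2 : bc (Nat.beq ze 1) (Nat.ble ob Q.m) false = false := by
    cases hb1 : Nat.beq ze 1 with
    | false => rfl
    | true =>
      have hz1 := Nat.eq_of_beq_eq_true hb1
      rw [bc_true]
      cases hb2 : Nat.ble ob Q.m with
      | false => rfl
      | true =>
        exfalso
        have h2 := Nat.le_of_ble_eq_true hb2
        have h3 : e = c := by
          by_contra hne
          rw [if_neg hne] at hze
          omega
        rw [h3] at hdl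
        omega
  have l4 := bc_pass l3 s2
  unfold oC at l4
  -- the range
  obtain ⟨lo, hlo⟩ : ∃ lo, lo = maxN2 (Nat.sub Q.m ob) (Nat.mul zv rb) := ⟨_, rfl⟩
  obtain ⟨hi, hhi⟩ : ∃ hi, hi = minN (minN Q.m (Nat.sub (Nat.mul 2 Q.m) ob))
    (cntO Q gt ra rb) := ⟨_, rfl⟩
  rw [← hlo, ← hhi] at l4
  have hlo' : lo = max (Q.m - ob) (zv * rb) := by rw [hlo, maxN2_eq]; rfl
  have hhi' : hi = min (min Q.m (2 * Q.m - ob)) (cntO Q gt ra rb) := by
    rw [hhi, minN_eq, minN_eq]; rfl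
  have hrc1 : lo ≤ rc := by
    rw [hlo']
    apply max_le
    · omega
    · by_cases h1 : c = b
      · rw [hzv, if_pos h1, Nat.one_mul]
        rw [h1] at hbc
        omega
      · rw [hzv, if_neg h1, Nat.zero_mul]
        omega
  have hcnt : rc < cntO Q gt ra rb := by
    have key : Q.m * gt + Q.A * ra + Q.B * rc < (Q.A + Q.B) * (Q.m + rb) := by
      have e3 : (Q.A + Q.B) * (Q.m + rb) = Q.m * (Q.A + Q.B) + (Q.A + Q.B) * rb := by ring
      rcases Nat.lt_or_ge ((Q.A + Q.B) * b) (Q.B * c + Q.A * a + (Q.A + Q.B)) with h1 | h1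
      · have h2 : Q.B * c + Q.A * a + (Q.A + Q.B) = gt + (Q.A + Q.B) * b := by omega
        have h3 : Q.m * (Q.B * c + Q.A * a) + Q.m * (Q.A + Q.B) =
            Q.m * gt + Q.m * ((Q.A + Q.B) * b) := by
          rw [← Nat.mul_add, h2, Nat.mul_add]
        have e1 : Q.B * (Q.m * c + rc) + Q.A * (Q.m * a + ra) =
          Q.m * (Q.B * c + Q.A * a) + Q.B * rc + Q.A * ra := by ring
        have e2 : (Q.A + Q.B) * (Q.m * b + rb) =
          Q.m * ((Q.A + Q.B) * b) + (Q.A + Q.B) * rb := by ring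
        rw [e1, e2] at hg
        rw [e3]
        omega
      · have h0 : gt = 0 := by omega
        rw [h0, Nat.mul_zero, e3]
        have h3 : Q.B * rc + Q.B ≤ Q.B * Q.m := by
          rw [← Nat.mul_succ]
          exact Nat.mul_le_mul le_rfl hc
        have h4 : Q.A * ra + Q.A ≤ Q.A * Q.m := by
          rw [← Nat.mul_succ]
          exact Nat.mul_le_mul le_rfl ha
        have hB := H.hB
        have : Q.m * (Q.A + Q.B) = Q.A * Q.m + Q.B * Q.m := by ring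
        omega
    show rc < (((Q.A + Q.B) * (Q.m + rb)) - (Q.m * gt + Q.A * ra) + (Q.B - 1)) / Q.B
    have h5 : rc + 1 ≤ (((Q.A + Q.B) * (Q.m + rb)) - (Q.m * gt + Q.A * ra) + (Q.B - 1)) / Q.B := by
      rw [Nat.le_div_iff_mul_le H.hB]
      have : (rc + 1) * Q.B = Q.B * rc + Q.B := by ring
      have hB := H.hB
      omega
    omega
  have hrc2 : rc < hi := by
    rw [hhi']
    apply lt_min (lt_min hc _) hcnt
    omega
  have hhim : hi ≤ Q.m := by
    rw [hhi']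
    exact (min_le_left _ _).trans (min_le_left _ _)
  have hble : Nat.ble hi lo = false := by
    cases hb2 : Nat.ble hi lo with
    | false => rfl
    | true =>
      have := Nat.le_of_ble_eq_true hb2
      omega
  have l5 := bc_pass l4 hble
  -- the values
  have hval : (valO Q t : ℤ) = C3 + d * VV (FS y (fun x => Φ ((x + (Q.n - 1) * a) % Q.n)))
      a b c e := by
    unfold valO
    rw [sumN_eq]
    have h1 : ∀ k ∈ range Q.n, Nat.mul (Nat.sub (dg t k) Q.K1) (fd Q.F Q.MF Q.LO k) =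
        (dg t k - Q.K1) * lO k := by
      intro k hk
      rw [H.hMF, H.hLO, fd_pk H.hlOlt (Finset.mem_range.1 hk)]
      rfl
    rw [Finset.sum_congr rfl h1]
    have h2 : ∀ k ∈ range Q.n, ((dg t k - Q.K1 : ℕ) : ℤ) = EV Q.n y k a b c e + h := by
      intro k hk
      have g1 := hm.hE k (Finset.mem_range.1 hk)
      have g2 := hK k (Finset.mem_range.1 hk)
      have g3 := H.hK1
      rw [Nat.cast_sub g2, g1, ← g3]
      push_cast
      ring
    have h3 : ∑ k ∈ range Q.n, EV Q.n y k a b c e = 0 := by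
      have g1 : ((∑ k ∈ range Q.n, (dg t k - Q.K1) : ℕ) : ℤ) = ((Q.n * h : ℕ) : ℤ) := by
        rw [hsum]
      push_cast at g1
      have g2 : ∑ k ∈ range Q.n, ((dg t k - Q.K1 : ℕ) : ℤ) =
        ∑ k ∈ range Q.n, (EV Q.n y k a b c e + h) := Finset.sum_congr rfl h2
      rw [Finset.sum_add_distrib] at g2
      simp only [Finset.sum_const, Finset.card_range, nsmul_eq_mul] at g2
      push_cast at g2
      linarith
    have h4 := expand hn (y := y) (θ := fun x => Φ (x % Q.n)) (by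
      intro x
      show Φ ((x + Q.n) % Q.n) = Φ (x % Q.n)
      rw [Nat.add_mod_right]) (by
      rw [← H.hz]
      apply Finset.sum_congr rfl
      intro j hj
      show Φ (j % Q.n) = Φ j
      rw [Nat.mod_eq_of_lt (Finset.mem_range.1 hj)]) a b c e
    have h5 : VV (FS y (fun x => Φ ((x + (Q.n - 1) * a) % Q.n))) a b c e =
        ∑ k ∈ range Q.n, EV Q.n y k a b c e * ∑ j ∈ range (k + 1), Φ j := by
      rw [show (fun x => Φ ((x + (Q.n - 1) * a) % Q.n)) =
        (fun x => (fun x => Φ (x % Q.n)) (x + (Q.n - 1) * a)) from rfl, h4]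
      apply Finset.sum_congr rfl
      intro k hk
      congr 1
      apply Finset.sum_congr rfl
      intro j hj
      have := Finset.mem_range.1 hk
      have := Finset.mem_range.1 hj
      show Φ (j % Q.n) = Φ j
      rw [Nat.mod_eq_of_lt (by omega)]
    have h6 : (Q.CO : ℤ) = C3 - h * ∑ k ∈ range Q.n, (lO k : ℤ) := by
      have := H.hCO
      rw [← this]
      push_cast
      ring
    show ((∑ k ∈ range Q.n, (dg t k - Q.K1) * lO k + Q.CO : ℕ) : ℤ) = _
    rw [Nat.cast_add, Nat.cast_sum, h6, h5]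
    have h7 : ∑ k ∈ range Q.n, (((dg t k - Q.K1) * lO k : ℕ) : ℤ) =
        d * ∑ k ∈ range Q.n, EV Q.n y k a b c e * ∑ j ∈ range (k + 1), Φ j +
        bo * ∑ k ∈ range Q.n, EV Q.n y k a b c e + h * ∑ k ∈ range Q.n, (lO k : ℤ) := by
      rw [Finset.mul_sum, Finset.mul_sum, Finset.mul_sum, ← Finset.sum_add_distrib,
        ← Finset.sum_add_distrib]
      apply Finset.sum_congr rfl
      intro k hk
      rw [Nat.cast_mul, h2 k hk, H.hlO k (Finset.mem_range.1 hk)]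
      ring
    rw [h7, h3]
    ring
  have h0 := hz Φ ((Q.n - 1) * a)
  unfold VV at h0
  rw [GS_block hs hn0 H.hRm _ a ra ha.le, GS_block hs hn0 H.hRm _ b rb hb.le,
    GS_block hs hn0 H.hRm _ c rc hc.le, GS_block hs hn0 H.hRm _ e re he.le, ← hkb, ← hkc,
    ← hke] at h0
  have haa : (a + (Q.n - 1) * a) % Q.n = 0 := by
    obtain ⟨n', hn'⟩ : ∃ n', Q.n = n' + 1 := ⟨Q.n - 1, by omega⟩
    rw [hn']
    simp only [Nat.add_sub_cancel]
    have : a + n' * a = (n' + 1) * a := by ring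
    rw [this, Nat.mul_mod_right]
  rw [haa] at h0
  have ra' := H.hrO 1 (by norm_num) (y a) ya 0 hn0 ra ha
  have rb' := H.hrO 0 (by norm_num) (y b) yb kb lb rb hb
  have rc' := H.hrO 0 (by norm_num) (y c) yc kc lc rc hc
  have re' := H.hrO 1 (by norm_num) (y e) ye ke le re he
  rw [sg_one] at ra' re'
  rw [sg_zero] at rb' rc'
  have htot : valO Q t + rO 1 (y a) 0 ra + rO 0 (y b) kb rb + rO 0 (y c) kc rc +
      rO 1 (y e) ke re = Q.TO := by
    have hz' : ((valO Q t + rO 1 (y a) 0 ra + rO 0 (y b) kb rb + rO 0 (y c) kc rc +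
      rO 1 (y e) ke re : ℕ) : ℤ) = (Q.TO : ℕ) := by
      rw [H.hTO]
      push_cast
      unfold VV at hval
      linarith
    exact_mod_cast hz'
  -- tables
  have hlt : ∀ {ro s κ : ℕ}, ro < 2 → s < 2 → κ < Q.n → ∀ i, i < Q.m →
      rO ro s κ i < 2 ^ Q.F := by
    intro ro s κ h1 h2 h3 i hi
    have := H.rlt h1 h2 h3 hi
    omega
  have f1 : fd Q.F Q.MF (nthL Q.rT (ixO Q 1 (y a) 0)) ra = rO 1 (y a) 0 ra := by
    have e1 : nthL Q.rT (ixO Q 1 (y a) 0) = pk Q.F (rO 1 (y a) 0) Q.m :=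
      H.hR 1 (by norm_num) (y a) ya 0 hn0
    rw [e1, H.hMF]
    exact fd_pk (hlt (by norm_num) ya hn0) ha
  have f2 : fd Q.F Q.MF (nthL Q.rT (ixO Q 0 (y b) kb)) rb = rO 0 (y b) kb rb := by
    have e1 : nthL Q.rT (ixO Q 0 (y b) kb) = pk Q.F (rO 0 (y b) kb) Q.m :=
      H.hR 0 (by norm_num) (y b) yb kb lb
    rw [e1, H.hMF]
    exact fd_pk (hlt (by norm_num) yb lb) hb
  rw [f1, f2] at l5
  have g1 : lo + (rc - lo) = rc := by omega
  have hlo2 : lo + ob ≥ Q.m := by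
    have : Q.m - ob ≤ lo := by rw [hlo']; exact le_max_left _ _
    omega
  have g2 : (Nat.sub (Nat.add lo ob) Q.m) + (rc - lo) = re := by
    show (lo + ob - Q.m) + (rc - lo) = re
    omega
  have hcmp := H.cmp yc ye lc le (cnt := Nat.sub hi lo) (j := rc - lo) (by
    show hi - lo ≤ Q.m
    omega) (by
    show rc - lo < hi - lo
    omega) (by omega) (by rw [g2]; exact he) l5
  rw [g1, g2] at hcmp
  apply hcmp
  rw [← htot]
  rfl

end

end MPbbea99T
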