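import Pool.Agent.Lib.Pbbea99T.Clos3

/-!
# MP_bbea99_co: the word and its windows
-/

namespace MPbbea99T

open Finset MPbbea99S

/-- the word: block `j` is `X (y j)`, shifted by `j` -/
def Wd (n m : ℕ) (X : ℕ → ℕ → ℕ) (y : ℕ → ℕ) (i : ℕ) : ℕ := (X (y (i / m)) (i % m) + i / m) % n

/-- weighted prefix sums of the word -/
def GS (n : ℕ) (v : ℕ → ℕ) (ω : ℕ → ℤ) (ρ p : ℕ) : ℤ := ∑ x ∈ range p, ω ((v x + ρ) % n)

/-- weighted prefix sums of a block -/
def RS (n : ℕ) (X : ℕ → ℕ → ℕ) (ω : ℕ → ℤ) (s κ r : ℕ) : ℤ :=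
  ∑ u ∈ range r, ω ((X s u + κ) % n)

lemma Wd_lt {n m : ℕ} {X : ℕ → ℕ → ℕ} {y : ℕ → ℕ} (hn : 0 < n) (i : ℕ) : Wd n m X y i < n :=
  Nat.mod_lt _ hn

lemma GS_block {n m M : ℕ} {w : ℕ → ℕ} {X : ℕ → ℕ → ℕ} {y : ℕ → ℕ} (hs : IsSeq 2 M w y)
    (hn : 0 < n) {ω : ℕ → ℤ} {d : ℤ}
    (hR : ∀ s, s < 2 → ∀ κ, κ < n → RS n X ω s κ m = sg s * (d * ω κ)) (ρ j r : ℕ)
    (hr : r ≤ m) : GS n (Wd n m X y) ω ρ (m * j + r) =
      d * FS y (fun x => ω ((x + ρ) % n)) j + RS n X ω (y j) ((j + ρ) % n) r := by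
  have key : ∀ j r, r ≤ m → GS n (Wd n m X y) ω ρ (m * j + r) =
      GS n (Wd n m X y) ω ρ (m * j) + RS n X ω (y j) ((j + ρ) % n) r := by
    intro j r hr
    unfold GS RS
    rw [Finset.sum_range_add]
    congr 1
    apply Finset.sum_congr rfl
    intro u hu
    have hu' : u < m := by
      have := Finset.mem_range.1 hu
      omega
    have h1 : (m * j + u) / m = j := by
      rw [Nat.mul_add_div (by omega), Nat.div_eq_of_lt hu', Nat.add_zero]
    have h2 : (m * j + u) % m = u := by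
      rw [Nat.mul_add_mod, Nat.mod_eq_of_lt hu']
    unfold Wd
    rw [h1, h2, Nat.mod_add_mod, Nat.add_mod_mod, Nat.add_assoc]
  have h0 : ∀ j, GS n (Wd n m X y) ω ρ (m * j) = d * FS y (fun x => ω ((x + ρ) % n)) j := by
    intro j
    induction j with
    | zero => simp [FS, GS]
    | succ j ih =>
      rw [Nat.mul_succ, key j m le_rfl, ih, hR _ (hs.lt j) _ (Nat.mod_lt _ hn)]
      simp only [FS, Finset.sum_range_succ]
      ring
  rw [key j r hr, h0]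

lemma GS_cn {n : ℕ} {v : ℕ → ℕ} (hv : ∀ i, v i < n) (ω : ℕ → ℤ) (ρ p : ℕ) :
    GS n v ω ρ p = ∑ c ∈ range n, (cn v c p : ℤ) * ω ((c + ρ) % n) := by
  induction p with
  | zero => simp [GS, cn_zero]
  | succ p ih =>
    have h1 : GS n v ω ρ (p + 1) = GS n v ω ρ p + ω ((v p + ρ) % n) := by
      simp [GS, Finset.sum_range_succ]
    have h2 : ∀ c ∈ range n, (cn v c (p + 1) : ℤ) * ω ((c + ρ) % n) =
        (cn v c p : ℤ) * ω ((c + ρ) % n) + if v p = c then ω ((c + ρ) % n) else 0 := by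
      intro c _
      rw [cn_succ]
      split_ifs <;> push_cast <;> ring
    rw [h1, ih, Finset.sum_congr rfl h2, Finset.sum_add_distrib, Finset.sum_ite_eq,
      if_pos (Finset.mem_range.2 (hv p))]

lemma GS_ex {n : ℕ} {v : ℕ → ℕ} (hv : ∀ i, v i < n) (ω : ℕ → ℤ) (ρ : ℕ) {a c l : ℕ}
    (h : Ex n v a c l) : VV (GS n v ω ρ) a (a + l) c (c + l) = 0 := by
  unfold VV
  rw [GS_cn hv, GS_cn hv, GS_cn hv, GS_cn hv, ← Finset.sum_sub_distrib,
    ← Finset.sum_sub_distrib, ← Finset.sum_add_distrib]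
  apply Finset.sum_eq_zero
  intro x hx
  have h1 := h x (Finset.mem_range.1 hx)
  have h2 : (cn v x (a + l) : ℤ) + cn v x c = cn v x (c + l) + cn v x a := by exact_mod_cast h1
  have h3 : (cn v x (a + l) : ℤ) = cn v x (c + l) + cn v x a - cn v x c := by linarith
  rw [h3]
  ring

/-- the certificate of the outer level -/
structure OCert (n m : ℕ) (X : ℕ → ℕ → ℕ) (I : ℕ) (om : ℕ → ℕ → ℤ) (mu : ℕ → ℤ)
    (U : ℕ → ℕ → ℕ → ℕ → ℤ) (R : ℕ → ℕ → ℕ → ℕ → ℤ) (d : ℤ) : Prop where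
  hm : 0 < m
  hd : 0 < d
  hR : ∀ i, i < I → ∀ s, s < 2 → ∀ κ, κ < n → ∀ r, r ≤ m → R i s κ r = RS n X (om i) s κ r
  hRm : ∀ i, i < I → ∀ s, s < 2 → ∀ κ, κ < n → R i s κ m = sg s * (d * om i κ)
  hU : ∀ i, i < I → ∀ ro, ro < 2 → ∀ s, s < 2 → ∀ κ, κ < n → ∀ r, r < m →
    sg ro * (m * R i s κ r + d * mu i * r) ≤ m * d * U i ro s κ

/-- coincidences of the word give living quadruples of blocks -/
theorem OCert.alive {n m M : ℕ} {w : ℕ → ℕ} {X : ℕ → ℕ → ℕ} {y : ℕ → ℕ} (hs : IsSeq 2 M w y)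
    (hn : 0 < n) {I : ℕ} {om : ℕ → ℕ → ℤ} {mu : ℕ → ℤ} {U : ℕ → ℕ → ℕ → ℕ → ℤ}
    {R : ℕ → ℕ → ℕ → ℕ → ℤ} {d : ℤ} (C : OCert n m X I om mu U R d)
    {a b c e ra rb rc re : ℕ} (ha : ra < m) (hb : rb < m) (hc : rc < m) (he : re < m)
    (hdl : (m * b + rb) + (m * c + rc) = (m * e + re) + (m * a + ra))
    (hz : ∀ ω ρ, VV (GS n (Wd n m X y) ω ρ) (m * a + ra) (m * b + rb) (m * c + rc)
      (m * e + re) = 0) : Alive n y I om mu U a b c e := by
  intro i hi ρ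
  have hR : ∀ s, s < 2 → ∀ κ, κ < n → RS n X (om i) s κ m = sg s * (d * om i κ) := by
    intro s hs' κ hκ
    rw [← C.hR i hi s hs' κ hκ m le_rfl, C.hRm i hi s hs' κ hκ]
  have h0 := hz (om i) ρ
  unfold VV at h0
  rw [GS_block hs hn hR ρ a ra ha.le, GS_block hs hn hR ρ b rb hb.le,
    GS_block hs hn hR ρ c rc hc.le, GS_block hs hn hR ρ e re he.le] at h0
  have hn' : ∀ x, (x + ρ) % n < n := fun x => Nat.mod_lt _ hn
  have ua := C.hU i hi 1 (by norm_num) (y a) (hs.lt a) _ (hn' a) ra ha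
  have ub := C.hU i hi 0 (by norm_num) (y b) (hs.lt b) _ (hn' b) rb hb
  have uc := C.hU i hi 0 (by norm_num) (y c) (hs.lt c) _ (hn' c) rc hc
  have ue := C.hU i hi 1 (by norm_num) (y e) (hs.lt e) _ (hn' e) re he
  rw [C.hR i hi _ (hs.lt a) _ (hn' a) ra ha.le, sg_one] at ua
  rw [C.hR i hi _ (hs.lt b) _ (hn' b) rb hb.le, sg_zero] at ub
  rw [C.hR i hi _ (hs.lt c) _ (hn' c) rc hc.le, sg_zero] at uc
  rw [C.hR i hi _ (hs.lt e) _ (hn' e) re he.le, sg_one] at ue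
  have hdz : (m : ℤ) * b + rb + (m * c + rc) = m * e + re + (m * a + ra) := by exact_mod_cast hdl
  have hmd : (0 : ℤ) < m * d := mul_pos (by exact_mod_cast C.hm) C.hd
  have hfin : (0 : ℤ) ≤ m * d * (VV (FS y (fun x => om i ((x + ρ) % n))) a b c e +
    mu i * (((b : ℤ) - a) - (e - c)) + U i 1 (y a) ((a + ρ) % n) + U i 0 (y b) ((b + ρ) % n) +
      U i 0 (y c) ((c + ρ) % n) + U i 1 (y e) ((e + ρ) % n)) := by
    have e1 : (m : ℤ) * d * VV (FS y (fun x => om i ((x + ρ) % n))) a b c e =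
        m * (RS n X (om i) (y a) ((a + ρ) % n) ra - RS n X (om i) (y b) ((b + ρ) % n) rb +
          RS n X (om i) (y e) ((e + ρ) % n) re - RS n X (om i) (y c) ((c + ρ) % n) rc) := by
      unfold VV
      rw [mul_assoc]
      congr 1
      linarith
    have e2 : (m : ℤ) * d * (mu i * (((b : ℤ) - a) - (e - c))) =
        d * mu i * (re + ra - rb - rc) := by
      have : (m : ℤ) * (((b : ℤ) - a) - (e - c)) = re + ra - rb - rc := by linarith
      rw [← this]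
      ring
    rw [mul_add, mul_add, mul_add, mul_add, mul_add, e1, e2]
    linarith
  by_contra hcon
  push Not at hcon
  have := mul_neg_of_pos_of_neg hmd hcon
  linarith

/-- the quadruple of blocks of a window with a short gap is admissible -/
lemma adm_outer {A B m a b c e ra rb rc re : ℕ} (hB : 0 < B) (ha : ra < m) (hb : rb < m)
    (hc : rc < m) (he : re < m) (hab : m * a + ra ≤ m * b + rb) (hbc : m * b + rb ≤ m * c + rc)
    (hce : m * c + rc ≤ m * e + re)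
    (hdl : (m * b + rb) + (m * c + rc) = (m * e + re) + (m * a + ra))
    (hg : B * (m * c + rc) + A * (m * a + ra) < (A + B) * (m * b + rb)) : Adm A B a b c e := by
  have h : Adm A B (m * a + ra) (m * b + rb) (m * c + rc) (m * e + re) := by
    refine ⟨hab, hbc, hce, by omega, by omega, ?_⟩
    have : (A + B) * (m * b + rb + 1) = (A + B) * (m * b + rb) + (A + B) := by ring
    omega
  exact h.parent ha hb hc he

end MPbbea99T
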