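import Pool.Agent.Lib.Pbbea99T.Clos2

/-!
# MP_bbea99_co: soundness of the closure check, steps
-/

namespace MPbbea99T

open Finset MPbbea99S

/-- digits given by two functions -/
def gg (n : ℕ) (G v : ℕ → ℕ) (j : ℕ) : ℕ := if j < n then G j else v (j - n)

lemma gg_lo {n : ℕ} {G v : ℕ → ℕ} {j : ℕ} (h : j < n) : gg n G v j = G j := if_pos h

lemma gg_hi {n : ℕ} {G v : ℕ → ℕ} (i : ℕ) : gg n G v (n + i) = v i := by
  unfold gg
  rw [if_neg (by omega)]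
  congr 1
  omega

lemma tailC_pk (n : ℕ) (g : ℕ → ℕ) : tailC n (g n) (g (n + 1)) (g (n + 2)) (g (n + 3)) (g (n + 4))
    (g (n + 5)) (g (n + 6)) (g (n + 7)) (g (n + 8)) (g (n + 9)) (g (n + 10)) (g (n + 11))
    (pk 16 g n) = pk 16 g (n + 12) := rfl

lemma tailC_eq (n : ℕ) (G v : ℕ → ℕ) : tailC n (v 0) (v 1) (v 2) (v 3) (v 4) (v 5) (v 6) (v 7)
    (v 8) (v 9) (v 10) (v 11) (pk 16 G n) = pk 16 (gg n G v) (n + 12) := by
  rw [← tailC_pk]
  have h0 : gg n G v n = v 0 := gg_hi 0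
  rw [h0, gg_hi 1, gg_hi 2, gg_hi 3, gg_hi 4, gg_hi 5, gg_hi 6, gg_hi 7, gg_hi 8, gg_hi 9,
    gg_hi 10, gg_hi 11]
  congr 1
  apply pk_congr
  intro i hi
  exact (gg_lo hi).symm

lemma dg_pk {g : ℕ → ℕ} {L j : ℕ} (h : ∀ i, i < L → g i < 65536) (hj : j < L) :
    dg (pk 16 g L) j = g j := by
  have e : (65536 : ℕ) = 2 ^ 16 := by norm_num
  unfold dg
  rw [e]
  apply fd_pk _ hj
  intro i hi
  rw [← e]
  exact h i hi

/-- the values of the small digits -/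
def vv (v0 v1 v2 v3 v4 v5 v6 v7 v8 v9 v10 v11 : ℕ) (i : ℕ) : ℕ :=
  match i with
  | 0 => v0
  | 1 => v1
  | 2 => v2
  | 3 => v3
  | 4 => v4
  | 5 => v5
  | 6 => v6
  | 7 => v7
  | 8 => v8
  | 9 => v9
  | 10 => v10
  | _ => v11

/-- a code from its digits -/
lemma match_of {n A B K : ℕ} {y : ℕ → ℕ} {a b c e : ℕ} {G : ℕ → ℕ}
    {v0 v1 v2 v3 v4 v5 v6 v7 v8 v9 v10 v11 : ℕ} (hn : 0 < n) (hn16 : n < 65536)
    (hAB : 2 * (A + B) < 65536) (hadm : Adm A B a b c e)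
    (hy : ∀ i, y i < 2) (hGlt : ∀ k, k < n → G k < 65536)
    (hG : ∀ k, k < n → (G k : ℤ) = K + EV n y k a b c e)
    (h0 : v0 = (b + (n - 1) * a) % n) (h1 : v1 = (c + (n - 1) * a) % n)
    (h2 : v2 = (e + (n - 1) * a) % n) (h3 : v3 + (e + a) = b + c + 1)
    (h4 : v4 = (B * c + A * a + (A + B)) - (A + B) * b) (h5 : v5 = if b = a then 1 else 0)
    (h6 : v6 = if c = b then 1 else 0) (h7 : v7 = if e = c then 1 else 0) (h8 : v8 = y a)
    (h9 : v9 = y b) (h10 : v10 = y c) (h11 : v11 = y e) :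
    Match n A B K y (tailC n v0 v1 v2 v3 v4 v5 v6 v7 v8 v9 v10 v11 (pk 16 G n)) a b c e := by
  have hcode := tailC_eq n G (vv v0 v1 v2 v3 v4 v5 v6 v7 v8 v9 v10 v11)
  simp only [vv] at hcode
  rw [hcode]
  have hlt : ∀ i, i < 12 → vv v0 v1 v2 v3 v4 v5 v6 v7 v8 v9 v10 v11 i < 65536 := by
    intro i hi
    have hA1 := hadm.h2
    have hA2 := hadm.hg
    have hA3 : (A + B) * (b + 1) = (A + B) * b + (A + B) := by ring
    have z0 := Nat.mod_lt (b + (n - 1) * a) hn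
    have z1 := Nat.mod_lt (c + (n - 1) * a) hn
    have z2 := Nat.mod_lt (e + (n - 1) * a) hn
    have z5 : v5 ≤ 1 := by rw [h5]; split_ifs <;> omega
    have z6 : v6 ≤ 1 := by rw [h6]; split_ifs <;> omega
    have z7 : v7 ≤ 1 := by rw [h7]; split_ifs <;> omega
    have z8 := hy a
    have z9 := hy b
    have z10 := hy c
    have z11 := hy e
    interval_cases i <;> simp only [vv] <;> omega
  have hall : ∀ i, i < n + 12 → gg n G (vv v0 v1 v2 v3 v4 v5 v6 v7 v8 v9 v10 v11) i < 65536 := by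
    intro i hi
    unfold gg
    split_ifs with h
    · exact hGlt i h
    · exact hlt _ (by omega)
  have hd : ∀ i, i < 12 → dg (pk 16 (gg n G (vv v0 v1 v2 v3 v4 v5 v6 v7 v8 v9 v10 v11)) (n + 12))
      (n + i) = vv v0 v1 v2 v3 v4 v5 v6 v7 v8 v9 v10 v11 i := by
    intro i hi
    rw [dg_pk hall (by omega), gg_hi]
  constructor
  · intro k hk
    rw [dg_pk hall (by omega), gg_lo hk]
    exact hG k hk
  · exact (hd 0 (by norm_num)).trans h0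
  · rw [hd 1 (by norm_num)]
    exact h1
  · rw [hd 2 (by norm_num)]
    exact h2
  · rw [hd 3 (by norm_num)]
    exact h3
  · rw [hd 4 (by norm_num)]
    exact h4
  · rw [hd 5 (by norm_num)]
    exact h5
  · rw [hd 6 (by norm_num)]
    exact h6
  · rw [hd 7 (by norm_num)]
    exact h7
  · rw [hd 8 (by norm_num)]
    exact h8
  · rw [hd 9 (by norm_num)]
    exact h9
  · rw [hd 10 (by norm_num)]
    exact h10
  · rw [hd 11 (by norm_num)]
    exact h11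

variable {P : CP} {W I : ℕ} {w : ℕ → ℕ} {om : ℕ → ℕ → ℤ} {mu : ℕ → ℤ}
    {U : ℕ → ℕ → ℕ → ℕ → ℤ} {q : ℕ → ℕ → ℕ → ℤ} {qc : ℕ → ℕ → ℤ} {h K : ℕ}
    {gB : ℕ → ℕ → ℕ → ℕ → ℕ → ℕ} {xB : ℕ → ℕ → ℕ → ℕ → ℕ} {lB : ℕ → ℕ → ℕ} {cB : ℕ → ℕ}
    {uB : ℕ → ℕ → ℕ} {uX : ℕ → ℕ} {gS : ℕ → ℕ → ℕ → ℕ → ℕ → ℕ} {lS : ℕ → ℕ → ℕ} {cS : ℕ → ℕ}
    {C1 bq bu bl BL BC BX BU C2 bs bls BLs BCs BXs : ℕ}

section

variable (H : CHyp P W I w om mu U q qc h K gB xB lB cB uB uX gS lS cS C1 bq bu bl BL BC BX BU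
  C2 bs bls BLs BCs BXs)
include H

lemma CHyp.sgn_child {y : ℕ → ℕ} (hs : IsSeq 2 P.M w y) {x i : ℕ} (hi : i < P.M) :
    Nat.mod (Nat.add (y x) (wd P.wt i)) 2 = y (P.M * x + i) := by
  rw [hs.step x i hi, H.hwt i hi]
  rfl

lemma CHyp.pV_le {t : ℕ} (hd : DOK P t) {f : ℕ} (hf : f < I * P.n) :
    pV P lB cB t f ≤ P.nh * BL + BC := by
  unfold pV
  exact Nat.add_le_add (sum_le_of hd (fun k hk => H.bL k hk f hf)) (H.bC f hf)

lemma CHyp.pVs_le {t : ℕ} (hd : DOK P t) {k : ℕ} (hk : k < P.n) :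
    pV P lS cS t k ≤ P.nh * BLs + BCs := by
  unfold pV
  exact Nat.add_le_add (sum_le_of hd (fun j hj => H.bLs j hj k hk)) (H.bCs k hk)

lemma CHyp.tabG {ro s κ t : ℕ} (hro : ro < 2) (hs : s < 2) (hκ : κ < P.n) (ht : t < P.M) :
    fd P.WL P.ML (nthL P.gT (ix P ro s κ)) t = pk W (gB ro s κ t) (I * P.n) := by
  have e : nthL P.gT (ix P ro s κ) = pk P.WL (fun t => pk W (gB ro s κ t) (I * P.n)) P.M :=
    H.hG ro hro s hs κ hκ
  rw [e, H.hML, fd_pk _ ht]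
  intro i hi
  rw [H.hWL]
  apply pk_lt
  intro f hf
  have h1 := H.hxB ro hro s hs κ hκ i hi f hf
  have h2 := H.bX ro hro s hs κ hκ f hf
  have h3 := H.hbd
  omega

lemma CHyp.tabX {ro s κ : ℕ} (hro : ro < 2) (hs : s < 2) (hκ : κ < P.n) :
    nthL P.xT (ix P ro s κ) = pk W (xB ro s κ) (I * P.n) := H.hX ro hro s hs κ hκ

lemma CHyp.tabS {ro s κ t : ℕ} (hro : ro < 2) (hs : s < 2) (hκ : κ < P.n) (ht : t < P.M) :
    fd P.WS P.MS (nthL P.sT (ix P ro s κ)) t = pk 16 (gS ro s κ t) P.n := by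
  have e : nthL P.sT (ix P ro s κ) = pk P.WS (fun t => pk 16 (gS ro s κ t) P.n) P.M :=
    H.hS ro hro s hs κ hκ
  rw [e, H.hMS, fd_pk _ ht]
  intro i hi
  rw [H.hWS]
  apply pk_lt
  intro k hk
  have h1 := H.bXs ro hro s hs κ hκ i hi k hk
  have h3 := H.hbdS
  omega

/-- the total value of a living child -/
lemma CHyp.total {y : ℕ → ℕ} (hs : IsSeq 2 P.M w y)
    (hq : ∀ i, i < I → ∀ κ, κ < P.n → ∀ t, t ≤ P.M →
      q i κ t = QS w (fun x => om i (x % P.n)) κ t)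
    {t a b c e ia ib ic ie d : ℕ} (ha : ia < P.M) (hb : ib < P.M) (hc : ic < P.M)
    (he : ie < P.M) (hm : Match P.n P.A P.B K y t a b c e) (hd : DOK P t) (hd3 : d < 3)
    (hdd : d + ((P.M * e + ie) + (P.M * a + ia)) = (P.M * b + ib) + (P.M * c + ic) + 1)
    (hal : Alive P.n y I om mu U (P.M * a + ia) (P.M * b + ib) (P.M * c + ic) (P.M * e + ie))
    {f : ℕ} (hf : f < I * P.n) :
    2 ^ (W - 1) ≤ pV P lB cB t f + gB 1 (y a) 0 ia f +
      gB 0 (y b) ((P.M * ((b + (P.n - 1) * a) % P.n)) % P.n) ib f +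
      gB 0 (y c) ((P.M * ((c + (P.n - 1) * a) % P.n)) % P.n) ic f +
      gB 1 (y e) ((P.M * ((e + (P.n - 1) * a) % P.n)) % P.n) ie f + uB d f := by
  have hn := H.hn
  have hn0 : 0 < P.n := by omega
  have hi : f / P.n < I := Nat.div_lt_of_lt_mul (by rw [Nat.mul_comm]; exact hf)
  have hw : ∀ r, r < P.M → w r < 2 := by
    intro r hr
    rw [H.hwt r hr]
    exact Nat.mod_lt _ (by norm_num)
  have g := hal (f / P.n) hi ((P.n - 1) * (P.M * a) + f)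
  rw [child_val hn hs hw (hq _ hi) (H.hz f hf) ha hb hc he, res_a' hn0, res_x (x := b),
    res_x (x := c), res_x (x := e), hs.step a ia ha, hs.step b ib hb, hs.step c ic hc,
    hs.step e ie he] at g
  have vP := H.pV_val hm hd (l := lB) (cc := cB) (Cc := C1) (bb := bl)
    (ps := fun k => ∑ j ∈ range (k + 1), q (f / P.n) ((P.M * j + f) % P.n) P.M) (f := f)
    (fun k hk => H.hlB k hk f hf) (H.hcB f hf)
  have v1 := H.hgB 1 (by norm_num) (y a) (hs.lt a) 0 hn0 ia ha f hf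
  have v2 := H.hgB 0 (by norm_num) (y b) (hs.lt b)
    ((P.M * ((b + (P.n - 1) * a) % P.n)) % P.n) (Nat.mod_lt _ hn0) ib hb f hf
  have v3 := H.hgB 0 (by norm_num) (y c) (hs.lt c)
    ((P.M * ((c + (P.n - 1) * a) % P.n)) % P.n) (Nat.mod_lt _ hn0) ic hc f hf
  have v4 := H.hgB 1 (by norm_num) (y e) (hs.lt e)
    ((P.M * ((e + (P.n - 1) * a) % P.n)) % P.n) (Nat.mod_lt _ hn0) ie he f hf
  have v5 := H.huB d hd3 f hf
  have hb' : ((C1 + 4 * bq + bu : ℕ) : ℤ) = (2 ^ (W - 1) : ℕ) := by rw [H.hbias]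
  have hd' : (d : ℤ) - 1 = (((P.M * b + ib : ℕ) : ℤ) - (P.M * a + ia : ℕ)) -
      ((P.M * e + ie : ℕ) - (P.M * c + ic : ℕ)) := by
    have : ((d + ((P.M * e + ie) + (P.M * a + ia)) : ℕ) : ℤ) =
      ((P.M * b + ib) + (P.M * c + ic) + 1 : ℕ) := by rw [hdd]
    rw [Nat.cast_add, Nat.cast_add, Nat.cast_add (P.M * b + ib + (P.M * c + ic)),
      Nat.cast_add (P.M * b + ib) (P.M * c + ic)] at this
    rw [Nat.cast_one] at this
    linarith
  rw [← hd'] at g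
  rw [sg_one] at v1 v4
  rw [sg_zero] at v2 v3
  have hfin : ((2 ^ (W - 1) : ℕ) : ℤ) ≤ ((pV P lB cB t f + gB 1 (y a) 0 ia f +
      gB 0 (y b) ((P.M * ((b + (P.n - 1) * a) % P.n)) % P.n) ib f +
      gB 0 (y c) ((P.M * ((c + (P.n - 1) * a) % P.n)) % P.n) ic f +
      gB 1 (y e) ((P.M * ((e + (P.n - 1) * a) % P.n)) % P.n) ie f + uB d f : ℕ) : ℤ) := by
    rw [← hb']
    push_cast
    linarith
  exact_mod_cast hfin

/-- the small values of a child -/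
lemma CHyp.totalS {y : ℕ → ℕ} (hs : IsSeq 2 P.M w y)
    {t a b c e ia ib ic ie : ℕ} (ha : ia < P.M) (hb : ib < P.M) (hc : ic < P.M)
    (he : ie < P.M) (hm : Match P.n P.A P.B K y t a b c e) (hd : DOK P t)
    {k : ℕ} (hk : k < P.n) :
    ((pV P lS cS t k + gS 1 (y a) 0 ia k +
      gS 0 (y b) ((P.M * ((b + (P.n - 1) * a) % P.n)) % P.n) ib k +
      gS 0 (y c) ((P.M * ((c + (P.n - 1) * a) % P.n)) % P.n) ic k +
      gS 1 (y e) ((P.M * ((e + (P.n - 1) * a) % P.n)) % P.n) ie k : ℕ) : ℤ) = K +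
      VV (FS y (fun x => chd ((x + ((P.n - 1) * (P.M * a) + (P.n - 1) * k)) % P.n)))
        (P.M * a + ia) (P.M * b + ib) (P.M * c + ic) (P.M * e + ie) := by
  have hn := H.hn
  have hn0 : 0 < P.n := by omega
  have hw : ∀ r, r < P.M → w r < 2 := by
    intro r hr
    rw [H.hwt r hr]
    exact Nat.mod_lt _ (by norm_num)
  rw [child_val hn hs hw H.hqc (H.hzS k hk) ha hb hc he]
  have vP := H.pV_val hm hd (l := lS) (cc := cS) (Cc := C2) (bb := bls)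
    (ps := fun j => ∑ i ∈ range (j + 1), qc ((P.M * i + (P.n - 1) * k) % P.n) P.M) (f := k)
    (fun j hj => H.hlS j hj k hk) (H.hcS k hk)
  have v1 := H.hgS 1 (by norm_num) (y a) (hs.lt a) 0 hn0 ia ha k hk
  have v2 := H.hgS 0 (by norm_num) (y b) (hs.lt b)
    ((P.M * ((b + (P.n - 1) * a) % P.n)) % P.n) (Nat.mod_lt _ hn0) ib hb k hk
  have v3 := H.hgS 0 (by norm_num) (y c) (hs.lt c)
    ((P.M * ((c + (P.n - 1) * a) % P.n)) % P.n) (Nat.mod_lt _ hn0) ic hc k hk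
  have v4 := H.hgS 1 (by norm_num) (y e) (hs.lt e)
    ((P.M * ((e + (P.n - 1) * a) % P.n)) % P.n) (Nat.mod_lt _ hn0) ie he k hk
  have hb' : ((C2 + 4 * bs : ℕ) : ℤ) = (K : ℕ) := by rw [H.hbiasS]
  rw [sg_one] at v1 v4
  rw [sg_zero] at v2 v3
  rw [← hb']
  push_cast
  linarith

end

end MPbbea99T
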