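import Pool.Agent.Lib.Pbbea99T.Pk

/-!
# MP_bbea99_co: the check functions
-/

namespace MPbbea99T

open MPbbea99S

/-- the data of the closure check -/
structure CP where
  n : ℕ
  M : ℕ
  A : ℕ
  B : ℕ
  K1 : ℕ
  nh : ℕ
  WL : ℕ
  ML : ℕ
  HI : ℕ
  LB : ℕ
  CB : ℕ
  gT : List ℕ
  xT : List ℕ
  uT : List ℕ
  uM : ℕ
  WS : ℕ
  MS : ℕ
  LS : ℕ
  CS : ℕ
  sT : List ℕ
  wt : ℕ
  T : List ℕ

/-- digit `k` of a code -/
def dg (t k : ℕ) : ℕ := fd 16 65536 t k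

/-- reduced digit -/
def eg (P : CP) (t k : ℕ) : ℕ := Nat.sub (dg t k) P.K1

/-- packed values -/
noncomputable def big (P : CP) (t : ℕ) : ℕ :=
  Nat.add (sumN (fun k => Nat.mul (eg P t k) (fd P.WL P.ML P.LB k)) P.n) P.CB

/-- packed differences -/
noncomputable def small (P : CP) (t : ℕ) : ℕ :=
  Nat.add (sumN (fun k => Nat.mul (eg P t k) (fd P.WS P.MS P.LS k)) P.n) P.CS

/-- sign index `i` of the pattern -/
def wd (wt i : ℕ) : ℕ := Nat.mod (Nat.shiftRight wt i) 2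

/-- the rest of a code -/
def tailC (n kb kc ke dl gt zl zv ze sa sb sc se : ℕ) (C : ℕ) : ℕ :=
  Nat.add (Nat.add (Nat.add (Nat.add (Nat.add (Nat.add (Nat.add (Nat.add (Nat.add (Nat.add
    (Nat.add (Nat.add C
    (Nat.shiftLeft kb (Nat.mul 16 n)))
    (Nat.shiftLeft kc (Nat.mul 16 (Nat.add n 1))))
    (Nat.shiftLeft ke (Nat.mul 16 (Nat.add n 2))))
    (Nat.shiftLeft dl (Nat.mul 16 (Nat.add n 3))))
    (Nat.shiftLeft gt (Nat.mul 16 (Nat.add n 4))))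
    (Nat.shiftLeft zl (Nat.mul 16 (Nat.add n 5))))
    (Nat.shiftLeft zv (Nat.mul 16 (Nat.add n 6))))
    (Nat.shiftLeft ze (Nat.mul 16 (Nat.add n 7))))
    (Nat.shiftLeft sa (Nat.mul 16 (Nat.add n 8))))
    (Nat.shiftLeft sb (Nat.mul 16 (Nat.add n 9))))
    (Nat.shiftLeft sc (Nat.mul 16 (Nat.add n 10))))
    (Nat.shiftLeft se (Nat.mul 16 (Nat.add n 11)))

/-- the shifted gap of a child -/
def gch (P : CP) (gt ia ib ic : ℕ) : ℕ :=
  Nat.sub (Nat.add (Nat.add (Nat.mul P.M gt) (Nat.mul P.B ic))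
    (Nat.add (Nat.mul P.A ia) (Nat.add P.A P.B)))
    (Nat.add (Nat.mul P.M (Nat.add P.A P.B)) (Nat.mul (Nat.add P.A P.B) ib))

/-- the residue of a child -/
def kch (P : CP) (k i ia : ℕ) : ℕ :=
  Nat.mod (Nat.add (Nat.add (Nat.mul P.M k) i) (Nat.mul (Nat.sub P.n 1) ia)) P.n

/-- the code of a child -/
noncomputable def codeC (P : CP) (kb kc ke gt zl zv ze sa sb sc se Sa Sb Sc Se S0 ia ib ic ie dl' : ℕ) : ℕ :=
  tailC P.n (kch P kb ib ia) (kch P kc ic ia) (kch P ke ie ia) dl' (gch P gt ia ib ic)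
    (Nat.mul zl (bn (Nat.beq ia ib))) (Nat.mul zv (bn (Nat.beq ib ic)))
    (Nat.mul ze (bn (Nat.beq ic ie)))
    (Nat.mod (Nat.add sa (wd P.wt ia)) 2) (Nat.mod (Nat.add sb (wd P.wt ib)) 2)
    (Nat.mod (Nat.add sc (wd P.wt ic)) 2) (Nat.mod (Nat.add se (wd P.wt ie)) 2)
    (rot 16 P.n (Nat.add (Nat.add (Nat.add (Nat.add S0 (fd P.WS P.MS Sa ia)) (fd P.WS P.MS Sb ib))
      (fd P.WS P.MS Sc ic)) (fd P.WS P.MS Se ie)) (Nat.mod ia P.n))

/-- the last level -/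
noncomputable def lvE (P : CP) (kb kc ke gt zl zv ze sa sb sc se Ge Sa Sb Sc Se S0 XC ia ib ic dl' ie : ℕ) :
    Bool :=
  bc (Nat.ble (Nat.succ ie) P.M)
    (bc (bc (Nat.beq ze 1) (Nat.ble (Nat.succ ie) ic) false) true
      (bc (hib (Nat.add (Nat.add XC (nthL P.uT dl')) (fd P.WL P.ML Ge ie)) P.HI)
        (memL (codeC P kb kc ke gt zl zv ze sa sb sc se Sa Sb Sc Se S0 ia ib ic ie dl') P.T)
        true)) true

/-- the third level -/
noncomputable def lvC (P : CP) (kb kc ke dl gt zl zv ze sa sb sc se Ge RC Sa Sb Sc Se S0 XC ia ib ic : ℕ) :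
    Bool :=
  bc (bc (Nat.beq zv 1) (Nat.ble (Nat.succ ic) ib) false) true
    (bc (hib (Nat.add XC RC) P.HI)
      (allN (fun dl' => bc (Nat.ble (Nat.add (Nat.add ia P.M) dl')
          (Nat.add (Nat.mul P.M dl) (Nat.add (Nat.add ib ic) 1)))
        (lvE P kb kc ke gt zl zv ze sa sb sc se Ge Sa Sb Sc Se S0 XC ia ib ic dl'
          (Nat.sub (Nat.add (Nat.mul P.M dl) (Nat.add (Nat.add ib ic) 1))
            (Nat.add (Nat.add ia P.M) dl'))) true) 3) true)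

/-- the bound of the third digit -/
def cntC (P : CP) (gt ia ib : ℕ) : ℕ :=
  Nat.div (Nat.add (Nat.sub
    (Nat.add (Nat.mul (Nat.add P.A P.B) (Nat.add P.M ib)) (Nat.mul 2 (Nat.add P.A P.B)))
    (Nat.add (Nat.add (Nat.mul P.M gt) (Nat.mul P.A ia)) (Nat.add P.A P.B))) (Nat.sub P.B 1)) P.B

/-- minimum -/
noncomputable def minN (a b : ℕ) : ℕ := Bool.rec b a (Nat.ble a b)

/-- the second level -/
noncomputable def lvB (P : CP) (kb kc ke dl gt zl zv ze sa sb sc se Gc Ge RB RC Sa Sb Sc Se S0 XB ia ib : ℕ) :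
    Bool :=
  bc (bc (Nat.beq zl 1) (Nat.ble (Nat.succ ib) ia) false) true
    (bc (hib (Nat.add XB RB) P.HI)
      (allN (fun ic => lvC P kb kc ke dl gt zl zv ze sa sb sc se Ge RC Sa Sb Sc Se S0
        (Nat.add XB (fd P.WL P.ML Gc ic)) ia ib ic) (minN P.M (cntC P gt ia ib))) true)

/-- the first level -/
noncomputable def lvA (P : CP) (kb kc ke dl gt zl zv ze sa sb sc se Gb Gc Ge RA RB RC Sa Sb Sc Se S0 XA ia : ℕ) :
    Bool :=
  bc (hib (Nat.add XA RA) P.HI)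
    (allN (fun ib => lvB P kb kc ke dl gt zl zv ze sa sb sc se Gc Ge RB RC Sa Sb Sc Se S0
      (Nat.add XA (fd P.WL P.ML Gb ib)) ia ib) P.M) true

/-- index of a table -/
def ix (P : CP) (ro s κ : ℕ) : ℕ := Nat.add (Nat.mul (Nat.add (Nat.mul 2 ro) s) P.n) κ

/-- all children of a template -/
noncomputable def lv0 (P : CP) (kb kc ke dl gt zl zv ze sa sb sc se Ga Gb Gc Ge Xb Xc Xe
    Sa Sb Sc Se S0 X0 : ℕ) : Bool :=
  allN (fun ia => lvA P kb kc ke dl gt zl zv ze sa sb sc se Gb Gc Ge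
    (Nat.add (Nat.add (Nat.add Xb Xc) Xe) P.uM) (Nat.add (Nat.add Xc Xe) P.uM) (Nat.add Xe P.uM)
    Sa Sb Sc Se S0 (Nat.add X0 (fd P.WL P.ML Ga ia)) ia) P.M

/-- check of a template -/
noncomputable def chkT (P : CP) (t : ℕ) : Bool :=
  bc (allN (fun k => Nat.ble P.K1 (dg t k)) P.n)
    (bc (Nat.beq (sumN (fun k => eg P t k) P.n) P.nh)
      (lv0 P (dg t P.n) (dg t (Nat.add P.n 1)) (dg t (Nat.add P.n 2)) (dg t (Nat.add P.n 3))
        (dg t (Nat.add P.n 4)) (dg t (Nat.add P.n 5)) (dg t (Nat.add P.n 6))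
        (dg t (Nat.add P.n 7)) (dg t (Nat.add P.n 8)) (dg t (Nat.add P.n 9))
        (dg t (Nat.add P.n 10)) (dg t (Nat.add P.n 11))
        (nthL P.gT (ix P 1 (dg t (Nat.add P.n 8)) 0))
        (nthL P.gT (ix P 0 (dg t (Nat.add P.n 9)) (Nat.mod (Nat.mul P.M (dg t P.n)) P.n)))
        (nthL P.gT (ix P 0 (dg t (Nat.add P.n 10))
          (Nat.mod (Nat.mul P.M (dg t (Nat.add P.n 1))) P.n)))
        (nthL P.gT (ix P 1 (dg t (Nat.add P.n 11))
          (Nat.mod (Nat.mul P.M (dg t (Nat.add P.n 2))) P.n)))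
        (nthL P.xT (ix P 0 (dg t (Nat.add P.n 9)) (Nat.mod (Nat.mul P.M (dg t P.n)) P.n)))
        (nthL P.xT (ix P 0 (dg t (Nat.add P.n 10))
          (Nat.mod (Nat.mul P.M (dg t (Nat.add P.n 1))) P.n)))
        (nthL P.xT (ix P 1 (dg t (Nat.add P.n 11))
          (Nat.mod (Nat.mul P.M (dg t (Nat.add P.n 2))) P.n)))
        (nthL P.sT (ix P 1 (dg t (Nat.add P.n 8)) 0))
        (nthL P.sT (ix P 0 (dg t (Nat.add P.n 9)) (Nat.mod (Nat.mul P.M (dg t P.n)) P.n)))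
        (nthL P.sT (ix P 0 (dg t (Nat.add P.n 10))
          (Nat.mod (Nat.mul P.M (dg t (Nat.add P.n 1))) P.n)))
        (nthL P.sT (ix P 1 (dg t (Nat.add P.n 11))
          (Nat.mod (Nat.mul P.M (dg t (Nat.add P.n 2))) P.n)))
        (small P t) (big P t)) false) false

/-! ### the outer check -/

/-- the data of the outer check -/
structure OP where
  n : ℕ
  m : ℕ
  A : ℕ
  B : ℕ
  K1 : ℕ
  nh : ℕ
  F : ℕ
  MF : ℕ
  LO : ℕ
  CO : ℕ
  TO : ℕ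
  ON : ℕ
  KO : ℕ
  GO : ℕ
  rT : List ℕ

/-- the value of a template -/
noncomputable def valO (Q : OP) (t : ℕ) : ℕ :=
  Nat.add (sumN (fun k => Nat.mul (Nat.sub (dg t k) Q.K1) (fd Q.F Q.MF Q.LO k)) Q.n) Q.CO

/-- comparison of all third positions -/
noncomputable def cmpO (Q : OP) (X2 Tc Te lo lo' cnt : ℕ) : Bool :=
  nz (Nat.xor (Nat.add (Nat.shiftRight Tc (Nat.mul Q.F lo)) (Nat.shiftRight Te (Nat.mul Q.F lo')))
    (Nat.mul (Nat.sub Q.TO X2) Q.ON))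
    (Nat.shiftRight Q.KO (Nat.mul Q.F (Nat.sub Q.m cnt)))
    (Nat.shiftRight Q.GO (Nat.mul Q.F (Nat.sub Q.m cnt)))

/-- maximum -/
noncomputable def maxN2 (a b : ℕ) : ℕ := Bool.rec a b (Nat.ble a b)

/-- the bound of the third position -/
def cntO (Q : OP) (gt ra rb : ℕ) : ℕ :=
  Nat.div (Nat.add (Nat.sub (Nat.mul (Nat.add Q.A Q.B) (Nat.add Q.m rb))
    (Nat.add (Nat.mul Q.m gt) (Nat.mul Q.A ra))) (Nat.sub Q.B 1)) Q.B

/-- the third level; `ob` is the shift plus `m` -/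
noncomputable def oC (Q : OP) (X2 Tc Te ob lo hi : ℕ) : Bool :=
  bc (Nat.ble hi lo) true (cmpO Q X2 Tc Te lo (Nat.sub (Nat.add lo ob) Q.m) (Nat.sub hi lo))

/-- the second level -/
noncomputable def oB (Q : OP) (dl gt zl zv ze Tb Tc Te X1 ra rb : ℕ) : Bool :=
  bc (bc (Nat.beq zl 1) (Nat.ble rb ra) false) true
    (bc (Nat.ble ra (Nat.add (Nat.mul Q.m dl) rb))
      (bc (bc (Nat.beq ze 1) (Nat.ble (Nat.sub (Nat.add (Nat.mul Q.m dl) rb) ra) Q.m) false) true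
        (oC Q (Nat.add X1 (fd Q.F Q.MF Tb rb)) Tc Te (Nat.sub (Nat.add (Nat.mul Q.m dl) rb) ra)
          (maxN2 (Nat.sub Q.m (Nat.sub (Nat.add (Nat.mul Q.m dl) rb) ra)) (Nat.mul zv rb))
          (minN (minN Q.m (Nat.sub (Nat.mul 2 Q.m) (Nat.sub (Nat.add (Nat.mul Q.m dl) rb) ra)))
            (cntO Q gt ra rb)))) true)

/-- all windows over a template -/
noncomputable def oA (Q : OP) (dl gt zl zv ze Ta Tb Tc Te X0 : ℕ) : Bool :=
  allN (fun ra => allN (fun rb => oB Q dl gt zl zv ze Tb Tc Te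
    (Nat.add X0 (fd Q.F Q.MF Ta ra)) ra rb) Q.m) Q.m

/-- index of a table -/
def ixO (Q : OP) (ro s κ : ℕ) : ℕ := Nat.add (Nat.mul (Nat.add (Nat.mul 2 ro) s) Q.n) κ

/-- check of a template -/
noncomputable def chkO (Q : OP) (t : ℕ) : Bool :=
  oA Q (dg t (Nat.add Q.n 3)) (dg t (Nat.add Q.n 4)) (dg t (Nat.add Q.n 5))
    (dg t (Nat.add Q.n 6)) (dg t (Nat.add Q.n 7))
    (nthL Q.rT (ixO Q 1 (dg t (Nat.add Q.n 8)) 0))
    (nthL Q.rT (ixO Q 0 (dg t (Nat.add Q.n 9)) (dg t Q.n)))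
    (nthL Q.rT (ixO Q 0 (dg t (Nat.add Q.n 10)) (dg t (Nat.add Q.n 1))))
    (nthL Q.rT (ixO Q 1 (dg t (Nat.add Q.n 11)) (dg t (Nat.add Q.n 2))))
    (valO Q t)

end MPbbea99T
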