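import Pool.Agent.Lib.Pbbea99T.Sums

/-!
# MP_bbea99_co: values of functionals from cyclic differences
-/

namespace MPbbea99T

open Finset MPbbea99S

/-- the difference functional -/
def chd (κ : ℕ) : ℤ := if κ = 0 then 1 else if κ = 1 then -1 else 0

/-- the difference at the relative residue `k` -/
def EV (n : ℕ) (y : ℕ → ℕ) (k a b c e : ℕ) : ℤ :=
  VV (FS y (fun x => chd ((x + (n - 1) * (a + k)) % n))) a b c e

lemma periodic_mod {n : ℕ} {θ : ℕ → ℤ} (hp : ∀ x, θ (x + n) = θ x) (x : ℕ) :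
    θ x = θ (x % n) := by
  have h : ∀ k r, θ (r + n * k) = θ r := by
    intro k r
    induction k with
    | zero => simp
    | succ k ih =>
      rw [Nat.mul_succ, ← Nat.add_assoc, hp, ih]
  conv_lhs => rw [← Nat.mod_add_div x n]
  exact h _ _

lemma mod_shift {n z k : ℕ} (hz : z < n) (hk : k < n) :
    (z + (n - 1) * k) % n = if k ≤ z then z - k else z + n - k := by
  have h1 : z + (n - 1) * k + k = z + n * k := by
    obtain ⟨m, rfl⟩ : ∃ m, n = m + 1 := ⟨n - 1, by omega⟩
    simp only [Nat.add_sub_cancel]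
    ring
  have h2 : ((z + (n - 1) * k) % n + k) % n = z := by
    rw [Nat.mod_add_mod, h1, Nat.add_mul_mod_self_left, Nat.mod_eq_of_lt hz]
  have h3 : (z + (n - 1) * k) % n < n := Nat.mod_lt _ (by omega)
  split_ifs with h
  · rcases Nat.lt_or_ge ((z + (n - 1) * k) % n + k) n with h4 | h4
    · rw [Nat.mod_eq_of_lt h4] at h2
      omega
    · rw [Nat.mod_eq_sub_mod h4, Nat.mod_eq_of_lt (by omega)] at h2
      omega
  · rcases Nat.lt_or_ge ((z + (n - 1) * k) % n + k) n with h4 | h4
    · rw [Nat.mod_eq_of_lt h4] at h2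
      omega
    · rw [Nat.mod_eq_sub_mod h4, Nat.mod_eq_of_lt (by omega)] at h2
      omega

lemma chd_shift {n z k : ℕ} (hn : 2 ≤ n) (hz : z < n) (hk : k < n) :
    chd ((z + (n - 1) * k) % n) =
      (if k = z then 1 else 0) - (if k = (z + (n - 1)) % n then 1 else 0) := by
  have e : (z + (n - 1)) % n = if z = 0 then n - 1 else z - 1 := by
    split_ifs with h
    · rw [h, Nat.zero_add, Nat.mod_eq_of_lt (by omega)]
    · have : z + (n - 1) = z - 1 + n := by omega
      rw [this, Nat.add_mod_right, Nat.mod_eq_of_lt (by omega)]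
  rw [mod_shift hz hk, e]
  unfold chd
  split_ifs <;> omega

/-- pointwise expansion -/
lemma expand_pt {n : ℕ} (hn : 2 ≤ n) {θ : ℕ → ℤ} (hp : ∀ x, θ (x + n) = θ x)
    (hz : ∑ j ∈ range n, θ j = 0) (a x : ℕ) :
    θ (x + (n - 1) * a) = ∑ k ∈ range n, (∑ j ∈ range (k + 1), θ j) *
      chd ((x + (n - 1) * (a + k)) % n) := by
  obtain ⟨z, hzd⟩ : ∃ z, z = (x + (n - 1) * a) % n := ⟨_, rfl⟩
  have hzn : z < n := by rw [hzd]; exact Nat.mod_lt _ (by omega)
  rw [periodic_mod hp, ← hzd]
  have h1 : ∀ k ∈ range n, (∑ j ∈ range (k + 1), θ j) * chd ((x + (n - 1) * (a + k)) % n) =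
      (if k = z then (∑ j ∈ range (k + 1), θ j) else 0) -
      (if k = (z + (n - 1)) % n then (∑ j ∈ range (k + 1), θ j) else 0) := by
    intro k hk
    have hk' := Finset.mem_range.1 hk
    have e : (x + (n - 1) * (a + k)) % n = (z + (n - 1) * k) % n := by
      rw [hzd, Nat.mod_add_mod]
      congr 1
      ring
    rw [e, chd_shift hn hzn hk']
    split_ifs <;> ring
  rw [Finset.sum_congr rfl h1, Finset.sum_sub_distrib, Finset.sum_ite_eq', Finset.sum_ite_eq',
    if_pos (Finset.mem_range.2 hzn), if_pos (Finset.mem_range.2 (Nat.mod_lt _ (by omega)))]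
  rcases Nat.eq_zero_or_pos z with h | h
  · have e : (z + (n - 1)) % n + 1 = n := by
      rw [h, Nat.zero_add, Nat.mod_eq_of_lt (by omega)]
      omega
    rw [e, hz, h]
    simp
  · have e : (z + (n - 1)) % n + 1 = z := by
      have : z + (n - 1) = z - 1 + n := by omega
      rw [this, Nat.add_mod_right, Nat.mod_eq_of_lt (by omega)]
      omega
    rw [e, Finset.sum_range_succ]
    ring

/-- expansion of values -/
lemma expand {n : ℕ} {y : ℕ → ℕ} (hn : 2 ≤ n) {θ : ℕ → ℤ} (hp : ∀ x, θ (x + n) = θ x)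
    (hz : ∑ j ∈ range n, θ j = 0) (a b c e : ℕ) :
    VV (FS y (fun x => θ (x + (n - 1) * a))) a b c e =
      ∑ k ∈ range n, EV n y k a b c e * ∑ j ∈ range (k + 1), θ j := by
  rw [VV_congr (expand_pt hn hp hz a), VV_lin]
  apply Finset.sum_congr rfl
  intro k _
  unfold EV
  ring

end MPbbea99T
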