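import Pool.Agent.Lib.Pbbea99T.Check
import Pool.Agent.Lib.Pbbea99T.Exp

/-!
# MP_bbea99_co: soundness of the closure check
-/

namespace MPbbea99T

open Finset MPbbea99S

/-- a code describes a quadruple -/
structure Match (n A B K : ℕ) (y : ℕ → ℕ) (t a b c e : ℕ) : Prop where
  hE : ∀ k, k < n → (dg t k : ℤ) = K + EV n y k a b c e
  hb : dg t n = (b + (n - 1) * a) % n
  hc : dg t (n + 1) = (c + (n - 1) * a) % n
  he : dg t (n + 2) = (e + (n - 1) * a) % n
  hd : dg t (n + 3) + (e + a) = b + c + 1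
  hg : dg t (n + 4) = (B * c + A * a + (A + B)) - (A + B) * b
  h5 : dg t (n + 5) = if b = a then 1 else 0
  h6 : dg t (n + 6) = if c = b then 1 else 0
  h7 : dg t (n + 7) = if e = c then 1 else 0
  h8 : dg t (n + 8) = y a
  h9 : dg t (n + 9) = y b
  h10 : dg t (n + 10) = y c
  h11 : dg t (n + 11) = y e

/-- admissible quadruples -/
structure Adm (A B a b c e : ℕ) : Prop where
  hab : a ≤ b
  hbc : b ≤ c
  hce : c ≤ e
  h1 : e + a ≤ b + c + 1
  h2 : b + c ≤ e + a + 1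
  hg : B * c + A * a < (A + B) * (b + 1)

/-- the facts behind the data of the closure check -/
structure CHyp (P : CP) (W I : ℕ) (w : ℕ → ℕ) (om : ℕ → ℕ → ℤ) (mu : ℕ → ℤ)
    (U : ℕ → ℕ → ℕ → ℕ → ℤ) (q : ℕ → ℕ → ℕ → ℤ) (qc : ℕ → ℕ → ℤ) (h K : ℕ)
    (gB : ℕ → ℕ → ℕ → ℕ → ℕ → ℕ) (xB : ℕ → ℕ → ℕ → ℕ → ℕ) (lB : ℕ → ℕ → ℕ) (cB : ℕ → ℕ)
    (uB : ℕ → ℕ → ℕ) (uX : ℕ → ℕ) (gS : ℕ → ℕ → ℕ → ℕ → ℕ → ℕ) (lS : ℕ → ℕ → ℕ) (cS : ℕ → ℕ)
    (C1 bq bu bl BL BC BX BU C2 bs bls BLs BCs BXs : ℕ) : Prop where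
  hh : 0 < h
  hn : 2 ≤ P.n
  hn16 : P.n < 65536
  hM : 2 ≤ P.M
  hB : 0 < P.B
  hAB : 2 * (P.A + P.B) < 65536
  hwt : ∀ r, r < P.M → w r = wd P.wt r
  hW : 0 < W
  hWL : P.WL = W * (I * P.n)
  hML : P.ML = 2 ^ P.WL
  hWS : P.WS = 16 * P.n
  hMS : P.MS = 2 ^ P.WS
  hHI : P.HI = pk W (fun _ => 2 ^ (W - 1)) (I * P.n)
  hG : ∀ ro, ro < 2 → ∀ s, s < 2 → ∀ κ, κ < P.n → nthL P.gT ((2 * ro + s) * P.n + κ) =
    pk P.WL (fun t => pk W (gB ro s κ t) (I * P.n)) P.M
  hgB : ∀ ro, ro < 2 → ∀ s, s < 2 → ∀ κ, κ < P.n → ∀ t, t < P.M → ∀ f, f < I * P.n →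
    (gB ro s κ t f : ℤ) = bq + sg ro * (sg s * q (f / P.n) ((κ + f) % P.n) t) +
      U (f / P.n) ro ((s + w t) % 2) ((κ + t + f) % P.n)
  hX : ∀ ro, ro < 2 → ∀ s, s < 2 → ∀ κ, κ < P.n → nthL P.xT ((2 * ro + s) * P.n + κ) =
    pk W (xB ro s κ) (I * P.n)
  hxB : ∀ ro, ro < 2 → ∀ s, s < 2 → ∀ κ, κ < P.n → ∀ t, t < P.M → ∀ f, f < I * P.n →
    gB ro s κ t f ≤ xB ro s κ f
  hU : ∀ d, d < 3 → nthL P.uT d = pk W (uB d) (I * P.n)
  huB : ∀ d, d < 3 → ∀ f, f < I * P.n → (uB d f : ℤ) = bu + mu (f / P.n) * ((d : ℤ) - 1)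
  hUM : P.uM = pk W uX (I * P.n)
  huX : ∀ d, d < 3 → ∀ f, f < I * P.n → uB d f ≤ uX f
  hL : P.LB = pk P.WL (fun k => pk W (lB k) (I * P.n)) P.n
  hlB : ∀ k, k < P.n → ∀ f, f < I * P.n → (lB k f : ℤ) = bl +
    ∑ j ∈ range (k + 1), q (f / P.n) ((P.M * j + f) % P.n) P.M
  hz : ∀ f, f < I * P.n → ∑ j ∈ range P.n, q (f / P.n) ((P.M * j + f) % P.n) P.M = 0
  hC : P.CB = pk W cB (I * P.n)
  hcB : ∀ f, f < I * P.n → cB f + h * ∑ k ∈ range P.n, lB k f = C1
  hbias : C1 + 4 * bq + bu = 2 ^ (W - 1)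
  bL : ∀ k, k < P.n → ∀ f, f < I * P.n → lB k f ≤ BL
  bC : ∀ f, f < I * P.n → cB f ≤ BC
  bX : ∀ ro, ro < 2 → ∀ s, s < 2 → ∀ κ, κ < P.n → ∀ f, f < I * P.n → xB ro s κ f ≤ BX
  bU : ∀ f, f < I * P.n → uX f ≤ BU
  hbd : P.nh * BL + BC + 4 * BX + BU < 2 ^ W
  hS : ∀ ro, ro < 2 → ∀ s, s < 2 → ∀ κ, κ < P.n → nthL P.sT ((2 * ro + s) * P.n + κ) =
    pk P.WS (fun t => pk 16 (gS ro s κ t) P.n) P.M
  hgS : ∀ ro, ro < 2 → ∀ s, s < 2 → ∀ κ, κ < P.n → ∀ t, t < P.M → ∀ k, k < P.n →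
    (gS ro s κ t k : ℤ) = bs + sg ro * (sg s * qc ((κ + (P.n - 1) * k) % P.n) t)
  hqc : ∀ κ, κ < P.n → ∀ t, t ≤ P.M → qc κ t = QS w (fun x => chd (x % P.n)) κ t
  hLS : P.LS = pk P.WS (fun k => pk 16 (lS k) P.n) P.n
  hlS : ∀ j, j < P.n → ∀ k, k < P.n → (lS j k : ℤ) = bls +
    ∑ i ∈ range (j + 1), qc ((P.M * i + (P.n - 1) * k) % P.n) P.M
  hzS : ∀ k, k < P.n → ∑ i ∈ range P.n, qc ((P.M * i + (P.n - 1) * k) % P.n) P.M = 0
  hCS : P.CS = pk 16 cS P.n
  hcS : ∀ k, k < P.n → cS k + h * ∑ j ∈ range P.n, lS j k = C2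
  hbiasS : C2 + 4 * bs = K
  hK1 : P.K1 + h = K
  hnh : P.nh = P.n * h
  bLs : ∀ j, j < P.n → ∀ k, k < P.n → lS j k ≤ BLs
  bCs : ∀ k, k < P.n → cS k ≤ BCs
  bXs : ∀ ro, ro < 2 → ∀ s, s < 2 → ∀ κ, κ < P.n → ∀ t, t < P.M → ∀ k, k < P.n →
    gS ro s κ t k ≤ BXs
  hbdS : P.nh * BLs + BCs + 4 * BXs < 2 ^ 16

/-! ### reading the checks -/

lemma bc_and {x y : Bool} (h : bc x y false = true) : x = true ∧ y = true := by
  cases x with
  | true => exact ⟨rfl, h⟩
  | false => exact absurd h (by simp)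

lemma bc_skip {x y : Bool} (h : bc x y true = true) (hx : x = true) : y = true := by
  rw [hx] at h
  exact h

lemma bc_pass {x y : Bool} (h : bc x true y = true) (hx : x = false) : y = true := by
  rw [hx] at h
  exact h

lemma cond_false' {x y : ℕ} {p : ℕ} (h : p = 1 → y < x + 1) :
    bc (Nat.beq p 1) (Nat.ble (Nat.succ x) y) false = false := by
  cases hb : Nat.beq p 1 with
  | false => rfl
  | true =>
    have h1 := h (Nat.eq_of_beq_eq_true hb)
    rw [bc_true]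
    cases hc : Nat.ble (Nat.succ x) y with
    | false => rfl
    | true =>
      have := Nat.le_of_ble_eq_true hc
      omega

lemma minN_eq (a b : ℕ) : minN a b = min a b := by
  unfold minN
  cases hb : Nat.ble a b with
  | true =>
    have := Nat.le_of_ble_eq_true hb
    show a = min a b
    omega
  | false =>
    have h2 : ¬ a ≤ b := by
      intro hc
      rw [Nat.ble_eq_true_of_le hc] at hb
      exact absurd hb (by simp)
    show b = min a b
    omega

lemma bn_beq (a b : ℕ) : bn (Nat.beq a b) = if a = b then 1 else 0 := by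
  cases hb : Nat.beq a b with
  | true => rw [if_pos (Nat.eq_of_beq_eq_true hb)]; rfl
  | false =>
    rw [if_neg]
    · rfl
    · intro hc
      rw [hc] at hb
      have := Nat.beq_refl b
      rw [this] at hb
      exact absurd hb (by simp)

/-! ### the parent of an admissible quadruple -/

lemma Adm.parent {A B M a b c e ia ib ic ie : ℕ} (ha : ia < M) (hb : ib < M)
    (hc : ic < M) (he : ie < M)
    (h : Adm A B (M * a + ia) (M * b + ib) (M * c + ic) (M * e + ie)) : Adm A B a b c e := by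
  have hle : ∀ x z ix iz, ix < M → iz < M → M * x + ix ≤ M * z + iz → x ≤ z := by
    intro x z ix iz hx hz hxz
    by_contra hcon
    push Not at hcon
    have : M * (z + 1) ≤ M * x := Nat.mul_le_mul le_rfl hcon
    rw [Nat.mul_succ] at this
    omega
  refine ⟨hle _ _ _ _ ha hb h.hab, hle _ _ _ _ hb hc h.hbc, hle _ _ _ _ hc he h.hce, ?_, ?_, ?_⟩
  · by_contra hcon
    push Not at hcon
    have : M * (b + c + 2) ≤ M * (e + a) := Nat.mul_le_mul le_rfl hcon
    have h1 := h.h1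
    rw [Nat.mul_add, Nat.mul_add, Nat.mul_add] at this
    omega
  · by_contra hcon
    push Not at hcon
    have : M * (e + a + 2) ≤ M * (b + c) := Nat.mul_le_mul le_rfl hcon
    have h1 := h.h2
    rw [Nat.mul_add, Nat.mul_add, Nat.mul_add] at this
    omega
  · have h1 := h.hg
    have h2 : (A + B) * ib + (A + B) ≤ (A + B) * M := by
      calc (A + B) * ib + (A + B) = (A + B) * (ib + 1) := by ring
        _ ≤ (A + B) * M := Nat.mul_le_mul le_rfl (by omega)
    have h3 : M * (B * c + A * a) < M * ((A + B) * (b + 1)) := by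
      calc M * (B * c + A * a) ≤ B * (M * c + ic) + A * (M * a + ia) := by
            have : B * (M * c + ic) + A * (M * a + ia) =
              M * (B * c + A * a) + (B * ic + A * ia) := by ring
            omega
        _ < (A + B) * (M * b + ib + 1) := h1
        _ = M * ((A + B) * b) + ((A + B) * ib + (A + B)) := by ring
        _ ≤ M * ((A + B) * b) + (A + B) * M := by omega
        _ = M * ((A + B) * (b + 1)) := by ring
    exact Nat.lt_of_mul_lt_mul_left h3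

/-- the gap of a child -/
lemma gch_eq {P : CP} {a b c ia ib ic : ℕ} (ha : ia < P.M) (hc : ic < P.M) :
    gch P ((P.B * c + P.A * a + (P.A + P.B)) - (P.A + P.B) * b) ia ib ic =
      (P.B * (P.M * c + ic) + P.A * (P.M * a + ia) + (P.A + P.B)) -
        (P.A + P.B) * (P.M * b + ib) := by
  show (P.M * ((P.B * c + P.A * a + (P.A + P.B)) - (P.A + P.B) * b) + P.B * ic +
    (P.A * ia + (P.A + P.B))) - (P.M * (P.A + P.B) + (P.A + P.B) * ib) = _
  have e1 : P.B * (P.M * c + ic) + P.A * (P.M * a + ia) + (P.A + P.B) =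
      P.M * (P.B * c + P.A * a) + (P.B * ic + P.A * ia) + (P.A + P.B) := by ring
  have e2 : (P.A + P.B) * (P.M * b + ib) = P.M * ((P.A + P.B) * b) + (P.A + P.B) * ib := by ring
  rw [e1, e2]
  rcases Nat.lt_or_ge ((P.A + P.B) * b) (P.B * c + P.A * a + (P.A + P.B)) with h | h
  · obtain ⟨g, hg⟩ : ∃ g, g = (P.B * c + P.A * a + (P.A + P.B)) - (P.A + P.B) * b := ⟨_, rfl⟩
    rw [← hg]
    have h1 : P.B * c + P.A * a + (P.A + P.B) = g + (P.A + P.B) * b := by omega
    have h2 : P.M * (P.B * c + P.A * a) + P.M * (P.A + P.B) =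
        P.M * g + P.M * ((P.A + P.B) * b) := by
      rw [← Nat.mul_add, h1, Nat.mul_add]
    omega
  · have h0 : (P.B * c + P.A * a + (P.A + P.B)) - (P.A + P.B) * b = 0 := by omega
    rw [h0, Nat.mul_zero]
    have h1 : P.M * (P.B * c + P.A * a) + P.M * (P.A + P.B) ≤ P.M * ((P.A + P.B) * b) := by
      rw [← Nat.mul_add]
      exact Nat.mul_le_mul le_rfl h
    have h2 : P.B * ic + P.A * ia + (P.A + P.B) ≤ P.M * (P.A + P.B) := by
      have h3 : P.B * ic + P.B ≤ P.B * P.M := by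
        rw [← Nat.mul_succ]
        exact Nat.mul_le_mul le_rfl hc
      have h4 : P.A * ia + P.A ≤ P.A * P.M := by
        rw [← Nat.mul_succ]
        exact Nat.mul_le_mul le_rfl ha
      have : P.M * (P.A + P.B) = P.A * P.M + P.B * P.M := by ring
      omega
    omega

/-- the third digit is below its bound -/
lemma lt_cntC {P : CP} (hB : 0 < P.B) {a b c ia ib ic : ℕ} (ha : ia < P.M) (hc : ic < P.M)
    (hg : P.B * (P.M * c + ic) + P.A * (P.M * a + ia) < (P.A + P.B) * (P.M * b + ib + 1)) :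
    ic < cntC P ((P.B * c + P.A * a + (P.A + P.B)) - (P.A + P.B) * b) ia ib := by
  obtain ⟨g, hgd⟩ : ∃ g, g = (P.B * c + P.A * a + (P.A + P.B)) - (P.A + P.B) * b := ⟨_, rfl⟩
  rw [← hgd]
  have key : P.M * g + P.A * ia + (P.A + P.B) + P.B * ic <
      (P.A + P.B) * (P.M + ib) + 2 * (P.A + P.B) := by
    rcases Nat.lt_or_ge ((P.A + P.B) * b) (P.B * c + P.A * a + (P.A + P.B)) with h | h
    · have h1 : P.B * c + P.A * a + (P.A + P.B) = g + (P.A + P.B) * b := by omega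
      have h2 : P.M * (P.B * c + P.A * a) + P.M * (P.A + P.B) =
          P.M * g + P.M * ((P.A + P.B) * b) := by
        rw [← Nat.mul_add, h1, Nat.mul_add]
      have e1 : P.B * (P.M * c + ic) + P.A * (P.M * a + ia) =
        P.M * (P.B * c + P.A * a) + P.B * ic + P.A * ia := by ring
      have e2 : (P.A + P.B) * (P.M * b + ib + 1) =
        P.M * ((P.A + P.B) * b) + (P.A + P.B) * ib + (P.A + P.B) := by ring
      have e3 : (P.A + P.B) * (P.M + ib) = P.M * (P.A + P.B) + (P.A + P.B) * ib := by ring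
      rw [e1, e2] at hg
      rw [e3]
      omega
    · have h0 : g = 0 := by omega
      rw [h0, Nat.mul_zero]
      have h3 : P.B * ic + P.B ≤ P.B * P.M := by
        rw [← Nat.mul_succ]
        exact Nat.mul_le_mul le_rfl hc
      have h4 : P.A * ia + P.A ≤ P.A * P.M := by
        rw [← Nat.mul_succ]
        exact Nat.mul_le_mul le_rfl ha
      have : (P.A + P.B) * (P.M + ib) = P.A * P.M + P.B * P.M + (P.A + P.B) * ib := by ring
      omega
  show ic < (((P.A + P.B) * (P.M + ib) + 2 * (P.A + P.B)) -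
    (P.M * g + P.A * ia + (P.A + P.B)) + (P.B - 1)) / P.B
  have h5 : ic + 1 ≤ (((P.A + P.B) * (P.M + ib) + 2 * (P.A + P.B)) -
    (P.M * g + P.A * ia + (P.A + P.B)) + (P.B - 1)) / P.B := by
    rw [Nat.le_div_iff_mul_le hB]
    have : (ic + 1) * P.B = P.B * ic + P.B := by ring
    omega
  omega

/-- equality of two positions from digits -/
lemma flag_eq {M a b ia ib : ℕ} (ha : ia < M) (hb : ib < M) :
    (if b = a then 1 else 0) * (if ia = ib then 1 else 0) =
      if M * b + ib = M * a + ia then 1 else 0 := by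
  by_cases h : M * b + ib = M * a + ia
  · have h1 : b = a := by
      rcases Nat.lt_or_ge b a with h' | h'
      · have : M * (b + 1) ≤ M * a := Nat.mul_le_mul le_rfl h'
        rw [Nat.mul_succ] at this
        omega
      · rcases Nat.lt_or_ge a b with h' | h'
        · have : M * (a + 1) ≤ M * b := Nat.mul_le_mul le_rfl h'
          rw [Nat.mul_succ] at this
          omega
        · omega
    have h2 : ia = ib := by
      rw [h1] at h
      omega
    rw [if_pos h1, if_pos h2, if_pos h]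
  · rw [if_neg h]
    by_cases h1 : b = a
    · have h2 : ¬ ia = ib := by
        intro h2
        apply h
        rw [h1, h2]
      rw [if_neg h2, Nat.mul_zero]
    · rw [if_neg h1, Nat.zero_mul]

end MPbbea99T
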