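import Pool.Agent.Lib.Pbbea99T.Clos

/-!
# MP_bbea99_co: soundness of the closure check, values
-/

namespace MPbbea99T

open Finset MPbbea99S

variable {P : CP} {W I : ℕ} {w : ℕ → ℕ} {om : ℕ → ℕ → ℤ} {mu : ℕ → ℤ}
    {U : ℕ → ℕ → ℕ → ℕ → ℤ} {q : ℕ → ℕ → ℕ → ℤ} {qc : ℕ → ℕ → ℤ} {h K : ℕ}
    {gB : ℕ → ℕ → ℕ → ℕ → ℕ → ℕ} {xB : ℕ → ℕ → ℕ → ℕ → ℕ} {lB : ℕ → ℕ → ℕ} {cB : ℕ → ℕ}
    {uB : ℕ → ℕ → ℕ} {uX : ℕ → ℕ} {gS : ℕ → ℕ → ℕ → ℕ → ℕ → ℕ} {lS : ℕ → ℕ → ℕ} {cS : ℕ → ℕ}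
    {C1 bq bu bl BL BC BX BU C2 bs bls BLs BCs BXs : ℕ}

/-- the digits of a template are fine -/
structure DOK (P : CP) (t : ℕ) : Prop where
  h1 : ∀ k, k < P.n → P.K1 ≤ dg t k
  h2 : ∑ k ∈ range P.n, eg P t k = P.nh

/-- the packed value of a field -/
noncomputable def pV (P : CP) (lB : ℕ → ℕ → ℕ) (cB : ℕ → ℕ) (t f : ℕ) : ℕ :=
  ∑ k ∈ range P.n, eg P t k * lB k f + cB f

lemma sum_le_of {P : CP} {t : ℕ} (hd : DOK P t) {l : ℕ → ℕ} {B : ℕ}
    (hl : ∀ k, k < P.n → l k ≤ B) : ∑ k ∈ range P.n, eg P t k * l k ≤ P.nh * B := by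
  rw [← hd.h2, Finset.sum_mul]
  apply Finset.sum_le_sum
  intro k hk
  exact Nat.mul_le_mul le_rfl (hl k (Finset.mem_range.1 hk))

lemma sum_packed {P : CP} {t F L WX MX T : ℕ} {l : ℕ → ℕ → ℕ} {c : ℕ → ℕ}
    (hMX : MX = 2 ^ WX) (hWX : WX = F * L) (hT : T = pk WX (fun k => pk F (l k) L) P.n)
    (hl : ∀ k, k < P.n → ∀ f, f < L → l k f < 2 ^ F) :
    sumN (fun k => Nat.mul (eg P t k) (fd WX MX T k)) P.n + pk F c L =
      pk F (fun f => ∑ k ∈ range P.n, eg P t k * l k f + c f) L := by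
  rw [pk_add, sumN_eq, pk_sum]
  congr 1
  apply Finset.sum_congr rfl
  intro k hk
  show eg P t k * fd WX MX T k = _
  rw [pk_smul, hMX, hT, fd_pk _ (Finset.mem_range.1 hk)]
  intro i hi
  rw [hWX]
  exact pk_lt (hl i hi)

section

variable (H : CHyp P W I w om mu U q qc h K gB xB lB cB uB uX gS lS cS C1 bq bu bl BL BC BX BU
  C2 bs bls BLs BCs BXs)
include H

lemma CHyp.nh_pos : 0 < P.nh := by
  rw [H.hnh]
  exact Nat.mul_pos (by have := H.hn; omega) H.hh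

lemma CHyp.BL_lt : BL < 2 ^ W := by
  have h1 := H.hbd
  have h2 : BL ≤ P.nh * BL := Nat.le_mul_of_pos_left _ H.nh_pos
  omega

lemma CHyp.BLs_lt : BLs < 2 ^ 16 := by
  have h1 := H.hbdS
  have h2 : BLs ≤ P.nh * BLs := Nat.le_mul_of_pos_left _ H.nh_pos
  omega

lemma CHyp.big_eq (t : ℕ) : big P t = pk W (pV P lB cB t) (I * P.n) := by
  unfold big
  rw [H.hC]
  exact sum_packed H.hML H.hWL H.hL (fun k hk f hf => (H.bL k hk f hf).trans_lt H.BL_lt)

lemma CHyp.small_eq (t : ℕ) : small P t = pk 16 (pV P lS cS t) P.n := by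
  unfold small
  rw [H.hCS]
  exact sum_packed H.hMS H.hWS H.hLS (fun k hk f hf => (H.bLs k hk f hf).trans_lt H.BLs_lt)

lemma CHyp.eg_val {y : ℕ → ℕ} {t a b c e : ℕ} (hm : Match P.n P.A P.B K y t a b c e)
    (hd : DOK P t) {k : ℕ} (hk : k < P.n) : (eg P t k : ℤ) = EV P.n y k a b c e + h := by
  have h1 := hm.hE k hk
  have h2 := hd.h1 k hk
  have h3 := H.hK1
  have h4 : eg P t k = dg t k - P.K1 := rfl
  rw [h4, Nat.cast_sub h2, h1, ← h3]
  push_cast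
  ring

lemma CHyp.sum_EV {y : ℕ → ℕ} {t a b c e : ℕ} (hm : Match P.n P.A P.B K y t a b c e)
    (hd : DOK P t) : ∑ k ∈ range P.n, EV P.n y k a b c e = 0 := by
  have h1 := hd.h2
  have h2 : ((∑ k ∈ range P.n, eg P t k : ℕ) : ℤ) =
      ∑ k ∈ range P.n, (EV P.n y k a b c e + h) := by
    push_cast
    exact Finset.sum_congr rfl (fun k hk => H.eg_val hm hd (Finset.mem_range.1 hk))
  rw [h1, Finset.sum_add_distrib, H.hnh] at h2
  simp only [Finset.sum_const, Finset.card_range, nsmul_eq_mul] at h2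
  push_cast at h2
  linarith

/-- evaluation of packed values -/
lemma CHyp.pV_val {y : ℕ → ℕ} {t a b c e : ℕ} (hm : Match P.n P.A P.B K y t a b c e)
    (hd : DOK P t) {l : ℕ → ℕ → ℕ} {cc : ℕ → ℕ} {Cc bb : ℕ} {ps : ℕ → ℤ} {f : ℕ}
    (hl : ∀ k, k < P.n → (l k f : ℤ) = bb + ps k)
    (hc : cc f + h * ∑ k ∈ range P.n, l k f = Cc) :
    (pV P l cc t f : ℤ) = Cc + ∑ k ∈ range P.n, EV P.n y k a b c e * ps k := by
  unfold pV
  have h1 : ((∑ k ∈ range P.n, eg P t k * l k f : ℕ) : ℤ) = ∑ k ∈ range P.n,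
      ((EV P.n y k a b c e + h) * (bb + ps k)) := by
    push_cast
    apply Finset.sum_congr rfl
    intro k hk
    rw [H.eg_val hm hd (Finset.mem_range.1 hk), hl k (Finset.mem_range.1 hk)]
  have h2 : (cc f : ℤ) = Cc - h * ∑ k ∈ range P.n, ((bb : ℤ) + ps k) := by
    rw [← hc]
    push_cast
    rw [Finset.sum_congr rfl (fun k hk => hl k (Finset.mem_range.1 hk))]
    ring
  have h3 := H.sum_EV hm hd
  rw [Nat.cast_add, h1, h2]
  have h4 : ∑ k ∈ range P.n, ((EV P.n y k a b c e + h) * ((bb : ℤ) + ps k)) =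
      ∑ k ∈ range P.n, EV P.n y k a b c e * ps k +
      bb * ∑ k ∈ range P.n, EV P.n y k a b c e + h * ∑ k ∈ range P.n, ((bb : ℤ) + ps k) := by
    rw [Finset.mul_sum, Finset.mul_sum, ← Finset.sum_add_distrib, ← Finset.sum_add_distrib]
    apply Finset.sum_congr rfl
    intro k _
    ring
  rw [h4, h3]
  ring

end

/-! ### residues -/

lemma res_mul {n M x a f : ℕ} :
    (M * x + ((n - 1) * (M * a) + f)) % n = ((M * ((x + (n - 1) * a) % n)) % n + f) % n := by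
  have e : M * x + ((n - 1) * (M * a) + f) = M * (x + (n - 1) * a) + f := by ring
  rw [e, Nat.mod_add_mod]
  exact (Nat.ModEq.add_right f (Nat.ModEq.mul_left M (Nat.mod_modEq _ n))).symm

lemma res_a {n M a f : ℕ} (hn : 0 < n) :
    (M * a + ((n - 1) * (M * a) + f)) % n = (0 + f) % n := by
  obtain ⟨m, rfl⟩ : ∃ m, n = m + 1 := ⟨n - 1, by omega⟩
  simp only [Nat.add_sub_cancel, Nat.zero_add]
  have e : M * a + (m * (M * a) + f) = f + (m + 1) * (M * a) := by ring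
  rw [e, Nat.add_mul_mod_self_left]

lemma res_x {n M x a f i : ℕ} : (M * x + i + ((n - 1) * (M * a) + f)) % n =
    ((M * ((x + (n - 1) * a) % n)) % n + i + f) % n := by
  have e1 : M * x + i + ((n - 1) * (M * a) + f) = M * x + ((n - 1) * (M * a) + (i + f)) := by
    ring
  rw [e1, res_mul, Nat.add_assoc]

lemma res_a' {n M a f i : ℕ} (hn : 0 < n) :
    (M * a + i + ((n - 1) * (M * a) + f)) % n = (0 + i + f) % n := by
  have e1 : M * a + i + ((n - 1) * (M * a) + f) = M * a + ((n - 1) * (M * a) + (i + f)) := by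
    ring
  rw [e1, res_a hn, Nat.add_assoc]

/-- values of periodic functionals at the child -/
lemma child_val {n M : ℕ} {w y : ℕ → ℕ} (hn : 2 ≤ n) (hs : IsSeq 2 M w y)
    (hw : ∀ r, r < M → w r < 2) {θ : ℕ → ℤ} {qq : ℕ → ℕ → ℤ}
    (hq : ∀ κ, κ < n → ∀ t, t ≤ M → qq κ t = QS w (fun x => θ (x % n)) κ t) {f : ℕ}
    (hz : ∑ j ∈ range n, qq ((M * j + f) % n) M = 0)
    {a b c e ia ib ic ie : ℕ} (ha : ia < M) (hb : ib < M) (hc : ic < M) (he : ie < M) :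
    VV (FS y (fun x => θ ((x + ((n - 1) * (M * a) + f)) % n))) (M * a + ia) (M * b + ib)
      (M * c + ic) (M * e + ie) = ∑ k ∈ range n, EV n y k a b c e *
        ∑ j ∈ range (k + 1), qq ((M * j + f) % n) M +
      (sg (y b) * qq (((M * ((b + (n - 1) * a) % n)) % n + f) % n) ib -
        sg (y a) * qq ((0 + f) % n) ia -
        sg (y e) * qq (((M * ((e + (n - 1) * a) % n)) % n + f) % n) ie +
        sg (y c) * qq (((M * ((c + (n - 1) * a) % n)) % n + f) % n) ic) := by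
  have hn0 : 0 < n := by omega
  have hqs : ∀ κ t, t ≤ M → QS w (fun x => θ ((x + ((n - 1) * (M * a) + f)) % n)) κ t =
      qq ((κ + ((n - 1) * (M * a) + f)) % n) t := by
    intro κ t ht
    rw [hq _ (Nat.mod_lt _ hn0) t ht]
    apply QS_congr
    intro u _
    show θ ((κ + u + ((n - 1) * (M * a) + f)) % n) =
      θ (((κ + ((n - 1) * (M * a) + f)) % n + u) % n)
    rw [Nat.mod_add_mod]
    congr 2
    ring
  rw [VV_block hs hw _ ha.le hb.le hc.le he.le, hqs _ _ ha.le, hqs _ _ hb.le, hqs _ _ hc.le,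
    hqs _ _ he.le, res_mul (x := b), res_mul (x := c), res_mul (x := e), res_a hn0]
  congr 1
  have e0 : ∀ x, QS w (fun x => θ ((x + ((n - 1) * (M * a) + f)) % n)) (M * x) M =
      (fun j => qq ((M * j + f) % n) M) (x + (n - 1) * a) := by
    intro x
    rw [hqs _ _ le_rfl]
    show _ = qq ((M * (x + (n - 1) * a) + f) % n) M
    congr 2
    ring
  rw [VV_congr e0]
  apply expand hn _ hz
  intro x
  show qq ((M * (x + n) + f) % n) M = qq ((M * x + f) % n) M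
  have : M * (x + n) + f = M * x + f + n * M := by ring
  rw [this, Nat.add_mul_mod_self_left]

end MPbbea99T
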