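import Pool.Agent.Lib.Pbbea99T.Clos3

/-!
# MP_bbea99_co: soundness of the closure check
-/

namespace MPbbea99T

open Finset MPbbea99S

variable {P : CP} {W I : ℕ} {w : ℕ → ℕ} {om : ℕ → ℕ → ℤ} {mu : ℕ → ℤ}
    {U : ℕ → ℕ → ℕ → ℕ → ℤ} {q : ℕ → ℕ → ℕ → ℤ} {qc : ℕ → ℕ → ℤ} {h K : ℕ}
    {gB : ℕ → ℕ → ℕ → ℕ → ℕ → ℕ} {xB : ℕ → ℕ → ℕ → ℕ → ℕ} {lB : ℕ → ℕ → ℕ} {cB : ℕ → ℕ}
    {uB : ℕ → ℕ → ℕ} {uX : ℕ → ℕ} {gS : ℕ → ℕ → ℕ → ℕ → ℕ → ℕ} {lS : ℕ → ℕ → ℕ} {cS : ℕ → ℕ}
    {C1 bq bu bl BL BC BX BU C2 bs bls BLs BCs BXs : ℕ}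

/-- living children of checked templates are described by templates -/
theorem CHyp.step (H : CHyp P W I w om mu U q qc h K gB xB lB cB uB uX gS lS cS C1 bq bu bl
    BL BC BX BU C2 bs bls BLs BCs BXs) {y : ℕ → ℕ} (hs : IsSeq 2 P.M w y)
    (hq : ∀ i, i < I → ∀ κ, κ < P.n → ∀ t, t ≤ P.M →
      q i κ t = QS w (fun x => om i (x % P.n)) κ t)
    {t a b c e ia ib ic ie : ℕ} (ha : ia < P.M) (hb : ib < P.M) (hc : ic < P.M)
    (he : ie < P.M) (hchk : chkT P t = true) (hm : Match P.n P.A P.B K y t a b c e)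
    (hadm : Adm P.A P.B (P.M * a + ia) (P.M * b + ib) (P.M * c + ic) (P.M * e + ie))
    (hal : Alive P.n y I om mu U (P.M * a + ia) (P.M * b + ib) (P.M * c + ic) (P.M * e + ie)) :
    ∃ t' ∈ P.T, Match P.n P.A P.B K y t' (P.M * a + ia) (P.M * b + ib) (P.M * c + ic)
      (P.M * e + ie) := by
  have hn := H.hn
  have hn0 : 0 < P.n := by omega
  obtain ⟨hk1, hchk⟩ := bc_and hchk
  obtain ⟨hk2, hlv⟩ := bc_and hchk
  have hd : DOK P t := by
    constructor
    · intro k hk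
      exact Nat.le_of_ble_eq_true (allN_spec hk1 k hk)
    · have h2 := Nat.eq_of_beq_eq_true hk2
      rw [sumN_eq] at h2
      exact h2
  -- the digit of the length difference
  obtain ⟨d, hdd⟩ : ∃ d, d + ((P.M * e + ie) + (P.M * a + ia)) =
      (P.M * b + ib) + (P.M * c + ic) + 1 := by
    have g1 := hadm.h1
    exact ⟨(P.M * b + ib) + (P.M * c + ic) + 1 - ((P.M * e + ie) + (P.M * a + ia)), by omega⟩
  have hd3 : d < 3 := by
    have g2 := hadm.h2
    omega
  -- the digits of the parent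
  obtain ⟨kb, hkb⟩ : ∃ kb, kb = (b + (P.n - 1) * a) % P.n := ⟨_, rfl⟩
  obtain ⟨kc, hkc⟩ : ∃ kc, kc = (c + (P.n - 1) * a) % P.n := ⟨_, rfl⟩
  obtain ⟨ke, hke⟩ : ∃ ke, ke = (e + (P.n - 1) * a) % P.n := ⟨_, rfl⟩
  obtain ⟨dl, hdl⟩ : ∃ dl, dl = dg t (P.n + 3) := ⟨_, rfl⟩
  obtain ⟨gt, hgt⟩ : ∃ gt, gt = (P.B * c + P.A * a + (P.A + P.B)) - (P.A + P.B) * b := ⟨_, rfl⟩
  obtain ⟨zl, hzl⟩ : ∃ zl, zl = if b = a then 1 else 0 := ⟨_, rfl⟩
  obtain ⟨zv, hzv⟩ : ∃ zv, zv = if c = b then 1 else 0 := ⟨_, rfl⟩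
  obtain ⟨ze, hze⟩ : ∃ ze, ze = if e = c then 1 else 0 := ⟨_, rfl⟩
  have e0 : dg t P.n = kb := hm.hb.trans hkb.symm
  have e1 : dg t (Nat.add P.n 1) = kc := hm.hc.trans hkc.symm
  have e2 : dg t (Nat.add P.n 2) = ke := hm.he.trans hke.symm
  have e3 : dg t (Nat.add P.n 3) = dl := hdl.symm
  have e4 : dg t (Nat.add P.n 4) = gt := hm.hg.trans hgt.symm
  have e5 : dg t (Nat.add P.n 5) = zl := hm.h5.trans hzl.symm
  have e6 : dg t (Nat.add P.n 6) = zv := hm.h6.trans hzv.symm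
  have e7 : dg t (Nat.add P.n 7) = ze := hm.h7.trans hze.symm
  have e8 : dg t (Nat.add P.n 8) = y a := hm.h8
  have e9 : dg t (Nat.add P.n 9) = y b := hm.h9
  have e10 : dg t (Nat.add P.n 10) = y c := hm.h10
  have e11 : dg t (Nat.add P.n 11) = y e := hm.h11
  rw [e0, e1, e2, e3, e4, e5, e6, e7, e8, e9, e10, e11] at hlv
  have hdl' : dl + (e + a) = b + c + 1 := by rw [hdl]; exact hm.hd
  -- the residues
  obtain ⟨κb, hκb⟩ : ∃ κb, κb = (P.M * kb) % P.n := ⟨_, rfl⟩
  obtain ⟨κc, hκc⟩ : ∃ κc, κc = (P.M * kc) % P.n := ⟨_, rfl⟩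
  obtain ⟨κe, hκe⟩ : ∃ κe, κe = (P.M * ke) % P.n := ⟨_, rfl⟩
  have f1 : Nat.mod (Nat.mul P.M kb) P.n = κb := hκb.symm
  have f2 : Nat.mod (Nat.mul P.M kc) P.n = κc := hκc.symm
  have f3 : Nat.mod (Nat.mul P.M ke) P.n = κe := hκe.symm
  rw [f1, f2, f3] at hlv
  have lb : κb < P.n := by rw [hκb]; exact Nat.mod_lt _ hn0
  have lc : κc < P.n := by rw [hκc]; exact Nat.mod_lt _ hn0
  have le : κe < P.n := by rw [hκe]; exact Nat.mod_lt _ hn0
  have ya := hs.lt a
  have yb := hs.lt b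
  have yc := hs.lt c
  have ye := hs.lt e
  -- the total values
  have htot : ∀ f, f < I * P.n → 2 ^ (W - 1) ≤ pV P lB cB t f + gB 1 (y a) 0 ia f +
      gB 0 (y b) κb ib f + gB 0 (y c) κc ic f + gB 1 (y e) κe ie f + uB d f := by
    intro f hf
    have g := H.total hs hq ha hb hc he hm hd hd3 hdd hal hf
    rw [← hkb, ← hkc, ← hke, ← hκb, ← hκc, ← hκe] at g
    exact g
  have hbd := H.hbd
  -- tables
  have tA := H.tabG (ro := 1) (by norm_num) ya hn0 ha
  have tB := H.tabG (ro := 0) (by norm_num) yb lb hb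
  have tC := H.tabG (ro := 0) (by norm_num) yc lc hc
  have tE := H.tabG (ro := 1) (by norm_num) ye le he
  have xBt := H.tabX (ro := 0) (by norm_num) yb lb
  have xCt := H.tabX (ro := 0) (by norm_num) yc lc
  have xEt := H.tabX (ro := 1) (by norm_num) ye le
  have bA := fun f hf => H.hxB 1 (by norm_num) (y a) ya 0 hn0 ia ha f hf
  have bB := fun f hf => H.hxB 0 (by norm_num) (y b) yb κb lb ib hb f hf
  have bC := fun f hf => H.hxB 0 (by norm_num) (y c) yc κc lc ic hc f hf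
  have bE := fun f hf => H.hxB 1 (by norm_num) (y e) ye κe le ie he f hf
  have cA := fun f hf => H.bX 1 (by norm_num) (y a) ya 0 hn0 f hf
  have cB' := fun f hf => H.bX 0 (by norm_num) (y b) yb κb lb f hf
  have cC := fun f hf => H.bX 0 (by norm_num) (y c) yc κc lc f hf
  have cE := fun f hf => H.bX 1 (by norm_num) (y e) ye κe le f hf
  have bU := fun f hf => H.huX d hd3 f hf
  have cU := fun f hf => H.bU f hf
  have pP := fun f (hf : f < I * P.n) => H.pV_le hd hf
  -- first digit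
  unfold lv0 at hlv
  have l1 := allN_spec hlv ia ha
  unfold lvA at l1
  have t1 : hib (Nat.add (Nat.add (big P t) (fd P.WL P.ML (nthL P.gT (ix P 1 (y a) 0)) ia))
      (Nat.add (Nat.add (Nat.add (nthL P.xT (ix P 0 (y b) κb)) (nthL P.xT (ix P 0 (y c) κc)))
        (nthL P.xT (ix P 1 (y e) κe))) P.uM)) P.HI = true := by
    rw [H.big_eq, tA, xBt, xCt, xEt, H.hUM, H.hHI]
    show hib (pk W (pV P lB cB t) (I * P.n) + pk W (gB 1 (y a) 0 ia) (I * P.n) +
      (pk W (xB 0 (y b) κb) (I * P.n) + pk W (xB 0 (y c) κc) (I * P.n) +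
      pk W (xB 1 (y e) κe) (I * P.n) + pk W uX (I * P.n))) _ = true
    rw [← pk_add, ← pk_add, ← pk_add, ← pk_add, ← pk_add]
    apply hib_pk H.hW
    · intro f hf
      have g0 := htot f hf
      have g2 := bB f hf
      have g3 := bC f hf
      have g4 := bE f hf
      have g5 := bU f hf
      omega
    · intro f hf
      have g0 := pP f hf
      have g1 := bA f hf
      have g1' := cA f hf
      have g2 := cB' f hf
      have g3 := cC f hf
      have g4 := cE f hf
      have g5 := cU f hf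
      omega
  have l2 := allN_spec (bc_skip l1 t1) ib hb
  unfold lvB at l2
  -- second digit
  have s2 : bc (Nat.beq zl 1) (Nat.ble (Nat.succ ib) ia) false = false := by
    apply cond_false'
    intro hz1
    have hab : b = a := by
      by_contra hne
      rw [if_neg hne] at hzl
      omega
    have := hadm.hab
    rw [hab] at this
    omega
  have l3 := bc_pass l2 s2
  have t2 : hib (Nat.add (Nat.add (Nat.add (big P t)
      (fd P.WL P.ML (nthL P.gT (ix P 1 (y a) 0)) ia))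
      (fd P.WL P.ML (nthL P.gT (ix P 0 (y b) κb)) ib))
      (Nat.add (Nat.add (nthL P.xT (ix P 0 (y c) κc)) (nthL P.xT (ix P 1 (y e) κe))) P.uM))
      P.HI = true := by
    rw [H.big_eq, tA, tB, xCt, xEt, H.hUM, H.hHI]
    show hib (pk W (pV P lB cB t) (I * P.n) + pk W (gB 1 (y a) 0 ia) (I * P.n) +
      pk W (gB 0 (y b) κb ib) (I * P.n) + (pk W (xB 0 (y c) κc) (I * P.n) +
      pk W (xB 1 (y e) κe) (I * P.n) + pk W uX (I * P.n))) _ = true
    rw [← pk_add, ← pk_add, ← pk_add, ← pk_add, ← pk_add]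
    apply hib_pk H.hW
    · intro f hf
      have g0 := htot f hf
      have g3 := bC f hf
      have g4 := bE f hf
      have g5 := bU f hf
      omega
    · intro f hf
      have g0 := pP f hf
      have g1 := bA f hf
      have g1' := cA f hf
      have g2 := bB f hf
      have g2' := cB' f hf
      have g3 := cC f hf
      have g4 := cE f hf
      have g5 := cU f hf
      omega
  have hcnt : ic < minN P.M (cntC P gt ia ib) := by
    rw [minN_eq, hgt]
    exact Nat.lt_min.2 ⟨hc, lt_cntC H.hB ha hc hadm.hg⟩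
  have l4 := allN_spec (bc_skip l3 t2) ic hcnt
  unfold lvC at l4
  -- third digit
  have s3 : bc (Nat.beq zv 1) (Nat.ble (Nat.succ ic) ib) false = false := by
    apply cond_false'
    intro hz1
    have hcb : c = b := by
      by_contra hne
      rw [if_neg hne] at hzv
      omega
    have := hadm.hbc
    rw [hcb] at this
    omega
  have l5 := bc_pass l4 s3
  have t3 : hib (Nat.add (Nat.add (Nat.add (Nat.add (big P t)
      (fd P.WL P.ML (nthL P.gT (ix P 1 (y a) 0)) ia))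
      (fd P.WL P.ML (nthL P.gT (ix P 0 (y b) κb)) ib))
      (fd P.WL P.ML (nthL P.gT (ix P 0 (y c) κc)) ic))
      (Nat.add (nthL P.xT (ix P 1 (y e) κe)) P.uM)) P.HI = true := by
    rw [H.big_eq, tA, tB, tC, xEt, H.hUM, H.hHI]
    show hib (pk W (pV P lB cB t) (I * P.n) + pk W (gB 1 (y a) 0 ia) (I * P.n) +
      pk W (gB 0 (y b) κb ib) (I * P.n) + pk W (gB 0 (y c) κc ic) (I * P.n) +
      (pk W (xB 1 (y e) κe) (I * P.n) + pk W uX (I * P.n))) _ = true
    rw [← pk_add, ← pk_add, ← pk_add, ← pk_add, ← pk_add]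
    apply hib_pk H.hW
    · intro f hf
      have g0 := htot f hf
      have g4 := bE f hf
      have g5 := bU f hf
      omega
    · intro f hf
      have g0 := pP f hf
      have g1 := bA f hf
      have g1' := cA f hf
      have g2 := bB f hf
      have g2' := cB' f hf
      have g3 := bC f hf
      have g3' := cC f hf
      have g4 := cE f hf
      have g5 := cU f hf
      omega
  have l6 := allN_spec (bc_skip l5 t3) d hd3
  -- the fourth digit
  have hexp : ie + ((ia + P.M) + d) = P.M * dl + ((ib + ic) + 1) := by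
    have g1 : d + ((P.M * e + ie) + (P.M * a + ia)) = (P.M * b + ib) + (P.M * c + ic) + 1 := hdd
    have g2 : P.M * dl + P.M * (e + a) = P.M * (b + c) + P.M := by
      rw [← Nat.mul_add, hdl']
      ring
    rw [Nat.mul_add, Nat.mul_add] at g2
    omega
  have hie : Nat.sub (Nat.add (Nat.mul P.M dl) (Nat.add (Nat.add ib ic) 1))
      (Nat.add (Nat.add ia P.M) d) = ie := by
    show (P.M * dl + ((ib + ic) + 1)) - ((ia + P.M) + d) = ie
    omega
  rw [hie] at l6
  have l7 := bc_skip l6 (Nat.ble_eq_true_of_le (by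
    show (ia + P.M) + d ≤ P.M * dl + ((ib + ic) + 1)
    omega))
  unfold lvE at l7
  have l8 := bc_skip l7 (Nat.ble_eq_true_of_le he)
  have s4 : bc (Nat.beq ze 1) (Nat.ble (Nat.succ ie) ic) false = false := by
    apply cond_false'
    intro hz1
    have hec : e = c := by
      by_contra hne
      rw [if_neg hne] at hze
      omega
    have := hadm.hce
    rw [hec] at this
    omega
  have l9 := bc_pass l8 s4
  have t4 : hib (Nat.add (Nat.add (Nat.add (Nat.add (Nat.add (big P t)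
      (fd P.WL P.ML (nthL P.gT (ix P 1 (y a) 0)) ia))
      (fd P.WL P.ML (nthL P.gT (ix P 0 (y b) κb)) ib))
      (fd P.WL P.ML (nthL P.gT (ix P 0 (y c) κc)) ic)) (nthL P.uT d))
      (fd P.WL P.ML (nthL P.gT (ix P 1 (y e) κe)) ie)) P.HI = true := by
    rw [H.big_eq, tA, tB, tC, tE, H.hU d hd3, H.hHI]
    show hib (pk W (pV P lB cB t) (I * P.n) + pk W (gB 1 (y a) 0 ia) (I * P.n) +
      pk W (gB 0 (y b) κb ib) (I * P.n) + pk W (gB 0 (y c) κc ic) (I * P.n) +
      pk W (uB d) (I * P.n) + pk W (gB 1 (y e) κe ie) (I * P.n)) _ = true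
    rw [← pk_add, ← pk_add, ← pk_add, ← pk_add, ← pk_add]
    apply hib_pk H.hW
    · intro f hf
      have g0 := htot f hf
      omega
    · intro f hf
      have g0 := pP f hf
      have g1 := bA f hf
      have g1' := cA f hf
      have g2 := bB f hf
      have g2' := cB' f hf
      have g3 := bC f hf
      have g3' := cC f hf
      have g4 := bE f hf
      have g4' := cE f hf
      have g5 := bU f hf
      have g5' := cU f hf
      omega
  have l10 := memL_spec (bc_skip l9 t4)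
  refine ⟨_, l10, ?_⟩
  -- the code
  have sA := H.tabS (ro := 1) (by norm_num) ya hn0 ha
  have sB := H.tabS (ro := 0) (by norm_num) yb lb hb
  have sC := H.tabS (ro := 0) (by norm_num) yc lc hc
  have sE := H.tabS (ro := 1) (by norm_num) ye le he
  obtain ⟨c0, hc0⟩ : ∃ c0 : ℕ → ℕ, c0 = fun k => pV P lS cS t k + gS 1 (y a) 0 ia k +
    gS 0 (y b) κb ib k + gS 0 (y c) κc ic k + gS 1 (y e) κe ie k := ⟨_, rfl⟩
  have hc0lt : ∀ k, k < P.n → c0 k < 2 ^ 16 := by
    intro k hk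
    have g0 := H.pVs_le hd hk
    have g1 := H.bXs 1 (by norm_num) (y a) ya 0 hn0 ia ha k hk
    have g2 := H.bXs 0 (by norm_num) (y b) yb κb lb ib hb k hk
    have g3 := H.bXs 0 (by norm_num) (y c) yc κc lc ic hc k hk
    have g4 := H.bXs 1 (by norm_num) (y e) ye κe le ie he k hk
    have g5 := H.hbdS
    rw [hc0]
    dsimp only
    omega
  have hpk : Nat.add (Nat.add (Nat.add (Nat.add (small P t)
      (fd P.WS P.MS (nthL P.sT (ix P 1 (y a) 0)) ia))
      (fd P.WS P.MS (nthL P.sT (ix P 0 (y b) κb)) ib))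
      (fd P.WS P.MS (nthL P.sT (ix P 0 (y c) κc)) ic))
      (fd P.WS P.MS (nthL P.sT (ix P 1 (y e) κe)) ie) = pk 16 c0 P.n := by
    rw [H.small_eq, sA, sB, sC, sE, hc0]
    show pk 16 (pV P lS cS t) P.n + pk 16 (gS 1 (y a) 0 ia) P.n +
      pk 16 (gS 0 (y b) κb ib) P.n + pk 16 (gS 0 (y c) κc ic) P.n +
      pk 16 (gS 1 (y e) κe ie) P.n = _
    rw [← pk_add, ← pk_add, ← pk_add, ← pk_add]
  have hr : ia % P.n < P.n := Nat.mod_lt _ hn0
  have hrot := rot_pk hc0lt hr
  unfold codeC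
  rw [hpk]
  have hrot' : rot 16 P.n (pk 16 c0 P.n) (Nat.mod ia P.n) =
    pk 16 (fun k => c0 ((k + ia % P.n) % P.n)) P.n := hrot
  rw [hrot']
  have hkch : ∀ x ix k, k = (x + (P.n - 1) * a) % P.n → kch P k ix ia =
      ((P.M * x + ix) + (P.n - 1) * (P.M * a + ia)) % P.n := by
    intro x ix k hk
    show (P.M * k + ix + (P.n - 1) * ia) % P.n = _
    rw [hk]
    have e1 : (P.M * x + ix) + (P.n - 1) * (P.M * a + ia) =
      P.M * (x + (P.n - 1) * a) + (ix + (P.n - 1) * ia) := by ring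
    have e2 : P.M * ((x + (P.n - 1) * a) % P.n) + ix + (P.n - 1) * ia =
      P.M * ((x + (P.n - 1) * a) % P.n) + (ix + (P.n - 1) * ia) := by ring
    rw [e1, e2]
    exact Nat.ModEq.add_right _ (Nat.ModEq.mul_left _ (Nat.mod_modEq _ _))
  apply match_of hn0 H.hn16 H.hAB hadm hs.lt
  · intro k _
    have := hc0lt ((k + ia % P.n) % P.n) (Nat.mod_lt _ hn0)
    simpa using this
  · intro k hk
    rw [hc0]
    dsimp only
    have g := H.totalS hs ha hb hc he hm hd (k := (k + ia % P.n) % P.n) (Nat.mod_lt _ hn0)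
    rw [← hkb, ← hkc, ← hke, ← hκb, ← hκc, ← hκe] at g
    rw [g]
    congr 1
    unfold EV
    apply VV_congr
    intro x
    congr 1
    have e1 : x + (P.n - 1) * (P.M * a + ia + k) =
      (x + (P.n - 1) * (P.M * a)) + (P.n - 1) * (k + ia) := by ring
    have e2 : x + ((P.n - 1) * (P.M * a) + (P.n - 1) * ((k + ia % P.n) % P.n)) =
      (x + (P.n - 1) * (P.M * a)) + (P.n - 1) * ((k + ia % P.n) % P.n) := by ring
    rw [e1, e2, Nat.add_mod_mod]
    exact Nat.ModEq.add_left _ (Nat.ModEq.mul_left _ (Nat.mod_modEq _ _))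
  · exact hkch b ib kb hkb
  · exact hkch c ic kc hkc
  · exact hkch e ie ke hke
  · exact hdd
  · rw [hgt]
    exact gch_eq ha hc
  · rw [bn_beq, hzl]
    exact flag_eq ha hb
  · rw [bn_beq, hzv]
    exact flag_eq hb hc
  · rw [bn_beq, hze]
    exact flag_eq hc he
  · exact H.sgn_child hs ha
  · exact H.sgn_child hs hb
  · exact H.sgn_child hs hc
  · exact H.sgn_child hs he

end MPbbea99T
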