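import Pool.Agent.Lib.Pbbea99T.Main

/-!
# MP_bbea99_co: instances from tables
-/

namespace MPbbea99T

open Finset MPbbea99S

/-- packing with a recursor -/
noncomputable def pkR (F : ℕ) (f : ℕ → ℕ) (L : ℕ) : ℕ :=
  Nat.rec (motive := fun _ => ℕ) 0
    (fun L ih => Nat.add ih (Nat.shiftLeft (f L) (Nat.mul F L))) L

lemma pkR_eq (F : ℕ) (f : ℕ → ℕ) (L : ℕ) : pkR F f L = pk F f L := by
  induction L with
  | zero => rfl
  | succ L ih =>
    have e : pkR F f (L + 1) = pkR F f L + (f L) <<< (F * L) := rfl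
    rw [e, ih]
    rfl

/-- first value for `0`, second value otherwise -/
noncomputable def chz (s a b : ℕ) : ℕ := Nat.rec (motive := fun _ => ℕ) a (fun _ _ => b) s

lemma maxN_le {f : ℕ → ℕ} {k B : ℕ} (h : ∀ i, i < k → f i ≤ B) : maxN f k ≤ B := by
  induction k with
  | zero => exact Nat.zero_le _
  | succ k ih =>
    have e : maxN f (k + 1) = Bool.rec (motive := fun _ => ℕ) (f k) (maxN f k)
      (Nat.ble (f k) (maxN f k)) := rfl
    rw [e]
    cases Nat.ble (f k) (maxN f k) with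
    | true => exact ih (fun i hi => h i (by omega))
    | false => exact h k (by omega)

/-- the tables -/
structure Tb where
  n : ℕ
  M : ℕ
  I : ℕ
  omT : ℕ
  muT : ℕ
  qT : ℕ
  uT : ℕ
  qcT : ℕ
  wt : ℕ
  C1 : ℕ
  C2 : ℕ
  h : ℕ

namespace Tb

/-- functional plus 128 -/
def omn (T : Tb) (i κ : ℕ) : ℕ := fd 8 256 T.omT (Nat.add (Nat.mul i T.n) κ)

/-- length weight plus 128 -/
def mun (T : Tb) (i : ℕ) : ℕ := fd 8 256 T.muT i

/-- partial sums plus 2048 -/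
def qn (T : Tb) (i κ t : ℕ) : ℕ :=
  fd 12 4096 T.qT (Nat.add (Nat.mul (Nat.add (Nat.mul i T.n) κ) (Nat.add T.M 1)) t)

/-- upper bounds -/
def un (T : Tb) (i ro s κ : ℕ) : ℕ :=
  fd 10 1024 T.uT (Nat.add (Nat.mul (Nat.add (Nat.mul (Nat.add (Nat.mul i 2) ro) 2) s) T.n) κ)

/-- partial sums of the difference functional plus 128 -/
def qcn (T : Tb) (κ t : ℕ) : ℕ := fd 8 256 T.qcT (Nat.add (Nat.mul κ (Nat.add T.M 1)) t)

/-- the signs of the pattern -/
def w (T : Tb) (t : ℕ) : ℕ := wd T.wt t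

/-- the functionals -/
def om (T : Tb) (i κ : ℕ) : ℤ := (T.omn i κ : ℤ) - 128

/-- the length weights -/
def mu (T : Tb) (i : ℕ) : ℤ := (T.mun i : ℤ) - 128

/-- partial sums -/
def q (T : Tb) (i κ t : ℕ) : ℤ := (T.qn i κ t : ℤ) - 2048

/-- upper bounds -/
def U (T : Tb) (i ro s κ : ℕ) : ℤ := (T.un i ro s κ : ℤ)

/-- partial sums of the difference functional -/
def qc (T : Tb) (κ t : ℕ) : ℤ := (T.qcn κ t : ℤ) - 128

/-- contributions -/
noncomputable def gB (T : Tb) (ro s κ t f : ℕ) : ℕ :=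
  Nat.add (chz (Nat.mod (Nat.add ro s) 2)
    (T.qn (Nat.div f T.n) (Nat.mod (Nat.add κ f) T.n) t)
    (Nat.sub 4096 (T.qn (Nat.div f T.n) (Nat.mod (Nat.add κ f) T.n) t)))
    (T.un (Nat.div f T.n) ro (Nat.mod (Nat.add s (T.w t)) 2)
      (Nat.mod (Nat.add (Nat.add κ t) f) T.n))

/-- maximal contributions -/
noncomputable def xB (T : Tb) (ro s κ f : ℕ) : ℕ := maxN (fun t => T.gB ro s κ t f) T.M

/-- linear forms -/
noncomputable def lB (T : Tb) (k f : ℕ) : ℕ :=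
  Nat.add (sumN (fun j => T.qn (Nat.div f T.n) (Nat.mod (Nat.add (Nat.mul T.M j) f) T.n) T.M)
    (Nat.succ k)) (Nat.mul (Nat.sub T.n (Nat.succ k)) 2048)

/-- constants -/
noncomputable def cB (T : Tb) (f : ℕ) : ℕ :=
  Nat.sub T.C1 (Nat.mul T.h (sumN (fun k => T.lB k f) T.n))

/-- length terms -/
def uB (T : Tb) (d f : ℕ) : ℕ :=
  Nat.div (Nat.add (Nat.mul d (T.mun (Nat.div f T.n)))
    (Nat.mul (Nat.sub 2 d) (Nat.sub 256 (T.mun (Nat.div f T.n))))) 2

/-- maximal length terms -/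
noncomputable def uX (T : Tb) (f : ℕ) : ℕ := maxN (fun d => T.uB d f) 3

/-- contributions to the differences -/
noncomputable def gS (T : Tb) (ro s κ t k : ℕ) : ℕ :=
  chz (Nat.mod (Nat.add ro s) 2)
    (T.qcn (Nat.mod (Nat.add κ (Nat.mul (Nat.sub T.n 1) k)) T.n) t)
    (Nat.sub 256 (T.qcn (Nat.mod (Nat.add κ (Nat.mul (Nat.sub T.n 1) k)) T.n) t))

/-- linear forms of the differences -/
noncomputable def lS (T : Tb) (j k : ℕ) : ℕ :=
  Nat.add (sumN (fun i => T.qcn (Nat.mod (Nat.add (Nat.mul T.M i) (Nat.mul (Nat.sub T.n 1) k)) T.n)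
    T.M) (Nat.succ j)) (Nat.mul (Nat.sub T.n (Nat.succ j)) 128)

/-- constants of the differences -/
noncomputable def cS (T : Tb) (k : ℕ) : ℕ :=
  Nat.sub T.C2 (Nat.mul T.h (sumN (fun j => T.lS j k) T.n))

lemma w_lt (T : Tb) (t : ℕ) : T.w t < 2 := Nat.mod_lt _ (by norm_num)

lemma qn_lt (T : Tb) (i κ t : ℕ) : T.qn i κ t < 4096 := Nat.mod_lt _ (by norm_num)

lemma un_lt (T : Tb) (i ro s κ : ℕ) : T.un i ro s κ < 1024 := Nat.mod_lt _ (by norm_num)

lemma qcn_lt (T : Tb) (κ t : ℕ) : T.qcn κ t < 256 := Nat.mod_lt _ (by norm_num)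

lemma mun_lt (T : Tb) (i : ℕ) : T.mun i < 256 := Nat.mod_lt _ (by norm_num)

lemma sg_w (T : Tb) (t : ℕ) : sg (T.w t) = 1 - 2 * (T.w t : ℤ) := rfl

/-- partial sums from steps -/
lemma q_eq (T : Tb) (h0 : ∀ i, i < T.I → ∀ κ, κ < T.n → T.qn i κ 0 = 2048)
    (h1 : ∀ i, i < T.I → ∀ κ, κ < T.n → ∀ t, t < T.M → T.qn i κ (t + 1) + 128 +
      2 * T.w t * T.omn i ((κ + t) % T.n) = T.qn i κ t + T.omn i ((κ + t) % T.n) +
        256 * T.w t) :
    ∀ i, i < T.I → ∀ κ, κ < T.n → ∀ t, t ≤ T.M →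
      T.q i κ t = QS T.w (fun x => T.om i (x % T.n)) κ t := by
  intro i hi κ hκ t
  induction t with
  | zero =>
    intro _
    rw [QS_zero]
    unfold q
    rw [h0 i hi κ hκ]
    norm_num
  | succ t ih =>
    intro ht
    rw [QS_succ, ← ih (by omega)]
    have e := h1 i hi κ hκ t (by omega)
    have e' : (T.qn i κ (t + 1) : ℤ) + 128 + 2 * T.w t * T.omn i ((κ + t) % T.n) =
      T.qn i κ t + T.omn i ((κ + t) % T.n) + 256 * T.w t := by exact_mod_cast e
    unfold q om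
    rw [sg_w]
    linarith

lemma qc_eq (T : Tb) (h0 : ∀ κ, κ < T.n → T.qcn κ 0 = 128)
    (h1 : ∀ κ, κ < T.n → ∀ t, t < T.M → (T.qcn κ (t + 1) : ℤ) =
      T.qcn κ t + sg (T.w t) * chd ((κ + t) % T.n)) :
    ∀ κ, κ < T.n → ∀ t, t ≤ T.M → T.qc κ t = QS T.w (fun x => chd (x % T.n)) κ t := by
  intro κ hκ t
  induction t with
  | zero =>
    intro _
    rw [QS_zero]
    unfold qc
    rw [h0 κ hκ]
    norm_num
  | succ t ih =>
    intro ht
    rw [QS_succ, ← ih (by omega)]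
    have e := h1 κ hκ t (by omega)
    unfold qc
    rw [e]
    ring

lemma chz_val {ro s c Q : ℕ} {z : ℤ} (hro : ro < 2) (hs : s < 2) (hQ : Q ≤ 2 * c)
    (hz : z = (Q : ℤ) - c) : ((chz (Nat.mod (Nat.add ro s) 2) Q (Nat.sub (2 * c) Q) : ℕ) : ℤ) =
      c + sg ro * (sg s * z) := by
  have h2 : ((Nat.sub (2 * c) Q : ℕ) : ℤ) = 2 * c - Q := by
    show ((2 * c - Q : ℕ) : ℤ) = _
    rw [Nat.cast_sub hQ]
    push_cast
    ring
  interval_cases ro <;> interval_cases s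
  · show (Q : ℤ) = _
    rw [sg_zero, hz]
    ring
  · show ((Nat.sub (2 * c) Q : ℕ) : ℤ) = _
    rw [h2, sg_zero, sg_one, hz]
    ring
  · show ((Nat.sub (2 * c) Q : ℕ) : ℤ) = _
    rw [h2, sg_zero, sg_one, hz]
    ring
  · show (Q : ℤ) = _
    rw [sg_one, hz]
    ring

lemma gB_val (T : Tb) {ro s κ t f : ℕ} (hro : ro < 2) (hs : s < 2) :
    (T.gB ro s κ t f : ℤ) = (2048 : ℕ) + sg ro * (sg s * T.q (f / T.n) ((κ + f) % T.n) t) +
      T.U (f / T.n) ro ((s + T.w t) % 2) ((κ + t + f) % T.n) := by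
  have h1 := chz_val (c := 2048) (Q := T.qn (f / T.n) ((κ + f) % T.n) t)
    (z := T.q (f / T.n) ((κ + f) % T.n) t) hro hs
    (by have := T.qn_lt (f / T.n) ((κ + f) % T.n) t; omega) rfl
  have e : T.gB ro s κ t f = chz (Nat.mod (Nat.add ro s) 2) (T.qn (f / T.n) ((κ + f) % T.n) t)
    (Nat.sub (2 * 2048) (T.qn (f / T.n) ((κ + f) % T.n) t)) +
      T.un (f / T.n) ro ((s + T.w t) % 2) ((κ + t + f) % T.n) := rfl
  rw [e, Nat.cast_add, h1]
  rfl

lemma gB_le (T : Tb) (ro s κ t f : ℕ) : T.gB ro s κ t f ≤ 4096 + 1023 := by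
  have h1 := T.qn_lt (Nat.div f T.n) (Nat.mod (Nat.add κ f) T.n) t
  have h2 := T.un_lt (Nat.div f T.n) ro (Nat.mod (Nat.add s (T.w t)) 2)
    (Nat.mod (Nat.add (Nat.add κ t) f) T.n)
  have h3 : ∀ σ Q : ℕ, Q < 4096 → chz σ Q (Nat.sub 4096 Q) ≤ 4096 := by
    intro σ Q hQ
    cases σ with
    | zero => show Q ≤ 4096; omega
    | succ σ => show 4096 - Q ≤ 4096; omega
  have h4 := h3 (Nat.mod (Nat.add ro s) 2) _ h1
  have e : T.gB ro s κ t f = chz (Nat.mod (Nat.add ro s) 2)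
    (T.qn (Nat.div f T.n) (Nat.mod (Nat.add κ f) T.n) t)
    (Nat.sub 4096 (T.qn (Nat.div f T.n) (Nat.mod (Nat.add κ f) T.n) t)) +
      T.un (Nat.div f T.n) ro (Nat.mod (Nat.add s (T.w t)) 2)
        (Nat.mod (Nat.add (Nat.add κ t) f) T.n) := rfl
  rw [e]
  omega

lemma gS_val (T : Tb) {ro s κ t k : ℕ} (hro : ro < 2) (hs : s < 2) :
    (T.gS ro s κ t k : ℤ) = (128 : ℕ) + sg ro * (sg s * T.qc ((κ + (T.n - 1) * k) % T.n) t) := by
  have h1 := chz_val (c := 128) (Q := T.qcn ((κ + (T.n - 1) * k) % T.n) t)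
    (z := T.qc ((κ + (T.n - 1) * k) % T.n) t) hro hs
    (by have := T.qcn_lt ((κ + (T.n - 1) * k) % T.n) t; omega) rfl
  rw [← h1]
  rfl

lemma gS_le (T : Tb) (ro s κ t k : ℕ) : T.gS ro s κ t k ≤ 256 := by
  have h1 := T.qcn_lt (Nat.mod (Nat.add κ (Nat.mul (Nat.sub T.n 1) k)) T.n) t
  have h3 : ∀ σ Q : ℕ, Q < 256 → chz σ Q (Nat.sub 256 Q) ≤ 256 := by
    intro σ Q hQ
    cases σ with
    | zero => show Q ≤ 256; omega
    | succ σ => show 256 - Q ≤ 256; omega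
  exact h3 _ _ h1

lemma lB_val (T : Tb) {k f : ℕ} (hk : k < T.n) : (T.lB k f : ℤ) = (T.n * 2048 : ℕ) +
    ∑ j ∈ range (k + 1), T.q (f / T.n) ((T.M * j + f) % T.n) T.M := by
  have e : T.lB k f = sumN (fun j => T.qn (f / T.n) ((T.M * j + f) % T.n) T.M) (k + 1) +
    (T.n - (k + 1)) * 2048 := rfl
  rw [e, sumN_eq]
  unfold q
  rw [Finset.sum_sub_distrib]
  simp only [Finset.sum_const, Finset.card_range, nsmul_eq_mul]
  rw [Nat.cast_add, Nat.cast_mul (T.n - (k + 1)), Nat.cast_sub (by omega)]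
  push_cast
  ring

lemma lB_le (T : Tb) {k f : ℕ} (hk : k < T.n) : T.lB k f ≤ T.n * 4096 := by
  have e : T.lB k f = sumN (fun j => T.qn (f / T.n) ((T.M * j + f) % T.n) T.M) (k + 1) +
    (T.n - (k + 1)) * 2048 := rfl
  rw [e, sumN_eq]
  have h1 : ∑ j ∈ range (k + 1), T.qn (f / T.n) ((T.M * j + f) % T.n) T.M ≤ (k + 1) * 4096 := by
    have := Finset.sum_le_card_nsmul (range (k + 1))
      (fun j => T.qn (f / T.n) ((T.M * j + f) % T.n) T.M) 4096
      (fun j _ => (T.qn_lt _ _ _).le)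
    simpa using this
  have h2 : (T.n - (k + 1)) * 2048 ≤ (T.n - (k + 1)) * 4096 := Nat.mul_le_mul le_rfl (by norm_num)
  have h3 : (k + 1) * 4096 + (T.n - (k + 1)) * 4096 = T.n * 4096 := by
    rw [← Nat.add_mul]
    congr 1
    omega
  omega

lemma lS_val (T : Tb) {j k : ℕ} (hj : j < T.n) : (T.lS j k : ℤ) = (T.n * 128 : ℕ) +
    ∑ i ∈ range (j + 1), T.qc ((T.M * i + (T.n - 1) * k) % T.n) T.M := by
  have e : T.lS j k = sumN (fun i => T.qcn ((T.M * i + (T.n - 1) * k) % T.n) T.M) (j + 1) +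
    (T.n - (j + 1)) * 128 := rfl
  rw [e, sumN_eq]
  unfold qc
  rw [Finset.sum_sub_distrib]
  simp only [Finset.sum_const, Finset.card_range, nsmul_eq_mul]
  rw [Nat.cast_add, Nat.cast_mul (T.n - (j + 1)), Nat.cast_sub (by omega)]
  push_cast
  ring

lemma uB_val (T : Tb) {d f : ℕ} (hd : d < 3) :
    (T.uB d f : ℤ) = (128 : ℕ) + T.mu (f / T.n) * ((d : ℤ) - 1) := by
  have h1 := T.mun_lt (f / T.n)
  have e : T.uB d f = (d * T.mun (f / T.n) + (2 - d) * (256 - T.mun (f / T.n))) / 2 := rfl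
  have h2 : ((256 - T.mun (f / T.n) : ℕ) : ℤ) = 256 - T.mun (f / T.n) := by
    rw [Nat.cast_sub h1.le]
    norm_num
  rw [e]
  unfold mu
  interval_cases d
  · have : (0 * T.mun (f / T.n) + (2 - 0) * (256 - T.mun (f / T.n))) / 2 =
      256 - T.mun (f / T.n) := by omega
    rw [this, h2]
    push_cast
    ring
  · have : (1 * T.mun (f / T.n) + (2 - 1) * (256 - T.mun (f / T.n))) / 2 = 128 := by omega
    rw [this]
    push_cast
    ring
  · have : (2 * T.mun (f / T.n) + (2 - 2) * (256 - T.mun (f / T.n))) / 2 =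
      T.mun (f / T.n) := by omega
    rw [this]
    push_cast
    ring

lemma uB_le (T : Tb) {d f : ℕ} (hd : d < 3) : T.uB d f ≤ 256 := by
  have h1 := T.mun_lt (f / T.n)
  have e : T.uB d f = (d * T.mun (f / T.n) + (2 - d) * (256 - T.mun (f / T.n))) / 2 := rfl
  rw [e]
  interval_cases d <;> omega

/-- the facts behind the closure data -/
theorem mkCHyp (T : Tb) (P : CP) (W K : ℕ) (hh : 0 < T.h) (hn : 2 ≤ T.n) (hn16 : T.n < 65536)
    (hM : 2 ≤ T.M) (en : P.n = T.n) (eM : P.M = T.M) (ew : P.wt = T.wt) (hB : 0 < P.B)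
    (hAB : 2 * (P.A + P.B) < 65536) (hW : 0 < W) (hWL : P.WL = W * (T.I * T.n))
    (hML : P.ML = 2 ^ P.WL) (hWS : P.WS = 16 * T.n) (hMS : P.MS = 2 ^ P.WS)
    (hHI : P.HI = pkR W (fun _ => 2 ^ (W - 1)) (T.I * T.n))
    (hG : ∀ ro, ro < 2 → ∀ s, s < 2 → ∀ κ, κ < T.n → nthL P.gT ((2 * ro + s) * T.n + κ) =
      pkR P.WL (fun t => pkR W (T.gB ro s κ t) (T.I * T.n)) T.M)
    (hX : ∀ ro, ro < 2 → ∀ s, s < 2 → ∀ κ, κ < T.n → nthL P.xT ((2 * ro + s) * T.n + κ) =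
      pkR W (T.xB ro s κ) (T.I * T.n))
    (hU : ∀ d, d < 3 → nthL P.uT d = pkR W (T.uB d) (T.I * T.n))
    (hUM : P.uM = pkR W T.uX (T.I * T.n))
    (hL : P.LB = pkR P.WL (fun k => pkR W (T.lB k) (T.I * T.n)) T.n)
    (hz : ∀ f, f < T.I * T.n →
      sumN (fun j => T.qn (f / T.n) ((T.M * j + f) % T.n) T.M) T.n = T.n * 2048)
    (hC : P.CB = pkR W T.cB (T.I * T.n))
    (hbias : T.C1 + 4 * 2048 + 128 = 2 ^ (W - 1))
    (hC1 : T.h * (T.n * (T.n * 4096)) ≤ T.C1)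
    (hbd : P.nh * (T.n * 4096) + T.C1 + 4 * (4096 + 1023) + 256 < 2 ^ W)
    (hS : ∀ ro, ro < 2 → ∀ s, s < 2 → ∀ κ, κ < T.n → nthL P.sT ((2 * ro + s) * T.n + κ) =
      pkR P.WS (fun t => pkR 16 (T.gS ro s κ t) T.n) T.M)
    (hqc0 : ∀ κ, κ < T.n → T.qcn κ 0 = 128)
    (hqc1 : ∀ κ, κ < T.n → ∀ t, t < T.M → (T.qcn κ (t + 1) : ℤ) =
      T.qcn κ t + sg (T.w t) * chd ((κ + t) % T.n))
    (hLS : P.LS = pkR P.WS (fun k => pkR 16 (T.lS k) T.n) T.n)
    (hzS : ∀ k, k < T.n →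
      sumN (fun i => T.qcn ((T.M * i + (T.n - 1) * k) % T.n) T.M) T.n = T.n * 128)
    (hCS : P.CS = pkR 16 T.cS T.n)
    (hC2 : ∀ k, k < T.n → T.h * sumN (fun j => T.lS j k) T.n ≤ T.C2)
    (hbiasS : T.C2 + 4 * 128 = K) (hK1 : P.K1 + T.h = K) (hnh : P.nh = T.n * T.h)
    {BLs : ℕ} (bLs : ∀ j, j < T.n → ∀ k, k < T.n → T.lS j k ≤ BLs)
    (hbdS : P.nh * BLs + T.C2 + 4 * 256 < 2 ^ 16) :
    CHyp P W T.I T.w T.om T.mu T.U T.q T.qc T.h K T.gB T.xB T.lB T.cB T.uB T.uX T.gS T.lS T.cS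
      T.C1 2048 128 (T.n * 2048) (T.n * 4096) T.C1 (4096 + 1023) 256 T.C2 128 (T.n * 128) BLs
      T.C2 256 := by
  constructor
  case hh => exact hh
  case hn => rw [en]; exact hn
  case hn16 => rw [en]; exact hn16
  case hM => rw [eM]; exact hM
  case hB => exact hB
  case hAB => exact hAB
  case hwt => intro r _; rw [ew]; rfl
  case hW => exact hW
  case hWL => rw [en]; exact hWL
  case hML => exact hML
  case hWS => rw [en]; exact hWS
  case hMS => exact hMS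
  case hHI => rw [en, hHI, pkR_eq]
  case hG =>
    intro ro hro s hs κ hκ
    rw [en] at hκ ⊢
    rw [eM, hG ro hro s hs κ hκ, pkR_eq]
    apply pk_congr
    intro t _
    rw [pkR_eq]
  case hgB =>
    intro ro hro s hs κ _ t _ f _
    rw [en]
    exact T.gB_val hro hs
  case hX =>
    intro ro hro s hs κ hκ
    rw [en] at hκ ⊢
    rw [hX ro hro s hs κ hκ, pkR_eq]
  case hxB =>
    intro ro _ s _ κ _ t ht f _
    rw [eM] at ht
    exact le_maxN (f := fun t => T.gB ro s κ t f) ht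
  case hU =>
    intro d hd
    rw [en, hU d hd, pkR_eq]
  case huB =>
    intro d hd f _
    rw [en]
    exact T.uB_val hd
  case hUM => rw [en, hUM, pkR_eq]
  case huX =>
    intro d hd f _
    exact le_maxN (f := fun d => T.uB d f) hd
  case hL =>
    rw [hL, pkR_eq, en]
    apply pk_congr
    intro k _
    rw [pkR_eq]
  case hlB =>
    intro k hk f _
    rw [en] at hk
    rw [en, eM]
    exact T.lB_val hk
  case hz =>
    intro f hf
    rw [en] at hf
    rw [en, eM]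
    have h1 := hz f hf
    rw [sumN_eq] at h1
    unfold q
    rw [Finset.sum_sub_distrib, ← Nat.cast_sum, h1]
    simp
  case hC => rw [en, hC, pkR_eq]
  case hcB =>
    intro f _
    have e : T.cB f = T.C1 - T.h * sumN (fun k => T.lB k f) T.n := rfl
    rw [en, e, sumN_eq]
    have h1 : ∑ k ∈ range T.n, T.lB k f ≤ T.n * (T.n * 4096) := by
      have := Finset.sum_le_card_nsmul (range T.n) (fun k => T.lB k f) (T.n * 4096)
        (fun k hk => T.lB_le (Finset.mem_range.1 hk))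
      simpa using this
    have h2 : T.h * ∑ k ∈ range T.n, T.lB k f ≤ T.h * (T.n * (T.n * 4096)) :=
      Nat.mul_le_mul le_rfl h1
    omega
  case hbias => exact hbias
  case bL =>
    intro k hk f _
    rw [en] at hk
    exact T.lB_le hk
  case bC =>
    intro f _
    exact Nat.sub_le _ _
  case bX =>
    intro ro _ s _ κ _ f _
    exact maxN_le (fun t _ => T.gB_le ro s κ t f)
  case bU =>
    intro f _
    exact maxN_le (fun d hd => T.uB_le hd)
  case hbd => exact hbd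
  case hS =>
    intro ro hro s hs κ hκ
    rw [en] at hκ ⊢
    rw [eM, hS ro hro s hs κ hκ, pkR_eq]
    apply pk_congr
    intro t _
    rw [pkR_eq]
  case hgS =>
    intro ro hro s hs κ _ t _ k _
    rw [en]
    exact T.gS_val hro hs
  case hqc =>
    intro κ hκ t ht
    rw [en] at hκ ⊢
    rw [eM] at ht
    exact T.qc_eq hqc0 hqc1 κ hκ t ht
  case hLS =>
    rw [hLS, pkR_eq, en]
    apply pk_congr
    intro k _
    rw [pkR_eq]
  case hlS =>
    intro j hj k _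
    rw [en] at hj
    rw [en, eM]
    exact T.lS_val hj
  case hzS =>
    intro k hk
    rw [en] at hk
    rw [en, eM]
    have h1 := hzS k hk
    rw [sumN_eq] at h1
    unfold qc
    rw [Finset.sum_sub_distrib, ← Nat.cast_sum, h1]
    simp
  case hCS => rw [en, hCS, pkR_eq]
  case hcS =>
    intro k hk
    rw [en] at hk
    have e : T.cS k = T.C2 - T.h * sumN (fun j => T.lS j k) T.n := rfl
    have h1 := hC2 k hk
    rw [en, e]
    rw [sumN_eq] at h1 ⊢
    omega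
  case hbiasS => exact hbiasS
  case hK1 => exact hK1
  case hnh => rw [en]; exact hnh
  case bLs =>
    intro j hj k hk
    rw [en] at hj hk
    exact bLs j hj k hk
  case bCs =>
    intro k _
    exact Nat.sub_le _ _
  case bXs =>
    intro ro _ s _ κ _ t _ k _
    exact T.gS_le ro s κ t k
  case hbdS => exact hbdS

end Tb

end MPbbea99T
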