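import Pool.Agent.Lib.Pbbea99T.Inst

/-!
# MP_bbea99_co: certificates from tables
-/

namespace MPbbea99T

open Finset MPbbea99S

/-- the tables of the certificates -/
structure Tc where
  J : ℕ
  NB : ℕ
  NM : ℕ
  nT : ℕ
  aT : ℕ
  fiT : ℕ
  fjT : ℕ
  m : ℕ
  d : ℕ
  x0 : ℕ
  x1 : ℕ
  rT : ℕ

namespace Tc

/-- denominators -/
def nn (S : Tc) (i : ℕ) : ℕ := fd S.NB S.NM S.nT i

/-- coefficients -/
def an (S : Tc) (i f : ℕ) : ℕ := fd S.NB S.NM S.aT (Nat.add (Nat.mul i S.J) f)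

/-- functionals -/
def fi (S : Tc) (i f : ℕ) : ℕ := fd 8 256 S.fiT (Nat.add (Nat.mul i S.J) f)

/-- rotations -/
def fj (S : Tc) (i f : ℕ) : ℕ := fd 4 16 S.fjT (Nat.add (Nat.mul i S.J) f)

/-- denominators -/
def N (S : Tc) (i : ℕ) : ℤ := (S.nn i : ℤ)

/-- coefficients -/
def al (S : Tc) (i f : ℕ) : ℤ := (S.an i f : ℤ)

/-- letters of the blocks -/
noncomputable def X (S : Tc) (s r : ℕ) : ℕ := fd 4 16 (chz s S.x0 S.x1) r

/-- partial sums of the blocks plus 8192 -/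
def rn (S : Tc) (n i s κ r : ℕ) : ℕ := fd 14 16384 S.rT
  (Nat.add (Nat.mul (Nat.add (Nat.mul (Nat.add (Nat.mul i 2) s) n) κ) (Nat.add S.m 1)) r)

/-- partial sums of the blocks -/
def R (S : Tc) (n i s κ r : ℕ) : ℤ := (S.rn n i s κ r : ℤ) - 8192

lemma rn_lt (S : Tc) (n i s κ r : ℕ) : S.rn n i s κ r < 16384 := Nat.mod_lt _ (by norm_num)

/-- one inequality of the certificate -/
noncomputable def cU (T : Tb) (S : Tc) (i ro s κ t : ℕ) : Bool :=
  Nat.ble (sumN (fun f => Nat.mul (S.an i f) (Nat.add (Nat.add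
      (chz (Nat.mod (Nat.add ro s) 2)
        (T.qn (S.fi i f) (Nat.mod (Nat.add (Nat.mul T.M κ) (S.fj i f)) T.n) t)
        (Nat.sub 4096 (T.qn (S.fi i f) (Nat.mod (Nat.add (Nat.mul T.M κ) (S.fj i f)) T.n) t)))
      (Nat.mul (chz ro (T.mun (S.fi i f)) (Nat.sub 256 (T.mun (S.fi i f)))) t))
      (T.un (S.fi i f) ro (Nat.mod (Nat.add s (T.w t)) 2)
        (Nat.mod (Nat.add (Nat.add (Nat.mul T.M κ) (S.fj i f)) t) T.n)))) S.J)
    (Nat.add (Nat.mul (S.nn i) (T.un i ro s κ))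
      (Nat.mul (sumN (fun f => S.an i f) S.J) (Nat.add 2048 (Nat.mul 128 t))))

/-- all inequalities of the certificate -/
noncomputable def chkU (T : Tb) (S : Tc) (i : ℕ) : Bool :=
  allN (fun ro => allN (fun s => allN (fun κ => allN (fun t => cU T S i ro s κ t) T.M) T.n) 2) 2

lemma chz_mun {ro Q : ℕ} (hro : ro < 2) (hQ : Q ≤ 256) :
    ((chz ro Q (Nat.sub 256 Q) : ℕ) : ℤ) = 128 + sg ro * ((Q : ℤ) - 128) := by
  have h2 : ((Nat.sub 256 Q : ℕ) : ℤ) = 256 - Q := by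
    show ((256 - Q : ℕ) : ℤ) = _
    rw [Nat.cast_sub hQ]
    norm_num
  interval_cases ro
  · show (Q : ℤ) = _
    rw [sg_zero]
    ring
  · show ((Nat.sub 256 Q : ℕ) : ℤ) = _
    rw [h2, sg_one]
    ring

lemma cU_sound (T : Tb) (S : Tc) {i ro s κ t : ℕ} (hro : ro < 2) (hs : s < 2)
    (h : cU T S i ro s κ t = true) :
    ∑ f ∈ range S.J, S.al i f * (sg ro * (sg s * T.q (S.fi i f) ((T.M * κ + S.fj i f) % T.n) t +
      T.mu (S.fi i f) * t) + T.U (S.fi i f) ro ((s + T.w t) % 2)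
        ((T.M * κ + S.fj i f + t) % T.n)) ≤ S.N i * T.U i ro s κ := by
  have h1 := Nat.le_of_ble_eq_true h
  rw [sumN_eq, sumN_eq] at h1
  have h2 : ((∑ f ∈ range S.J, Nat.mul (S.an i f) (Nat.add (Nat.add
      (chz (Nat.mod (Nat.add ro s) 2)
        (T.qn (S.fi i f) (Nat.mod (Nat.add (Nat.mul T.M κ) (S.fj i f)) T.n) t)
        (Nat.sub 4096 (T.qn (S.fi i f) (Nat.mod (Nat.add (Nat.mul T.M κ) (S.fj i f)) T.n) t)))
      (Nat.mul (chz ro (T.mun (S.fi i f)) (Nat.sub 256 (T.mun (S.fi i f)))) t))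
      (T.un (S.fi i f) ro (Nat.mod (Nat.add s (T.w t)) 2)
        (Nat.mod (Nat.add (Nat.add (Nat.mul T.M κ) (S.fj i f)) t) T.n))) : ℕ) : ℤ) ≤
      ((Nat.add (Nat.mul (S.nn i) (T.un i ro s κ))
      (Nat.mul (∑ f ∈ range S.J, S.an i f) (Nat.add 2048 (Nat.mul 128 t))) : ℕ) : ℤ) := by
    exact_mod_cast h1
  rw [Nat.cast_sum] at h2
  have h3 : ∀ f ∈ range S.J, ((Nat.mul (S.an i f) (Nat.add (Nat.add
      (chz (Nat.mod (Nat.add ro s) 2)
        (T.qn (S.fi i f) (Nat.mod (Nat.add (Nat.mul T.M κ) (S.fj i f)) T.n) t)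
        (Nat.sub 4096 (T.qn (S.fi i f) (Nat.mod (Nat.add (Nat.mul T.M κ) (S.fj i f)) T.n) t)))
      (Nat.mul (chz ro (T.mun (S.fi i f)) (Nat.sub 256 (T.mun (S.fi i f)))) t))
      (T.un (S.fi i f) ro (Nat.mod (Nat.add s (T.w t)) 2)
        (Nat.mod (Nat.add (Nat.add (Nat.mul T.M κ) (S.fj i f)) t) T.n))) : ℕ) : ℤ) =
      S.al i f * (sg ro * (sg s * T.q (S.fi i f) ((T.M * κ + S.fj i f) % T.n) t +
      T.mu (S.fi i f) * t) + T.U (S.fi i f) ro ((s + T.w t) % 2)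
        ((T.M * κ + S.fj i f + t) % T.n)) + S.al i f * (2048 + 128 * t) := by
    intro f _
    have a1 := Tb.chz_val (c := 2048) (Q := T.qn (S.fi i f) ((T.M * κ + S.fj i f) % T.n) t)
      (z := T.q (S.fi i f) ((T.M * κ + S.fj i f) % T.n) t) hro hs
      (by have := T.qn_lt (S.fi i f) ((T.M * κ + S.fj i f) % T.n) t; omega) rfl
    have a2 := chz_mun (ro := ro) (Q := T.mun (S.fi i f)) hro (T.mun_lt _).le
    show ((S.an i f * (chz (Nat.mod (Nat.add ro s) 2)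
        (T.qn (S.fi i f) ((T.M * κ + S.fj i f) % T.n) t)
        (Nat.sub (2 * 2048) (T.qn (S.fi i f) ((T.M * κ + S.fj i f) % T.n) t)) +
      (chz ro (T.mun (S.fi i f)) (Nat.sub 256 (T.mun (S.fi i f)))) * t +
      (T.un (S.fi i f) ro ((s + T.w t) % 2) ((T.M * κ + S.fj i f + t) % T.n))) : ℕ) : ℤ) = _
    rw [Nat.cast_mul, Nat.cast_add, Nat.cast_add, Nat.cast_mul, a1, a2]
    unfold al Tb.U Tb.mu
    push_cast
    ring
  rw [Finset.sum_congr rfl h3, Finset.sum_add_distrib, ← Finset.sum_mul] at h2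
  have h4 : ((Nat.add (Nat.mul (S.nn i) (T.un i ro s κ))
      (Nat.mul (∑ f ∈ range S.J, S.an i f) (Nat.add 2048 (Nat.mul 128 t))) : ℕ) : ℤ) =
      S.N i * T.U i ro s κ + (∑ f ∈ range S.J, S.al i f) * (2048 + 128 * t) := by
    show ((S.nn i * T.un i ro s κ + (∑ f ∈ range S.J, S.an i f) * (2048 + 128 * t) : ℕ) : ℤ) = _
    unfold N al Tb.U
    push_cast
    ring
  rw [h4] at h2
  linarith

/-- the certificate -/
theorem mkCert (T : Tb) (S : Tc) (hn : 0 < T.n)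
    (hq : ∀ i, i < T.I → ∀ κ, κ < T.n → ∀ t, t ≤ T.M →
      T.q i κ t = QS T.w (fun x => T.om i (x % T.n)) κ t)
    (hN : ∀ i, i < T.I → 0 < S.nn i)
    (hfi : ∀ i, i < T.I → ∀ f, f < S.J → S.fi i f < T.I)
    (hom : ∀ i, i < T.I → ∀ κ, κ < T.n →
      S.nn i * T.omn i κ + sumN (fun f => S.an i f) S.J * 2048 =
        sumN (fun f => S.an i f * T.qn (S.fi i f) ((T.M * κ + S.fj i f) % T.n) T.M) S.J +
          S.nn i * 128)
    (hmu : ∀ i, i < T.I →
      S.nn i * T.mun i + sumN (fun f => S.an i f) S.J * (T.M * 128) =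
        sumN (fun f => S.an i f * (T.M * T.mun (S.fi i f))) S.J + S.nn i * 128)
    (hU : ∀ i, i < T.I → chkU T S i = true) :
    Cert T.n T.M T.w T.I T.om T.mu T.U T.q S.J S.N S.al S.fi S.fj := by
  constructor
  case hn => exact hn
  case hw => intro r _; exact T.w_lt r
  case hq => exact hq
  case hN => intro i hi; unfold N; exact_mod_cast hN i hi
  case hal => intro i _ f _; unfold al; positivity
  case hfi => exact hfi
  case hom =>
    intro i hi κ hκ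
    have h1 := hom i hi κ hκ
    rw [sumN_eq, sumN_eq] at h1
    have h2 : (S.nn i : ℤ) * T.omn i κ + (∑ f ∈ range S.J, (S.an i f : ℤ)) * 2048 =
        ∑ f ∈ range S.J, (S.an i f : ℤ) * T.qn (S.fi i f) ((T.M * κ + S.fj i f) % T.n) T.M +
          S.nn i * 128 := by exact_mod_cast h1
    unfold N al Tb.om Tb.q
    simp only [mul_sub, Finset.sum_sub_distrib, ← Finset.sum_mul]
    linarith
  case hmu =>
    intro i hi
    have h1 := hmu i hi
    rw [sumN_eq, sumN_eq] at h1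
    have h2 : (S.nn i : ℤ) * T.mun i + (∑ f ∈ range S.J, (S.an i f : ℤ)) * (T.M * 128) =
        ∑ f ∈ range S.J, (S.an i f : ℤ) * (T.M * T.mun (S.fi i f)) +
          S.nn i * 128 := by exact_mod_cast h1
    unfold N al Tb.mu
    simp only [mul_sub, Finset.sum_sub_distrib, ← Finset.sum_mul]
    linarith
  case hU =>
    intro i hi ro hro s hs κ hκ t ht
    have h1 := allN_spec (allN_spec (allN_spec (allN_spec (hU i hi) ro hro) s hs) κ hκ) t ht
    exact cU_sound T S hro hs h1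

/-- one inequality of the outer certificate -/
noncomputable def oU (T : Tb) (S : Tc) (i ro s κ r : ℕ) : Bool :=
  Nat.ble (Nat.add (Nat.mul S.m (chz ro (S.rn T.n i s κ r) (Nat.sub 16384 (S.rn T.n i s κ r))))
      (Nat.mul (Nat.mul S.d (chz ro (T.mun i) (Nat.sub 256 (T.mun i)))) r))
    (Nat.add (Nat.add (Nat.mul (Nat.mul S.m S.d) (T.un i ro s κ)) (Nat.mul S.m 8192))
      (Nat.mul (Nat.mul S.d 128) r))

/-- all inequalities of the outer certificate -/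
noncomputable def chkOU (T : Tb) (S : Tc) (i : ℕ) : Bool :=
  allN (fun ro => allN (fun s => allN (fun κ => allN (fun r => oU T S i ro s κ r) S.m) T.n) 2) 2

lemma oU_sound (T : Tb) (S : Tc) {i ro s κ r : ℕ} (hro : ro < 2)
    (h : oU T S i ro s κ r = true) :
    sg ro * (S.m * S.R T.n i s κ r + S.d * T.mu i * r) ≤ S.m * S.d * T.U i ro s κ := by
  have h1 : S.m * (chz ro (S.rn T.n i s κ r) (Nat.sub 16384 (S.rn T.n i s κ r))) +
      S.d * (chz ro (T.mun i) (Nat.sub 256 (T.mun i))) * r ≤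
      S.m * S.d * T.un i ro s κ + S.m * 8192 + S.d * 128 * r := Nat.le_of_ble_eq_true h
  have a2 := chz_mun (ro := ro) (Q := T.mun i) hro (T.mun_lt _).le
  have a1 : ((chz ro (S.rn T.n i s κ r) (Nat.sub 16384 (S.rn T.n i s κ r)) : ℕ) : ℤ) =
      8192 + sg ro * S.R T.n i s κ r := by
    have hlt := S.rn_lt T.n i s κ r
    have h2 : ((Nat.sub 16384 (S.rn T.n i s κ r) : ℕ) : ℤ) = 16384 - S.rn T.n i s κ r := by
      show ((16384 - S.rn T.n i s κ r : ℕ) : ℤ) = _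
      rw [Nat.cast_sub hlt.le]
      norm_num
    unfold R
    interval_cases ro
    · show (S.rn T.n i s κ r : ℤ) = _
      rw [sg_zero]
      ring
    · show ((Nat.sub 16384 (S.rn T.n i s κ r) : ℕ) : ℤ) = _
      rw [h2, sg_one]
      ring
  have h3 : (S.m : ℤ) * ((chz ro (S.rn T.n i s κ r) (Nat.sub 16384 (S.rn T.n i s κ r)) : ℕ) : ℤ) +
      S.d * ((chz ro (T.mun i) (Nat.sub 256 (T.mun i)) : ℕ) : ℤ) * r ≤
      S.m * S.d * T.un i ro s κ + S.m * 8192 + S.d * 128 * r := by exact_mod_cast h1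
  rw [a1, a2] at h3
  unfold Tb.U Tb.mu
  linarith

/-- the outer certificate -/
theorem mkOCert (T : Tb) (S : Tc) (hm : 0 < S.m) (hd : 0 < S.d)
    (h0 : ∀ i, i < T.I → ∀ s, s < 2 → ∀ κ, κ < T.n → S.rn T.n i s κ 0 = 8192)
    (h1 : ∀ i, i < T.I → ∀ s, s < 2 → ∀ κ, κ < T.n → ∀ r, r < S.m →
      S.rn T.n i s κ (r + 1) + 128 = S.rn T.n i s κ r + T.omn i ((S.X s r + κ) % T.n))
    (h2 : ∀ i, i < T.I → ∀ κ, κ < T.n →
      S.rn T.n i 0 κ S.m + S.d * 128 = 8192 + S.d * T.omn i κ)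
    (h3 : ∀ i, i < T.I → ∀ κ, κ < T.n →
      S.rn T.n i 1 κ S.m + S.d * T.omn i κ = 8192 + S.d * 128)
    (hU : ∀ i, i < T.I → chkOU T S i = true) :
    OCert T.n S.m S.X T.I T.om T.mu T.U (S.R T.n) S.d := by
  constructor
  case hm => exact hm
  case hd => exact_mod_cast hd
  case hR =>
    intro i hi s hs κ hκ r
    induction r with
    | zero =>
      intro _
      unfold R RS
      rw [h0 i hi s hs κ hκ]
      norm_num
    | succ r ih =>
      intro hr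
      have e := h1 i hi s hs κ hκ r (by omega)
      have e' : (S.rn T.n i s κ (r + 1) : ℤ) + 128 =
        S.rn T.n i s κ r + T.omn i ((S.X s r + κ) % T.n) := by exact_mod_cast e
      have e2 : RS T.n S.X (T.om i) s κ (r + 1) = RS T.n S.X (T.om i) s κ r +
        T.om i ((S.X s r + κ) % T.n) := by
        unfold RS
        rw [Finset.sum_range_succ]
      rw [e2, ← ih (by omega)]
      unfold R Tb.om
      linarith
  case hRm =>
    intro i hi s hs κ hκ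
    unfold R Tb.om
    interval_cases s
    · have e : (S.rn T.n i 0 κ S.m : ℤ) + S.d * 128 = 8192 + S.d * T.omn i κ := by
        exact_mod_cast h2 i hi κ hκ
      rw [sg_zero]
      linarith
    · have e : (S.rn T.n i 1 κ S.m : ℤ) + S.d * T.omn i κ = 8192 + S.d * 128 := by
        exact_mod_cast h3 i hi κ hκ
      rw [sg_one]
      linarith
  case hU =>
    intro i hi ro hro s hs κ hκ r hr
    exact oU_sound T S hro
      (allN_spec (allN_spec (allN_spec (allN_spec (hU i hi) ro hro) s hs) κ hκ) r hr)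

/-- fields of the block tables -/
noncomputable def rO (Q : OP) (ro s κ r : ℕ) : ℕ :=
  fd Q.F Q.MF (nthL Q.rT (Nat.add (Nat.mul (Nat.add (Nat.mul 2 ro) s) Q.n) κ)) r

/-- fields of the linear form -/
def lO (Q : OP) (k : ℕ) : ℕ := fd Q.F Q.MF Q.LO k

/-- the facts behind the outer data -/
theorem mkOHyp (S : Tc) (Q : OP) (Φ : ℕ → ℤ) (K h bo C3 br BR : ℕ) (hn : 2 ≤ Q.n)
    (hB : 0 < Q.B) (hF : 1 ≤ Q.F) (hMF : Q.MF = 2 ^ Q.F) (hK1 : Q.K1 + h = K)
    (em : Q.m = S.m) (hm : 0 < S.m)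
    (hLO : Q.LO = pkR Q.F (lO Q) Q.n)
    (hlO : ∀ k, k < Q.n → (lO Q k : ℤ) = bo + S.d * ∑ j ∈ range (k + 1), Φ j)
    (hz : ∑ j ∈ range Q.n, Φ j = 0)
    (hCO : Q.CO + h * sumN (fun k => lO Q k) Q.n = C3)
    (hR : ∀ ro, ro < 2 → ∀ s, s < 2 → ∀ κ, κ < Q.n →
      nthL Q.rT ((2 * ro + s) * Q.n + κ) = pkR Q.F (rO Q ro s κ) Q.m)
    (h0 : ∀ ro, ro < 2 → ∀ s, s < 2 → ∀ κ, κ < Q.n → rO Q ro s κ 0 = br)
    (h1 : ∀ ro, ro < 2 → ∀ s, s < 2 → ∀ κ, κ < Q.n → ∀ r, r < Q.m - 1 →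
      (rO Q ro s κ (r + 1) : ℤ) = rO Q ro s κ r + sg ro * Φ ((S.X s r + κ) % Q.n))
    (h2 : ∀ s, s < 2 → ∀ κ, κ < Q.n → (rO Q 0 s κ (Q.m - 1) : ℤ) - br +
      Φ ((S.X s (Q.m - 1) + κ) % Q.n) = sg s * (S.d * Φ κ))
    (hBR : ∀ ro, ro < 2 → ∀ s, s < 2 → ∀ κ, κ < Q.n → ∀ r, r < Q.m → rO Q ro s κ r ≤ BR)
    (hBR2 : 2 * BR < 2 ^ (Q.F - 1)) (hTO : Q.TO = C3 + 4 * br)
    (hTOlt : Q.TO < 2 ^ (Q.F - 1)) (hON : Q.ON = pkR Q.F (fun _ => 1) Q.m)
    (hKO : Q.KO = pkR Q.F (fun _ => 2 ^ (Q.F - 1) - 1) Q.m)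
    (hGO : Q.GO = pkR Q.F (fun _ => 2 ^ (Q.F - 1)) Q.m) :
    OHyp Q S.X Φ S.d h K (lO Q) (rO Q) bo C3 br BR := by
  have hrs : ∀ ro, ro < 2 → ∀ s, s < 2 → ∀ κ, κ < Q.n → ∀ r, r < Q.m →
      (rO Q ro s κ r : ℤ) = br + sg ro * RS Q.n S.X Φ s κ r := by
    intro ro hro s hs κ hκ r
    induction r with
    | zero =>
      intro _
      rw [h0 ro hro s hs κ hκ]
      simp [RS]
    | succ r ih =>
      intro hr
      rw [h1 ro hro s hs κ hκ r (by omega), ih (by omega)]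
      have e2 : RS Q.n S.X Φ s κ (r + 1) = RS Q.n S.X Φ s κ r + Φ ((S.X s r + κ) % Q.n) := by
        unfold RS
        rw [Finset.sum_range_succ]
      rw [e2]
      ring
  constructor
  case hn => exact hn
  case hB => exact hB
  case hF => exact hF
  case hMF => exact hMF
  case hK1 => exact hK1
  case hLO => rw [hLO.trans (pkR_eq _ _ _)]
  case hlO => exact hlO
  case hlOlt =>
    intro k _
    unfold lO
    rw [hMF]
    exact fd_lt
  case hz => exact hz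
  case hCO => rw [← hCO, sumN_eq]
  case hR =>
    intro ro hro s hs κ hκ
    rw [hR ro hro s hs κ hκ, pkR_eq]
  case hrO => exact hrs
  case hRm =>
    intro s hs κ hκ
    have hm1 : Q.m = (Q.m - 1) + 1 := by omega
    have e2 : RS Q.n S.X Φ s κ Q.m = RS Q.n S.X Φ s κ (Q.m - 1) +
        Φ ((S.X s (Q.m - 1) + κ) % Q.n) := by
      conv_lhs => rw [hm1]
      unfold RS
      rw [Finset.sum_range_succ]
    have e3 := hrs 0 (by norm_num) s hs κ hκ (Q.m - 1) (by omega)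
    rw [sg_zero] at e3
    rw [e2, ← h2 s hs κ hκ, e3]
    ring
  case hBR => exact hBR
  case hBR2 => exact hBR2
  case hTO => exact hTO
  case hTOlt => exact hTOlt
  case hON => rw [hON, pkR_eq]
  case hKO => rw [hKO, pkR_eq]
  case hGO => rw [hGO, pkR_eq]

end Tc

end MPbbea99T
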