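import Pool.Agent.Lib.Pbbea99S.Bridge
import Pool.Agent.Lib.Pbbea99T.Clos4
import Pool.Agent.Lib.Pbbea99T.OCheck

/-!
# MP_bbea99_co: words of the form `X (y j) + j` without windows with a short gap
-/

namespace MPbbea99T

open Finset MPbbea99S

/-- the code of the zero quadruple -/
lemma match_zero {n A B K t : ℕ} {y : ℕ → ℕ} (hy : y 0 = 0) (h0 : ∀ k, k < n → dg t k = K)
    (h1 : dg t n = 0) (h2 : dg t (n + 1) = 0) (h3 : dg t (n + 2) = 0) (h4 : dg t (n + 3) = 1)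
    (h5 : dg t (n + 4) = A + B) (h6 : dg t (n + 5) = 1) (h7 : dg t (n + 6) = 1)
    (h8 : dg t (n + 7) = 1) (h9 : dg t (n + 8) = 0) (h10 : dg t (n + 9) = 0)
    (h11 : dg t (n + 10) = 0) (h12 : dg t (n + 11) = 0) : Match n A B K y t 0 0 0 0 := by
  have e : (0 + (n - 1) * 0) % n = 0 := by simp
  constructor
  · intro k hk
    rw [h0 k hk]
    simp [EV, VV]
  · rw [h1, e]
  · rw [h2, e]
  · rw [h3, e]
  · rw [h4]
  · rw [h5]; simp
  · rw [h6]; simp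
  · rw [h7]; simp
  · rw [h8]; simp
  · rw [h9, hy]
  · rw [h10, hy]
  · rw [h11, hy]
  · rw [h12, hy]

section

variable {P : CP} {W I : ℕ} {w : ℕ → ℕ} {om : ℕ → ℕ → ℤ} {mu : ℕ → ℤ}
    {U : ℕ → ℕ → ℕ → ℕ → ℤ} {q : ℕ → ℕ → ℕ → ℤ} {qc : ℕ → ℕ → ℤ} {h K : ℕ}
    {gB : ℕ → ℕ → ℕ → ℕ → ℕ → ℕ} {xB : ℕ → ℕ → ℕ → ℕ → ℕ} {lB : ℕ → ℕ → ℕ} {cB : ℕ → ℕ}
    {uB : ℕ → ℕ → ℕ} {uX : ℕ → ℕ} {gS : ℕ → ℕ → ℕ → ℕ → ℕ → ℕ} {lS : ℕ → ℕ → ℕ} {cS : ℕ → ℕ}
    {C1 bq bu bl BL BC BX BU C2 bs bls BLs BCs BXs : ℕ}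

/-- all living admissible quadruples are described by templates -/
theorem CHyp.closed (H : CHyp P W I w om mu U q qc h K gB xB lB cB uB uX gS lS cS C1 bq bu bl
    BL BC BX BU C2 bs bls BLs BCs BXs) {y : ℕ → ℕ} (hs : IsSeq 2 P.M w y)
    {J : ℕ} {N : ℕ → ℤ} {al : ℕ → ℕ → ℤ} {fi fj : ℕ → ℕ → ℕ}
    (C : Cert P.n P.M w I om mu U q J N al fi fj)
    (hchk : ∀ t ∈ P.T, chkT P t = true)
    (h0 : ∃ t ∈ P.T, Match P.n P.A P.B K y t 0 0 0 0) :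
    ∀ e a b c, Adm P.A P.B a b c e → Alive P.n y I om mu U a b c e →
      ∃ t ∈ P.T, Match P.n P.A P.B K y t a b c e := by
  intro e
  induction e using Nat.strong_induction_on with
  | _ e ih =>
    intro a b c hadm hal
    rcases Nat.eq_zero_or_pos e with he0 | he0
    · have h1 := hadm.hab
      have h2 := hadm.hbc
      have h3 := hadm.hce
      have ea : a = 0 := by omega
      have eb : b = 0 := by omega
      have ec : c = 0 := by omega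
      rw [ea, eb, ec, he0]
      exact h0
    · have hM := H.hM
      have hdec : ∀ x, ∃ x' ix, ix < P.M ∧ x = P.M * x' + ix := by
        intro x
        exact ⟨x / P.M, x % P.M, Nat.mod_lt _ (by omega), (Nat.div_add_mod x P.M).symm⟩
      obtain ⟨a', ia, ha, ea⟩ := hdec a
      obtain ⟨b', ib, hb, eb⟩ := hdec b
      obtain ⟨c', ic, hc, ec⟩ := hdec c
      obtain ⟨e', ie, he, ee⟩ := hdec e
      have hlt : e' < e := by
        rw [ee]
        rcases Nat.eq_zero_or_pos e' with h1 | h1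
        · rw [h1] at ee ⊢
          omega
        · have : 2 * e' ≤ P.M * e' := Nat.mul_le_mul hM le_rfl
          omega
      subst ea
      subst eb
      subst ec
      subst ee
      have hadm' := hadm.parent ha hb hc he
      have hal' := Alive.parent hs C ha hb hc he hal
      obtain ⟨t, ht, hm⟩ := ih e' hlt a' b' c' hadm' hal'
      exact H.step hs C.hq ha hb hc he (hchk t ht) hm hadm hal

variable {Q : OP} {X : ℕ → ℕ → ℕ} {Φ : ℕ → ℤ} {d : ℤ} {lO : ℕ → ℕ}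
    {rO : ℕ → ℕ → ℕ → ℕ → ℕ} {bo C3 br BR : ℕ} {R : ℕ → ℕ → ℕ → ℕ → ℤ}

/-- no window with a short gap -/
theorem no_window (H : CHyp P W I w om mu U q qc h K gB xB lB cB uB uX gS lS cS C1 bq bu bl
    BL BC BX BU C2 bs bls BLs BCs BXs) {y : ℕ → ℕ} (hs : IsSeq 2 P.M w y)
    {J : ℕ} {N : ℕ → ℤ} {al : ℕ → ℕ → ℤ} {fi fj : ℕ → ℕ → ℕ}
    (C : Cert P.n P.M w I om mu U q J N al fi fj)
    (hchk : ∀ t ∈ P.T, chkT P t = true)
    (h0 : ∃ t ∈ P.T, Match P.n P.A P.B K y t 0 0 0 0)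
    (HO : OHyp Q X Φ d h K lO rO bo C3 br BR) (CO : OCert Q.n Q.m X I om mu U R d)
    (hchkO : ∀ t ∈ P.T, chkO Q t = true)
    (en : P.n = Q.n) (eA : P.A = Q.A) (eB : P.B = Q.B) (eK : P.K1 = Q.K1) :
    ∀ l a v, 1 ≤ l → Q.B * v < Q.A * l → ¬ Ex Q.n (Wd Q.n Q.m X y) a (a + l + v) l := by
  intro l a v hl hg hex
  have hn := HO.hn
  have hn0 : 0 < Q.n := by omega
  have hm0 := CO.hm
  have hz : ∀ ω ρ, VV (GS Q.n (Wd Q.n Q.m X y) ω ρ) a (a + l) (a + l + v) (a + l + v + l) = 0 :=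
    fun ω ρ => GS_ex (Wd_lt hn0) ω ρ hex
  have hdec : ∀ x, ∃ x' ix, ix < Q.m ∧ x = Q.m * x' + ix := by
    intro x
    exact ⟨x / Q.m, x % Q.m, Nat.mod_lt _ hm0, (Nat.div_add_mod x Q.m).symm⟩
  obtain ⟨a', ra, ha, ea⟩ := hdec a
  obtain ⟨b', rb, hb, eb⟩ := hdec (a + l)
  obtain ⟨c', rc, hc, ec⟩ := hdec (a + l + v)
  obtain ⟨e', re, he, ee⟩ := hdec (a + l + v + l)
  have hab : Q.m * a' + ra < Q.m * b' + rb := by omega
  have hbc : Q.m * b' + rb ≤ Q.m * c' + rc := by omega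
  have hce : Q.m * c' + rc ≤ Q.m * e' + re := by omega
  have hdl : (Q.m * b' + rb) + (Q.m * c' + rc) = (Q.m * e' + re) + (Q.m * a' + ra) := by omega
  have hg' : Q.B * (Q.m * c' + rc) + Q.A * (Q.m * a' + ra) <
      (Q.A + Q.B) * (Q.m * b' + rb) := by
    rw [← ea, ← eb, ← ec]
    have e1 : Q.B * (a + l + v) + Q.A * a = (Q.A + Q.B) * a + Q.B * l + Q.B * v := by ring
    have e2 : (Q.A + Q.B) * (a + l) = (Q.A + Q.B) * a + Q.B * l + Q.A * l := by ring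
    rw [e1, e2]
    omega
  have hz' : ∀ ω ρ, VV (GS Q.n (Wd Q.n Q.m X y) ω ρ) (Q.m * a' + ra) (Q.m * b' + rb)
      (Q.m * c' + rc) (Q.m * e' + re) = 0 := by
    intro ω ρ
    rw [← ea, ← eb, ← ec, ← ee]
    exact hz ω ρ
  have hadm : Adm Q.A Q.B a' b' c' e' := adm_outer HO.hB ha hb hc he hab.le hbc hce hdl hg'
  have hal : Alive Q.n y I om mu U a' b' c' e' := CO.alive hs hn0 ha hb hc he hdl hz'
  have hcl := H.closed hs C hchk h0 e' a' b' c' (by rw [eA, eB]; exact hadm)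
    (by rw [en]; exact hal)
  obtain ⟨t, ht, hm⟩ := hcl
  rw [en, eA, eB] at hm
  have hck := hchk t ht
  obtain ⟨hk1, hck⟩ := bc_and hck
  obtain ⟨hk2, _⟩ := bc_and hck
  have hk2' := Nat.eq_of_beq_eq_true hk2
  rw [sumN_eq] at hk2'
  apply HO.sound hs ha hb hc he (t := t) _ _ hm (hchkO t ht) hab hbc hdl hg' hz'
  · intro k hk
    have := allN_spec hk1 k (by rw [en]; exact hk)
    rw [← eK]
    exact Nat.le_of_ble_eq_true this
  · rw [← eK, ← en, ← H.hnh, ← hk2']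
    rfl

/-- the statement `𝒜(s,n)` -/
theorem avoid_main (H : CHyp P W I w om mu U q qc h K gB xB lB cB uB uX gS lS cS C1 bq bu bl
    BL BC BX BU C2 bs bls BLs BCs BXs) {y : ℕ → ℕ} (hs : IsSeq 2 P.M w y)
    {J : ℕ} {N : ℕ → ℤ} {al : ℕ → ℕ → ℤ} {fi fj : ℕ → ℕ → ℕ}
    (C : Cert P.n P.M w I om mu U q J N al fi fj)
    (hchk : ∀ t ∈ P.T, chkT P t = true)
    (h0 : ∃ t ∈ P.T, Match P.n P.A P.B K y t 0 0 0 0)
    (HO : OHyp Q X Φ d h K lO rO bo C3 br BR) (CO : OCert Q.n Q.m X I om mu U R d)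
    (hchkO : ∀ t ∈ P.T, chkO Q t = true)
    (en : P.n = Q.n) (eA : P.A = Q.A) (eB : P.B = Q.B) (eK : P.K1 = Q.K1)
    (s : ℝ) (hs1 : 1 < s) (hs2 : (Q.B : ℝ) < (s - 1) * (Q.A + Q.B)) :
    Avoid s Q.n := by
  have hn := HO.hn
  have hn0 : 0 < Q.n := by omega
  apply avoid_of_seq (Wd Q.n Q.m X y) (Wd_lt hn0) s hs1
  intro l a v hl hex
  have hno : ¬ Q.B * v < Q.A * l := fun hlt =>
    no_window H hs C hchk h0 HO CO hchkO en eA eB eK l a v hl hlt hex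
  push Not at hno
  have h1 : (Q.A : ℝ) * l ≤ Q.B * v := by exact_mod_cast hno
  have hl' : (1 : ℝ) ≤ l := by exact_mod_cast hl
  have hv : (0 : ℝ) ≤ v := by positivity
  have hAB : (0 : ℝ) < Q.A + Q.B := by
    have : 0 < Q.A + Q.B := by have := HO.hB; omega
    exact_mod_cast this
  have h2 : ((Q.A : ℝ) + Q.B) * l ≤ Q.B * (l + v) := by nlinarith
  have h3 : (Q.B : ℝ) * (l + v) < (s - 1) * (Q.A + Q.B) * (l + v) := by
    apply mul_lt_mul_of_pos_right hs2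
    linarith
  have h4 : ((Q.A : ℝ) + Q.B) * l < (Q.A + Q.B) * ((s - 1) * (l + v)) := by
    calc ((Q.A : ℝ) + Q.B) * l ≤ Q.B * (l + v) := h2
      _ < (s - 1) * (Q.A + Q.B) * (l + v) := h3
      _ = (Q.A + Q.B) * ((s - 1) * (l + v)) := by ring
  exact lt_of_mul_lt_mul_left h4 hAB.le

end

end MPbbea99T
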