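import Pool.Agent.Lib.Pbbea99S.Pack

/-!
# MP_bbea99_co: packed arrays, kernel-friendly loops
-/

namespace MPbbea99T

open Finset MPbbea99S

/-- `if c then a else b` -/
noncomputable def bc (c a b : Bool) : Bool := Bool.rec b a c

/-- `1` for `true` -/
noncomputable def bn (c : Bool) : ℕ := Bool.rec 0 1 c

@[simp] lemma bc_true (a b : Bool) : bc true a b = a := rfl

@[simp] lemma bc_false (a b : Bool) : bc false a b = b := rfl

@[simp] lemma bn_true : bn true = 1 := rfl

@[simp] lemma bn_false : bn false = 0 := rfl

/-- `f (k-1) && ... && f 0` -/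
noncomputable def allN (f : ℕ → Bool) (k : ℕ) : Bool :=
  Nat.rec (motive := fun _ => Bool) true (fun k ih => bc (f k) ih false) k

lemma allN_succ (f : ℕ → Bool) (k : ℕ) : allN f (k + 1) = bc (f k) (allN f k) false := rfl

lemma allN_spec {f : ℕ → Bool} {k : ℕ} (h : allN f k = true) : ∀ i, i < k → f i = true := by
  induction k with
  | zero => intro i hi; omega
  | succ k ih =>
    rw [allN_succ] at h
    cases hf : f k with
    | false => rw [hf] at h; simp at h
    | true =>
      rw [hf, bc_true] at h
      intro i hi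
      rcases Nat.lt_or_ge i k with h1 | h1
      · exact ih h i h1
      · have : i = k := by omega
        rw [this, hf]

/-- sum of `f 0, ..., f (k-1)` -/
noncomputable def sumN (f : ℕ → ℕ) (k : ℕ) : ℕ :=
  Nat.rec (motive := fun _ => ℕ) 0 (fun k ih => Nat.add ih (f k)) k

lemma sumN_succ (f : ℕ → ℕ) (k : ℕ) : sumN f (k + 1) = sumN f k + f k := rfl

lemma sumN_eq (f : ℕ → ℕ) (k : ℕ) : sumN f k = ∑ i ∈ range k, f i := by
  induction k with
  | zero => rfl
  | succ k ih => rw [sumN_succ, ih, Finset.sum_range_succ]

/-- maximum of `f 0, ..., f (k-1)` -/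
noncomputable def maxN (f : ℕ → ℕ) (k : ℕ) : ℕ :=
  Nat.rec (motive := fun _ => ℕ) 0
    (fun k ih => Bool.rec (motive := fun _ => ℕ) (f k) ih (Nat.ble (f k) ih)) k

lemma le_maxN {f : ℕ → ℕ} {k i : ℕ} (hi : i < k) : f i ≤ maxN f k := by
  induction k with
  | zero => omega
  | succ k ih =>
    have e : maxN f (k + 1) = Bool.rec (motive := fun _ => ℕ) (f k) (maxN f k)
      (Nat.ble (f k) (maxN f k)) := rfl
    rw [e]
    cases hb : Nat.ble (f k) (maxN f k) with
    | true =>
      have := Nat.le_of_ble_eq_true hb
      rcases Nat.lt_or_ge i k with h1 | h1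
      · exact ih h1
      · have : i = k := by omega
        rw [this]
        assumption
    | false =>
      have h2 : ¬ f k ≤ maxN f k := by
        intro hc
        rw [Nat.ble_eq_true_of_le hc] at hb
        exact absurd hb (by simp)
      rcases Nat.lt_or_ge i k with h1 | h1
      · have := ih h1
        show f i ≤ f k
        omega
      · have : i = k := by omega
        rw [this]

/-- membership -/
noncomputable def memL (x : ℕ) (l : List ℕ) : Bool :=
  List.rec (motive := fun _ => Bool) false (fun t _ ih => bc (Nat.beq x t) true ih) l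

lemma memL_cons (x t : ℕ) (l : List ℕ) : memL x (t :: l) = bc (Nat.beq x t) true (memL x l) := rfl

lemma memL_spec {x : ℕ} {l : List ℕ} (h : memL x l = true) : x ∈ l := by
  induction l with
  | nil => exact absurd h (by simp [memL])
  | cons t l ih =>
    rw [memL_cons] at h
    cases hb : Nat.beq x t with
    | true => simp [Nat.eq_of_beq_eq_true hb]
    | false =>
      rw [hb, bc_false] at h
      simp [ih h]

/-- all members satisfy `f` -/
noncomputable def allL (f : ℕ → Bool) (l : List ℕ) : Bool :=
  List.rec (motive := fun _ => Bool) true (fun x _ ih => bc (f x) ih false) l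

lemma allL_cons (f : ℕ → Bool) (x : ℕ) (l : List ℕ) :
    allL f (x :: l) = bc (f x) (allL f l) false := rfl

lemma allL_spec {f : ℕ → Bool} {l : List ℕ} (h : allL f l = true) : ∀ x ∈ l, f x = true := by
  induction l with
  | nil => intro x hx; simp at hx
  | cons t l ih =>
    rw [allL_cons] at h
    cases hf : f t with
    | false => rw [hf] at h; simp at h
    | true =>
      rw [hf, bc_true] at h
      intro x hx
      rcases List.mem_cons.1 hx with rfl | hx
      · exact hf
      · exact ih h x hx

/-- members of a list -/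
noncomputable def nthL (l : List ℕ) : ℕ → ℕ :=
  List.rec (motive := fun _ => ℕ → ℕ) (fun _ => 0)
    (fun x _ ih i => Nat.rec (motive := fun _ => ℕ) x (fun j _ => ih j) i) l

/-- field `i` of `T`; `Mo` is the size `2 ^ F` of a field -/
def fd (F Mo T i : ℕ) : ℕ := Nat.mod (Nat.shiftRight T (Nat.mul F i)) Mo

lemma fd_pk {F : ℕ} {g : ℕ → ℕ} {L i : ℕ} (h : ∀ i, i < L → g i < 2 ^ F) (hi : i < L) :
    fd F (2 ^ F) (pk F g L) i = g i := by
  show (pk F g L >>> (F * i)) % 2 ^ F = g i
  rw [Nat.shiftRight_eq_div_pow, pk_field h hi]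

lemma fd_lt {F T i : ℕ} : fd F (2 ^ F) T i < 2 ^ F := Nat.mod_lt _ (by positivity)

/-- bits of a packed array -/
lemma testBit_pk {F : ℕ} (hF : 0 < F) {g : ℕ → ℕ} {L : ℕ} (h : ∀ i, i < L → g i < 2 ^ F) (j : ℕ) :
    (pk F g L).testBit j = (decide (j < F * L) && (g (j / F)).testBit (j % F)) := by
  induction L with
  | zero => simp [pk]
  | succ L ih =>
    have hlt := pk_lt (fun i hi => h i (Nat.lt_succ_of_lt hi))
    rw [pk_succ]
    have e : pk F g L + g L * 2 ^ (F * L) = 2 ^ (F * L) * g L + pk F g L := by ring
    rw [e, Nat.testBit_two_pow_mul_add _ hlt]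
    have e2 : F * (L + 1) = F * L + F := by ring
    split_ifs with hj
    · rw [ih (fun i hi => h i (by omega))]
      have : j < F * (L + 1) := by omega
      simp [hj, this]
    · push Not at hj
      rcases Nat.lt_or_ge j (F * L + F) with h1 | h1
      · have hd : j / F = L := by
          apply Nat.div_eq_of_lt_le
          · rw [Nat.mul_comm]; omega
          · rw [Nat.succ_mul, Nat.mul_comm]; omega
        have hm : j % F = j - F * L := by
          have := Nat.div_add_mod j F
          rw [hd] at this
          omega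
        rw [hd, hm, e2]
        simp [h1]
      · rw [e2]
        have hnl : ¬ j < F * L + F := by omega
        simp only [hnl, decide_false, Bool.false_and]
        apply Nat.testBit_eq_false_of_lt
        apply (h L (by omega)).trans_le
        apply Nat.pow_le_pow_right (by norm_num)
        omega

/-- high bits of all fields are set -/
def hib (X H : ℕ) : Bool := Nat.beq (Nat.land X H) H

lemma hib_pk {F : ℕ} (hF : 0 < F) {g : ℕ → ℕ} {L : ℕ}
    (h1 : ∀ i, i < L → 2 ^ (F - 1) ≤ g i) (h2 : ∀ i, i < L → g i < 2 ^ F) :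
    hib (pk F g L) (pk F (fun _ => 2 ^ (F - 1)) L) = true := by
  have hlt : (2 : ℕ) ^ (F - 1) < 2 ^ F := Nat.pow_lt_pow_right (by norm_num) (by omega)
  have key : (pk F g L) &&& (pk F (fun _ => 2 ^ (F - 1)) L) = pk F (fun _ => 2 ^ (F - 1)) L := by
    apply Nat.eq_of_testBit_eq
    intro j
    rw [Nat.testBit_and, testBit_pk hF h2, testBit_pk hF (fun _ _ => hlt)]
    by_cases hj : j < F * L
    · simp only [hj, decide_true, Bool.true_and]
      have hd : j / F < L := Nat.div_lt_of_lt_mul hj
      rw [Nat.testBit_two_pow]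
      by_cases hm : F - 1 = j % F
      · have hg1 := h1 _ hd
        have hg2 := h2 _ hd
        have : (g (j / F)).testBit (j % F) = true := by
          rw [← hm]
          have e : g (j / F) = 2 ^ (F - 1) * 1 + (g (j / F) - 2 ^ (F - 1)) := by omega
          have hlt2 : g (j / F) - 2 ^ (F - 1) < 2 ^ (F - 1) := by
            have : (2 : ℕ) ^ F = 2 ^ (F - 1) * 2 := by
              rw [← pow_succ]
              congr 1
              omega
            omega
          rw [e, Nat.testBit_two_pow_mul_add _ hlt2]
          simp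
        simp [this]
      · simp [hm]
    · simp [hj]
  show Nat.beq ((pk F g L) &&& (pk F (fun _ => 2 ^ (F - 1)) L)) _ = true
  rw [key]
  exact Nat.beq_refl _

/-- rotation of an array with `n` fields -/
def rot (F n C r : ℕ) : ℕ := Nat.add (Nat.shiftRight C (Nat.mul F r))
  (Nat.shiftLeft (Nat.mod C (Nat.shiftLeft 1 (Nat.mul F r))) (Nat.mul F (Nat.sub n r)))

lemma rot_pk {F n : ℕ} {c : ℕ → ℕ} (h : ∀ i, i < n → c i < 2 ^ F) {r : ℕ} (hr : r < n) :
    rot F n (pk F c n) r = pk F (fun k => c ((k + r) % n)) n := by
  show (pk F c n >>> (F * r)) + ((pk F c n % (1 <<< (F * r))) <<< (F * (n - r))) = _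
  rw [Nat.shiftRight_eq_div_pow, Nat.one_shiftLeft, Nat.shiftLeft_eq]
  obtain ⟨s, rfl⟩ : ∃ s, n = r + s := ⟨n - r, by omega⟩
  rw [pk_div r s (fun i hi => h i (by omega)), pk_mod r s (fun i hi => h i (by omega))]
  have e1 : r + s - r = s := by omega
  have e2 : r + s = s + r := by omega
  have e3 := pk_shift (F := F) (f := fun k => c ((k + r) % (r + s))) s r (by
    intro i hi
    exact h _ (Nat.mod_lt _ (by omega)))
  have e4 : pk F (fun k => c ((k + r) % (r + s))) (r + s) =
      pk F (fun k => c ((k + r) % (r + s))) (s + r) := by rw [e2]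
  rw [e4, e3, e1]
  congr 1
  · apply pk_congr
    intro i hi
    rw [Nat.mod_eq_of_lt (by omega)]
  · rw [Nat.mul_comm]
    congr 1
    apply pk_congr
    intro i hi
    have : i + s + r = i + (r + s) := by ring
    rw [this, Nat.add_mod_right, Nat.mod_eq_of_lt (by omega)]

lemma pk_smul (F c : ℕ) (f : ℕ → ℕ) (L : ℕ) : pk F (fun i => c * f i) L = c * pk F f L := by
  induction L with
  | zero => simp [pk]
  | succ L ih =>
    rw [pk_succ, pk_succ, ih]
    ring

lemma pk_sum (F : ℕ) (g : ℕ → ℕ → ℕ) (L n : ℕ) :
    pk F (fun f => ∑ k ∈ range n, g k f) L = ∑ k ∈ range n, pk F (g k) L := by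
  induction n with
  | zero =>
    simp only [Finset.range_zero, Finset.sum_empty]
    induction L with
    | zero => rfl
    | succ L ih => rw [pk_succ, ih]; simp
  | succ n ih =>
    rw [Finset.sum_range_succ, ← ih, ← pk_add]
    apply pk_congr
    intro i _
    rw [Finset.sum_range_succ]

end MPbbea99T
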