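import Pool.Agent.Lib.Pbbea99T.Pk

/-!
# MP_bbea99_co: splitting a check
-/

namespace MPbbea99T

lemma allL_append {f : ℕ → Bool} {l1 l2 : List ℕ} (h1 : allL f l1 = true)
    (h2 : allL f l2 = true) : allL f (l1 ++ l2) = true := by
  induction l1 with
  | nil => exact h2
  | cons x l ih =>
    rw [allL_cons] at h1
    rw [List.cons_append, allL_cons]
    cases hf : f x with
    | false => rw [hf] at h1; simp at h1
    | true =>
      rw [hf, bc_true] at h1
      rw [bc_true]
      exact ih h1

lemma allL_split {f : ℕ → Bool} {l : List ℕ} (k : ℕ) (h1 : allL f (l.take k) = true)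
    (h2 : allL f (l.drop k) = true) : allL f l = true := by
  rw [← List.take_append_drop k l]
  exact allL_append h1 h2

/-- four pieces of length at most `k`, and the rest -/
lemma allL_four {f : ℕ → Bool} {l : List ℕ} (k : ℕ) (h1 : allL f (l.take k) = true)
    (h2 : allL f ((l.drop k).take k) = true) (h3 : allL f (((l.drop k).drop k).take k) = true)
    (h4 : allL f (((l.drop k).drop k).drop k) = true) : allL f l = true :=
  allL_split k h1 (allL_split k h2 (allL_split k h3 h4))

end MPbbea99T
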