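import Pool.Agent.Lib.Pbbea99S.Seq

/-!
# MP_bbea99_co: signed sums along a sign sequence

`y` is a sequence of sign indices (`0` for `+`, `1` for `-`) with
`y (M q + r) = (y q + w r) mod 2`.
-/

namespace MPbbea99T

open Finset MPbbea99S

/-- `+1` for the index `0` and `-1` for the index `1` -/
def sg (s : ℕ) : ℤ := 1 - 2 * (s : ℤ)

lemma sg_add {s t : ℕ} (hs : s < 2) (ht : t < 2) : sg ((s + t) % 2) = sg s * sg t := by
  interval_cases s <;> interval_cases t <;> norm_num [sg]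

lemma sg_zero : sg 0 = 1 := by norm_num [sg]

lemma sg_one : sg 1 = -1 := by norm_num [sg]

/-- signed weighted prefix sums -/
def FS (y : ℕ → ℕ) (φ : ℕ → ℤ) (j : ℕ) : ℤ := ∑ x ∈ range j, sg (y x) * φ x

/-- partial sums over a block -/
def QS (w : ℕ → ℕ) (θ : ℕ → ℤ) (κ t : ℕ) : ℤ := ∑ u ∈ range t, sg (w u) * θ (κ + u)

/-- values at a quadruple of positions -/
def VV (F : ℕ → ℤ) (a b c e : ℕ) : ℤ := F b - F a - F e + F c

lemma QS_zero (w : ℕ → ℕ) (θ : ℕ → ℤ) (κ : ℕ) : QS w θ κ 0 = 0 := by simp [QS]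

lemma QS_succ (w : ℕ → ℕ) (θ : ℕ → ℤ) (κ t : ℕ) :
    QS w θ κ (t + 1) = QS w θ κ t + sg (w t) * θ (κ + t) := by
  simp [QS, Finset.sum_range_succ]

lemma QS_congr {w : ℕ → ℕ} {θ θ' : ℕ → ℤ} {κ κ' t : ℕ}
    (h : ∀ u, u < t → θ (κ + u) = θ' (κ' + u)) : QS w θ κ t = QS w θ' κ' t := by
  unfold QS
  apply Finset.sum_congr rfl
  intro u hu
  rw [h u (Finset.mem_range.1 hu)]

lemma FS_congr {y : ℕ → ℕ} {φ φ' : ℕ → ℤ} (h : ∀ x, φ x = φ' x) (j : ℕ) :
    FS y φ j = FS y φ' j := by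
  unfold FS
  apply Finset.sum_congr rfl
  intro x _
  rw [h x]

lemma VV_congr {y : ℕ → ℕ} {φ φ' : ℕ → ℤ} (h : ∀ x, φ x = φ' x) (a b c e : ℕ) :
    VV (FS y φ) a b c e = VV (FS y φ') a b c e := by
  unfold VV
  rw [FS_congr h, FS_congr h, FS_congr h, FS_congr h]

lemma FS_lin (y : ℕ → ℕ) (J : ℕ) (α : ℕ → ℤ) (φ : ℕ → ℕ → ℤ) (j : ℕ) :
    FS y (fun x => ∑ f ∈ range J, α f * φ f x) j = ∑ f ∈ range J, α f * FS y (φ f) j := by
  unfold FS
  simp_rw [Finset.mul_sum]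
  rw [Finset.sum_comm]
  apply Finset.sum_congr rfl
  intro f _
  apply Finset.sum_congr rfl
  intro x _
  ring

lemma VV_lin (y : ℕ → ℕ) (J : ℕ) (α : ℕ → ℤ) (φ : ℕ → ℕ → ℤ) (a b c e : ℕ) :
    VV (FS y (fun x => ∑ f ∈ range J, α f * φ f x)) a b c e =
      ∑ f ∈ range J, α f * VV (FS y (φ f)) a b c e := by
  unfold VV
  rw [FS_lin, FS_lin, FS_lin, FS_lin, ← Finset.sum_sub_distrib, ← Finset.sum_sub_distrib,
    ← Finset.sum_add_distrib]
  apply Finset.sum_congr rfl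
  intro f _
  ring

lemma FS_smul (y : ℕ → ℕ) (N : ℤ) (φ : ℕ → ℤ) (j : ℕ) :
    FS y (fun x => N * φ x) j = N * FS y φ j := by
  unfold FS
  rw [Finset.mul_sum]
  apply Finset.sum_congr rfl
  intro x _
  ring

lemma VV_smul (y : ℕ → ℕ) (N : ℤ) (φ : ℕ → ℤ) (a b c e : ℕ) :
    VV (FS y (fun x => N * φ x)) a b c e = N * VV (FS y φ) a b c e := by
  unfold VV
  rw [FS_smul, FS_smul, FS_smul, FS_smul]
  ring

section

variable {M : ℕ} {w y : ℕ → ℕ}

/-- prefix sums of blocks -/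
lemma FS_block (h : IsSeq 2 M w y) (hw : ∀ r, r < M → w r < 2) (φ : ℕ → ℤ) (j t : ℕ)
    (ht : t ≤ M) : FS y φ (M * j + t) =
      FS y (fun x => QS w φ (M * x) M) j + sg (y j) * QS w φ (M * j) t := by
  have key : ∀ j t, t ≤ M → FS y φ (M * j + t) = FS y φ (M * j) +
      sg (y j) * QS w φ (M * j) t := by
    intro j t ht
    unfold FS QS
    rw [Finset.sum_range_add, Finset.mul_sum]
    congr 1
    apply Finset.sum_congr rfl
    intro u hu
    have hu' : u < M := by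
      have := Finset.mem_range.1 hu
      omega
    rw [h.step j u hu', sg_add (h.lt j) (hw u hu')]
    ring
  have h0 : ∀ j, FS y φ (M * j) = FS y (fun x => QS w φ (M * x) M) j := by
    intro j
    induction j with
    | zero => simp [FS]
    | succ j ih =>
      rw [Nat.mul_succ, key j M le_rfl, ih]
      simp [FS, Finset.sum_range_succ]
  rw [key j t ht, h0]

/-- values at a quadruple and at its parent -/
lemma VV_block (h : IsSeq 2 M w y) (hw : ∀ r, r < M → w r < 2) (φ : ℕ → ℤ)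
    {a b c e ia ib ic ie : ℕ} (ha : ia ≤ M) (hb : ib ≤ M) (hc : ic ≤ M) (he : ie ≤ M) :
    VV (FS y φ) (M * a + ia) (M * b + ib) (M * c + ic) (M * e + ie) =
      VV (FS y (fun x => QS w φ (M * x) M)) a b c e +
        (sg (y b) * QS w φ (M * b) ib - sg (y a) * QS w φ (M * a) ia -
          sg (y e) * QS w φ (M * e) ie + sg (y c) * QS w φ (M * c) ic) := by
  unfold VV
  rw [FS_block h hw φ a ia ha, FS_block h hw φ b ib hb, FS_block h hw φ c ic hc,
    FS_block h hw φ e ie he]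
  ring

end

/-! ### living quadruples -/

/-- the quadruple is not excluded by any functional -/
def Alive (n : ℕ) (y : ℕ → ℕ) (I : ℕ) (om : ℕ → ℕ → ℤ) (mu : ℕ → ℤ)
    (U : ℕ → ℕ → ℕ → ℕ → ℤ) (a b c e : ℕ) : Prop :=
  ∀ i, i < I → ∀ ρ, 0 ≤ VV (FS y (fun x => om i ((x + ρ) % n))) a b c e +
    mu i * (((b : ℤ) - a) - (e - c)) + U i 1 (y a) ((a + ρ) % n) + U i 0 (y b) ((b + ρ) % n) +
      U i 0 (y c) ((c + ρ) % n) + U i 1 (y e) ((e + ρ) % n)

/-- certificate for the functionals -/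
structure Cert (n M : ℕ) (w : ℕ → ℕ) (I : ℕ) (om : ℕ → ℕ → ℤ) (mu : ℕ → ℤ)
    (U : ℕ → ℕ → ℕ → ℕ → ℤ) (q : ℕ → ℕ → ℕ → ℤ) (J : ℕ) (N : ℕ → ℤ) (al : ℕ → ℕ → ℤ)
    (fi fj : ℕ → ℕ → ℕ) : Prop where
  hn : 0 < n
  hw : ∀ r, r < M → w r < 2
  hq : ∀ i, i < I → ∀ κ, κ < n → ∀ t, t ≤ M → q i κ t = QS w (fun x => om i (x % n)) κ t
  hN : ∀ i, i < I → 0 < N i
  hal : ∀ i, i < I → ∀ f, f < J → 0 ≤ al i f
  hfi : ∀ i, i < I → ∀ f, f < J → fi i f < I
  hom : ∀ i, i < I → ∀ κ, κ < n → N i * om i κ =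
    ∑ f ∈ range J, al i f * q (fi i f) ((M * κ + fj i f) % n) M
  hmu : ∀ i, i < I → N i * mu i = ∑ f ∈ range J, al i f * (M * mu (fi i f))
  hU : ∀ i, i < I → ∀ ro, ro < 2 → ∀ s, s < 2 → ∀ κ, κ < n → ∀ t, t < M →
    ∑ f ∈ range J, al i f * (sg ro * (sg s * q (fi i f) ((M * κ + fj i f) % n) t +
      mu (fi i f) * t) + U (fi i f) ro ((s + w t) % 2) ((M * κ + fj i f + t) % n)) ≤
        N i * U i ro s κ

lemma Cert.hq' {n M : ℕ} {w : ℕ → ℕ} {I : ℕ} {om : ℕ → ℕ → ℤ} {mu : ℕ → ℤ}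
    {U : ℕ → ℕ → ℕ → ℕ → ℤ} {q : ℕ → ℕ → ℕ → ℤ} {J : ℕ} {N : ℕ → ℤ} {al : ℕ → ℕ → ℤ}
    {fi fj : ℕ → ℕ → ℕ} (C : Cert n M w I om mu U q J N al fi fj) {i : ℕ} (hi : i < I)
    (κ t ρ : ℕ) (ht : t ≤ M) :
    QS w (fun x => om i ((x + ρ) % n)) κ t = q i ((κ + ρ) % n) t := by
  rw [C.hq i hi _ (Nat.mod_lt _ C.hn) t ht]
  apply QS_congr
  intro u _
  show om i ((κ + u + ρ) % n) = om i (((κ + ρ) % n + u) % n)
  rw [Nat.mod_add_mod]
  congr 2
  ring

/-- living quadruples have living parents -/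
theorem Alive.parent {n M : ℕ} {w y : ℕ → ℕ} (h : IsSeq 2 M w y) {I : ℕ} {om : ℕ → ℕ → ℤ}
    {mu : ℕ → ℤ} {U : ℕ → ℕ → ℕ → ℕ → ℤ} {q : ℕ → ℕ → ℕ → ℤ} {J : ℕ} {N : ℕ → ℤ}
    {al : ℕ → ℕ → ℤ} {fi fj : ℕ → ℕ → ℕ} (C : Cert n M w I om mu U q J N al fi fj)
    {a b c e ia ib ic ie : ℕ} (ha : ia < M) (hb : ib < M) (hc : ic < M) (he : ie < M)
    (hal : Alive n y I om mu U (M * a + ia) (M * b + ib) (M * c + ic) (M * e + ie)) :
    Alive n y I om mu U a b c e := by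
  intro i hi ρ
  -- the summands
  have hpos : ∀ f ∈ range J, 0 ≤ al i f * (VV (FS y (fun x => om (fi i f)
      ((x + (M * ρ + fj i f)) % n))) (M * a + ia) (M * b + ib) (M * c + ic) (M * e + ie) +
      mu (fi i f) * ((((M * b + ib : ℕ) : ℤ) - (M * a + ia : ℕ)) -
        ((M * e + ie : ℕ) - (M * c + ic : ℕ))) +
      U (fi i f) 1 (y (M * a + ia)) ((M * a + ia + (M * ρ + fj i f)) % n) +
      U (fi i f) 0 (y (M * b + ib)) ((M * b + ib + (M * ρ + fj i f)) % n) +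
      U (fi i f) 0 (y (M * c + ic)) ((M * c + ic + (M * ρ + fj i f)) % n) +
      U (fi i f) 1 (y (M * e + ie)) ((M * e + ie + (M * ρ + fj i f)) % n)) := by
    intro f hf
    have hf' := Finset.mem_range.1 hf
    exact mul_nonneg (C.hal i hi f hf') (hal _ (C.hfi i hi f hf') _)
  have hsum := Finset.sum_nonneg hpos
  -- the four inequalities
  have hx : ∀ x ix ro, ix < M → ro < 2 →
      ∑ f ∈ range J, al i f * (sg ro * (sg (y x) * q (fi i f)
        ((M * x + (M * ρ + fj i f)) % n) ix + mu (fi i f) * ix) +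
        U (fi i f) ro (y (M * x + ix)) ((M * x + ix + (M * ρ + fj i f)) % n)) ≤
          N i * U i ro (y x) ((x + ρ) % n) := by
    intro x ix ro hix hro
    have g := C.hU i hi ro hro (y x) (h.lt x) ((x + ρ) % n) (Nat.mod_lt _ C.hn) ix hix
    refine le_trans (le_of_eq ?_) g
    apply Finset.sum_congr rfl
    intro f _
    have e1 : (M * ((x + ρ) % n) + fj i f) % n = (M * x + (M * ρ + fj i f)) % n := by
      rw [Nat.add_mod, Nat.mul_mod, Nat.mod_mod, ← Nat.mul_mod, ← Nat.add_mod]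
      congr 1
      ring
    have e2 : (M * ((x + ρ) % n) + fj i f + ix) % n = (M * x + ix + (M * ρ + fj i f)) % n := by
      rw [Nat.add_mod, e1, ← Nat.add_mod]
      congr 1
      ring
    rw [e1, e2, h.step x ix hix]
  have ga := hx a ia 1 ha (by norm_num)
  have gb := hx b ib 0 hb (by norm_num)
  have gc := hx c ic 0 hc (by norm_num)
  have ge := hx e ie 1 he (by norm_num)
  -- the main term
  have hV : N i * VV (FS y (fun x => om i ((x + ρ) % n))) a b c e = ∑ f ∈ range J, al i f *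
      (VV (FS y (fun x => om (fi i f) ((x + (M * ρ + fj i f)) % n)))
        (M * a + ia) (M * b + ib) (M * c + ic) (M * e + ie) -
        (sg (y b) * q (fi i f) ((M * b + (M * ρ + fj i f)) % n) ib -
          sg (y a) * q (fi i f) ((M * a + (M * ρ + fj i f)) % n) ia -
          sg (y e) * q (fi i f) ((M * e + (M * ρ + fj i f)) % n) ie +
          sg (y c) * q (fi i f) ((M * c + (M * ρ + fj i f)) % n) ic)) := by
    rw [← VV_smul]
    have e0 : ∀ x, N i * om i ((x + ρ) % n) = ∑ f ∈ range J, al i f *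
        QS w (fun x => om (fi i f) ((x + (M * ρ + fj i f)) % n)) (M * x) M := by
      intro x
      rw [C.hom i hi _ (Nat.mod_lt _ C.hn)]
      apply Finset.sum_congr rfl
      intro f hf
      rw [C.hq' (C.hfi i hi f (Finset.mem_range.1 hf)) _ _ _ le_rfl]
      have e1 : (M * ((x + ρ) % n) + fj i f) % n = (M * x + (M * ρ + fj i f)) % n := by
        rw [Nat.add_mod, Nat.mul_mod, Nat.mod_mod, ← Nat.mul_mod, ← Nat.add_mod]
        congr 1
        ring
      rw [e1]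
    rw [VV_congr e0, VV_lin]
    apply Finset.sum_congr rfl
    intro f hf
    have hfI := C.hfi i hi f (Finset.mem_range.1 hf)
    have e2 := VV_block h C.hw (fun x => om (fi i f) ((x + (M * ρ + fj i f)) % n))
      (a := a) (b := b) (c := c) (e := e) ha.le hb.le hc.le he.le
    rw [C.hq' hfI _ _ _ ha.le, C.hq' hfI _ _ _ hb.le, C.hq' hfI _ _ _ hc.le,
      C.hq' hfI _ _ _ he.le] at e2
    rw [e2]
    ring
  have hM : N i * (mu i * (((b : ℤ) - a) - (e - c))) = ∑ f ∈ range J, al i f *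
      (mu (fi i f) * ((((M * b + ib : ℕ) : ℤ) - (M * a + ia : ℕ)) -
        ((M * e + ie : ℕ) - (M * c + ic : ℕ))) -
        (mu (fi i f) * ib - mu (fi i f) * ia - mu (fi i f) * ie + mu (fi i f) * ic)) := by
    rw [← mul_assoc, C.hmu i hi, Finset.sum_mul]
    apply Finset.sum_congr rfl
    intro f _
    push_cast
    ring
  have hNpos := C.hN i hi
  by_contra hcon
  push Not at hcon
  have hneg := mul_neg_of_pos_of_neg hNpos hcon
  have hall : (0 : ℤ) ≤ N i * (VV (FS y (fun x => om i ((x + ρ) % n))) a b c e +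
    mu i * (((b : ℤ) - a) - (e - c)) + U i 1 (y a) ((a + ρ) % n) + U i 0 (y b) ((b + ρ) % n) +
      U i 0 (y c) ((c + ρ) % n) + U i 1 (y e) ((e + ρ) % n)) := by
    have hcomb := add_le_add (add_le_add (add_le_add ga gb) gc) ge
    rw [mul_add, mul_add, mul_add, mul_add, mul_add, hV, hM]
    rw [← Finset.sum_add_distrib, ← Finset.sum_add_distrib, ← Finset.sum_add_distrib] at hcomb
    have hfin : ∑ f ∈ range J, al i f * (VV (FS y (fun x => om (fi i f)
      ((x + (M * ρ + fj i f)) % n))) (M * a + ia) (M * b + ib) (M * c + ic) (M * e + ie) +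
      mu (fi i f) * ((((M * b + ib : ℕ) : ℤ) - (M * a + ia : ℕ)) -
        ((M * e + ie : ℕ) - (M * c + ic : ℕ))) +
      U (fi i f) 1 (y (M * a + ia)) ((M * a + ia + (M * ρ + fj i f)) % n) +
      U (fi i f) 0 (y (M * b + ib)) ((M * b + ib + (M * ρ + fj i f)) % n) +
      U (fi i f) 0 (y (M * c + ic)) ((M * c + ic + (M * ρ + fj i f)) % n) +
      U (fi i f) 1 (y (M * e + ie)) ((M * e + ie + (M * ρ + fj i f)) % n)) ≤ _ :=
      le_of_eq (Finset.sum_congr rfl (fun f _ => by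
        have : ∀ V m u1 u2 u3 u4 q1 q2 q3 q4 m1 m2 m3 m4 s1 s2 s3 s4 α : ℤ,
          α * (V + m + u1 + u2 + u3 + u4) =
          (α * (V - (s2 * q2 - s1 * q1 - s4 * q4 + s3 * q3)) +
            α * (m - (m2 - m1 - m4 + m3))) +
            (α * (sg 1 * (s1 * q1 + m1) + u1) + α * (sg 0 * (s2 * q2 + m2) + u2) +
            α * (sg 0 * (s3 * q3 + m3) + u3) + α * (sg 1 * (s4 * q4 + m4) + u4)) := by
          intro V m u1 u2 u3 u4 q1 q2 q3 q4 m1 m2 m3 m4 s1 s2 s3 s4 α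
          rw [sg_one, sg_zero]
          ring
        exact this _ _ _ _ _ _ (q (fi i f) ((M * a + (M * ρ + fj i f)) % n) ia)
          (q (fi i f) ((M * b + (M * ρ + fj i f)) % n) ib)
          (q (fi i f) ((M * c + (M * ρ + fj i f)) % n) ic)
          (q (fi i f) ((M * e + (M * ρ + fj i f)) % n) ie) (mu (fi i f) * ia)
          (mu (fi i f) * ib) (mu (fi i f) * ic) (mu (fi i f) * ie) (sg (y a)) (sg (y b))
          (sg (y c)) (sg (y e)) (al i f)))
    have h1 := hsum.trans hfin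
    rw [Finset.sum_add_distrib, Finset.sum_add_distrib] at h1
    linarith
  linarith

end MPbbea99T
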